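import Pool.Agent.Lib_MP_051624_all.AGlue

/-!
# The base case: powers of one letter

Proof of `base_case`. Let `L = replicate m (c, s)`, `R₀ = mk L`. Let `S` be finite with `c ∈ S`, and
let `S₁ = S \ {c}`. Use `glue2` with `S₀ = {c}`, `R₀ = {L}`, `S₁`, `R₁ = ∅`, `𝒱 = {S₁}`, `U₀ = {c}`,
`U₁ = U₁' = ∅`, `C₀ = {(L, c, mk L)}`, `C₁ = ∅`; here `S₀ ∩ S₁ = ∅`, `S₀ ∪ S₁ = S`. The result,
with `Mod.mono`, is `Mod S {L} {S \ {c}} ∅ {(L, c, mk L)}`.

* `h₀`: `Mod {c} {L} {∅} {{c}} {(L, c, mk L)}`: the model `ZMod m`, on which `c` acts by `+ 1` and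
  the other letters act trivially (for `m > 0` it is finite). The relator acts trivially. The
  window `∅` (`wd_empty`, `d = 1`): an element of `Wd {c}` is `c ^ k`; if it is not in the normal
  closure of `c ^ (± m)` then `m` does not divide `k`, and it has no fixed point. The certificate: the
  rank function `z.val` (injective); the suffixes `(c, b) :: T` of `L` are `(c, s) :: replicate j
  (c, s)`, `j < m`, the points `bpt (c, s) (replicate j (c, s))` of `z` are `z + j` (`s = true`), or
  `z - (j + 1)` (`s = false`), which are pairwise different, so one of them has the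
  strictly largest rank; all these elements commute with `mk L`, so the based relator is `mk L`. No
  bad points. The solvability for `{c}` is `Mod.addSol`.
* `h₁`: `Mod S₁ ∅ {∅, S₁} {∅, ∅} ∅`: for `E` take a finite quotient `q : FreeGroup X →* Q` with
  `q e ≠ 1` for the `e ∈ E`, `e ≠ 1` (`free_rf`), acting on `Q` by left multiplication. There are no
  relators (`CSol` with `R = ∅` is trivial, `g = g₀`). The window `∅`: `e ∉ ⊥` has no fixed point. The
  window `S₁`: there is no `e ∈ Wd S₁` outside of `Wd S₁`.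
-/

open Equiv

namespace ORel

private theorem ABase_rep {X : Type} (c : X) (s : Bool) (j : ℕ) :
    (FreeGroup.mk (List.replicate j (c, s)) : FreeGroup X) = FreeGroup.mk [(c, s)] ^ j := by
  induction j with
  | zero => rfl
  | succ j ih =>
    rw [List.replicate_succ, pow_succ', ← ih, FreeGroup.mul_mk]
    rfl

private theorem ABase_one {X : Type} (c : X) (s : Bool) :
    (FreeGroup.mk [(c, s)] : FreeGroup X) = FreeGroup.of c ^ (if s then (1 : ℤ) else -1) := by
  cases s
  · simp only [Bool.false_eq_true, if_false, zpow_neg, zpow_one]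
    rfl
  · simp only [if_true, zpow_one]
    rfl

private theorem ABase_wd {X : Type} (c : X) (e : FreeGroup X) (he : e ∈ Wd ({c} : Set X)) :
    ∃ k : ℤ, e = FreeGroup.of c ^ k := by
  rw [Wd, Set.image_singleton, Subgroup.mem_closure_singleton] at he
  obtain ⟨k, hk⟩ := he
  exact ⟨k, hk.symm⟩

/-- The cyclic model. -/
private noncomputable def ABase_th {X : Type} (c : X) (m : ℕ) : FreeGroup X →* Perm (ZMod m) := by
  classical
  exact FreeGroup.lift fun x => if x = c then Equiv.addRight (1 : ZMod m) else 1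

private theorem ABase_th_zpow {X : Type} (c : X) (m : ℕ) (k : ℤ) (z : ZMod m) :
    ABase_th c m (FreeGroup.of c ^ k) z = z + (k : ZMod m) := by
  have h1 : ABase_th c m (FreeGroup.of c) = Equiv.addRight (1 : ZMod m) := by
    simp [ABase_th]
  rw [map_zpow, h1]
  induction k using Int.induction_on generalizing z with
  | zero => simp
  | succ i ih =>
    rw [zpow_add_one, Perm.mul_apply, ih, Equiv.coe_addRight]
    push_cast
    ring
  | pred i ih =>
    have h2 : (Equiv.addRight (1 : ZMod m))⁻¹ z = z - 1 := by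
      rw [Perm.inv_eq_iff_eq, Equiv.coe_addRight]
      ring
    rw [zpow_sub_one, Perm.mul_apply, h2, ih]
    push_cast
    ring

private theorem ABase_th_pow {X : Type} (c : X) (s : Bool) (m j : ℕ) (z : ZMod m) :
    ABase_th c m (FreeGroup.mk (List.replicate j (c, s))) z =
      z + ((j : ℤ) * (if s then (1 : ℤ) else -1) : ℤ) := by
  rw [ABase_rep, ABase_one, ← zpow_natCast, ← zpow_mul, ABase_th_zpow]
  congr 2
  ring

private theorem ABase_suffix {A : Type} (a y : A) (T : List A) (m : ℕ)
    (h : (y :: T) <:+ List.replicate m a) : y = a ∧ ∃ j, j < m ∧ T = List.replicate j a := by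
  have h1 := List.suffix_replicate_iff.1 h
  obtain ⟨h2, h3⟩ := h1
  rw [List.length_cons, List.replicate_succ, List.cons.injEq] at h3
  exact ⟨h3.1, T.length, by simpa using h2, h3.2⟩

private theorem ABase_cast (m : ℕ) (hm : 0 < m) (i j : ℕ) (hi : i < m) (hj : j < m) (a : ℕ)
    (u : ℤ) (hu : u = 1 ∨ u = -1) (z : ZMod m)
    (h : z + ((((i + a : ℕ) : ℤ) * u : ℤ) : ZMod m) = z + ((((j + a : ℕ) : ℤ) * u : ℤ) : ZMod m)) :
    i = j := by
  have h1 := add_left_cancel h
  have h2 : (((i + a : ℕ) : ZMod m)) = ((j + a : ℕ) : ZMod m) := by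
    rcases hu with rfl | rfl
    · simpa using h1
    · push_cast at h1 ⊢
      have h3 : (i : ZMod m) + a = -(((i : ZMod m) + a) * -1) := by ring
      rw [h3, h1]
      ring
  have h3 : ((i : ℕ) : ZMod m) = (j : ZMod m) := by
    push_cast at h2
    exact add_right_cancel h2
  rw [ZMod.natCast_eq_natCast_iff'] at h3
  rwa [Nat.mod_eq_of_lt hi, Nat.mod_eq_of_lt hj] at h3

private theorem ABase_bpt {X : Type} (c : X) (s : Bool) (m j : ℕ) (z : ZMod m) :
    ABase_th c m (bpt (c, s) (List.replicate j (c, s))) z =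
      z + ((((j + (if s then 0 else 1) : ℕ) : ℤ) * (if s then (1 : ℤ) else -1) : ℤ) : ZMod m) := by
  unfold bpt
  cases s
  · have h1 : ((c, false) :: List.replicate j (c, false)) = List.replicate (j + 1) (c, false) := by
      rw [List.replicate_succ]
    simp only [Bool.false_eq_true, if_false]
    rw [h1, ABase_th_pow]
    simp
  · simp only [if_true]
    rw [ABase_th_pow]
    simp

private theorem ABase_comm {X : Type} (c : X) (s : Bool) (m j : ℕ) :
    bpt (c, s) (List.replicate j (c, s)) * FreeGroup.mk (List.replicate m (c, s)) *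
      (bpt (c, s) (List.replicate j (c, s)))⁻¹ = FreeGroup.mk (List.replicate m (c, s)) := by
  have h1 : ∃ i : ℕ, bpt (c, s) (List.replicate j (c, s)) = FreeGroup.mk [(c, s)] ^ i := by
    unfold bpt
    cases s
    · refine ⟨j + 1, ?_⟩
      simp only [Bool.false_eq_true, if_false]
      rw [← ABase_rep, List.replicate_succ]
    · refine ⟨j, ?_⟩
      simp only [if_true]
      rw [← ABase_rep]
  obtain ⟨i, hi⟩ := h1
  rw [hi, ABase_rep, ← pow_add, add_comm, pow_add, mul_inv_cancel_right]

private theorem ABase_cyc {X : Type} (c : X) (s : Bool) (m : ℕ) (hm : 0 < m) :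
    Mod ({c} : Set X) {List.replicate m (c, s)} {∅} ∅
      {(List.replicate m (c, s), c, FreeGroup.mk (List.replicate m (c, s)))} := by
  intro E ε hε
  haveI : NeZero m := ⟨hm.ne'⟩
  refine ⟨ZMod m, inferInstance, ⟨0⟩, ABase_th c m, ?_, ?_, ?_, ?_⟩
  · rintro L rfl
    refine (small_false (Z := ZMod m) hε.le).mono (fun z hz => hz ?_) le_rfl
    rw [ABase_th_pow]
    simp
  · rintro V rfl e - he hne
    obtain ⟨k, rfl⟩ := ABase_wd c e he
    refine (small_false (Z := ZMod m) hε.le).mono ?_ le_rfl
    rintro z ⟨d, hd, hdz⟩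
    rw [wd_empty, Subgroup.mem_bot] at hd
    rw [hd, map_one, Perm.one_apply, ABase_th_zpow] at hdz
    have h1 : (k : ZMod m) = 0 := by
      have := hdz.symm
      simpa using this
    rw [ZMod.intCast_zmod_eq_zero_iff_dvd] at h1
    obtain ⟨l, hl⟩ := h1
    apply hne
    apply Subgroup.mem_sup_right
    have h2 : FreeGroup.mk (List.replicate m (c, s)) ∈
        Subgroup.normalClosure (FreeGroup.mk '' {List.replicate m (c, s)}) :=
      Subgroup.subset_normalClosure ⟨_, rfl, rfl⟩
    have h3 : FreeGroup.of c ^ k =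
        FreeGroup.mk (List.replicate m (c, s)) ^ (l * (if s then (1 : ℤ) else -1)) := by
      rw [ABase_rep, ABase_one, ← zpow_natCast, ← zpow_mul, ← zpow_mul, hl]
      congr 1
      cases s <;> simp
    rw [h3]
    exact Subgroup.zpow_mem _ h2 _
  · intro U hU
    exact absurd hU (by simp)
  · rintro C rfl
    refine ⟨fun z => z.val, fun _ => False, small_false hε.le, fun z _ => ?_⟩
    obtain ⟨j, hj, hmax⟩ := Finset.exists_max_image (Finset.range m)
      (fun j => (ABase_th c m (bpt (c, s) (List.replicate j (c, s))) z).val)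
      ⟨0, Finset.mem_range.2 hm⟩
    rw [Finset.mem_range] at hj
    refine ⟨s, List.replicate j (c, s), ?_, ABase_comm c s m j, ?_⟩
    · rw [← List.replicate_succ]
      exact List.suffix_replicate_iff.2 ⟨by simpa using hj, by simp⟩
    · intro b' T' hT' hne
      obtain ⟨h1, j', hj', rfl⟩ := ABase_suffix _ _ _ _ hT'
      have hb : b' = s := (Prod.mk.inj h1).2
      subst hb
      refine lt_of_le_of_ne (hmax j' (Finset.mem_range.2 hj')) ?_
      intro h2
      have h3 := ZMod.val_injective m h2
      rw [ABase_bpt, ABase_bpt] at h3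
      have h4 := ABase_cast m hm j' j hj' hj _ _ (by cases b' <;> simp) z h3
      exact hne (by rw [h4])

private theorem ABase_free {X : Type} (S₁ : Set X) :
    Mod S₁ (∅ : Set (List (X × Bool))) {∅, S₁} {∅, ∅} ∅ := by
  intro E ε hε
  obtain ⟨Q, gQ, fQ, q, hq⟩ := free_rf (E : Set (FreeGroup X)) E.finite_toSet
  refine ⟨Q, fQ, inferInstance, (MulAction.toPermHom Q Q).comp q, ?_, ?_, ?_, ?_⟩
  · intro L hL
    exact absurd hL (by simp)
  · rintro V (rfl | hV) e heE heS hne
    · refine (small_false (Z := Q) hε.le).mono ?_ le_rfl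
      rintro z ⟨d, hd, hdz⟩
      rw [wd_empty, Subgroup.mem_bot] at hd
      rw [hd, map_one, Perm.one_apply] at hdz
      have h1 : z = q e * z := hdz
      have h2 : q e = 1 := right_eq_mul.1 h1
      refine hq e heE ?_ h2
      rintro rfl
      exact hne (Subgroup.one_mem _)
    · rw [Set.mem_singleton_iff] at hV
      subst hV
      exact absurd (Subgroup.mem_sup_left heS) hne
  · intro U _ Ω _ θ' p _ _ Γ _ g₀
    exact ⟨g₀, fun _ _ => rfl, fun L hL => absurd hL (by simp)⟩
  · intro C hC
    exact absurd hC (by simp)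

theorem base_case {X : Type} (c : X) (s : Bool) (m : ℕ) (hm : 0 < m) :
    PP (List.replicate m (c, s)) c := by
  have hL : ∀ y ∈ List.replicate m (c, s), y.1 ∈ ({c} : Set X) := by
    intro y hy
    rw [(List.mem_replicate.1 hy).2]
    exact rfl
  refine ⟨FreeGroup.mk (List.replicate m (c, s)), fun S _ _ hS => ?_⟩
  have hc : c ∈ S := hS (c, s) (List.mem_replicate.2 ⟨hm.ne', rfl⟩)
  have hdis : ({c} : Set X) ∩ (S \ {c}) = ∅ := by
    ext x
    simp
  have hun : ({c} : Set X) ∪ (S \ {c}) = S := by
    rw [Set.union_diff_self]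
    exact Set.union_eq_self_of_subset_left (Set.singleton_subset_iff.2 hc)
  have h₀ : Mod ({c} : Set X) {List.replicate m (c, s)} {({c} : Set X) ∩ (S \ {c})} {{c}}
      {(List.replicate m (c, s), c, FreeGroup.mk (List.replicate m (c, s)))} := by
    rw [hdis]
    have h := (ABase_cyc c s m hm).addSol hL rfl
    rwa [insert_empty_eq] at h
  have h₁ : Mod (S \ {c}) (∅ : Set (List (X × Bool))) (insert (({c} : Set X) ∩ (S \ {c})) {S \ {c}})
      {∅, ∅} ∅ := by
    rw [hdis]
    exact ABase_free (S \ {c})
  have h := glue2 ({c} : Set X) (S \ {c}) {List.replicate m (c, s)} ∅ {S \ {c}} {c} ∅ ∅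
    {(List.replicate m (c, s), c, FreeGroup.mk (List.replicate m (c, s)))} ∅
    (fun L hL' => by rw [Set.mem_singleton_iff.1 hL']; exact hL) (fun L hL' => absurd hL' (by simp))
    (fun V hV => (Set.mem_singleton_iff.1 hV).le) Set.disjoint_sdiff_right (Set.empty_disjoint _)
    (fun C hC => by rw [Set.mem_singleton_iff.1 hC]; exact hL) (fun C hC => absurd hC (by simp)) h₀ h₁
  rw [hun, Set.union_empty, Set.union_empty] at h
  exact h.mono (Set.subset_insert _ _) (Set.empty_subset _) Set.subset_union_left

end ORel
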