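import Pool.Agent.Lib_MP_051624_all.ADefs

/-!
# The cylinder

Integer levels `i` with `p ≤ i < p + M` are represented by `((i - p : ℤ) : ZMod M)`, whose `val` is
`i - p`; so the letter `x ≠ t` acts on the level `i` as the letter `(x, i)` of the model.

* `cylP_t`: `t ^ d` acts as `(z, l) ↦ (z, l - d)`.
* `cylP_rho`: for a letter `(x, j)`, `x ≠ t`: `rhoT t (of (x, j)) = t ^ j * x * t ^ (-j)` acts on
  `(z, level i)` as `(z, i) ↦ (z, i + j) ↦ (θ (of (x, i + j)) z, i + j) ↦ (…, i)`. Then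
  `Subgroup.closure_induction`. (Compare `cyl_rho` in `Lib_MP_051624_or/OCylB.lean`.)
* `cylP_orbit`: the set of the `(z', l')` with `z' = θ d'' z`, `d'' ∈ Wd (VW A p' q')`, is invariant
  under `t` and under the letters `x ∈ A` (all the levels `p + l.val` are in `[p', q']`) and their
  inverses; `Subgroup.closure_induction`.
* `small_cyl`: count the points with `P` on the levels `i₀ ≤ i < i₁` (at most `δ * card Z` on each
  of these levels) and on the other levels (at most `card Z` on each of these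
  `M - (i₁ - i₀)` levels), and divide by `card Z * M`.
-/

open Equiv

namespace ORel

private theorem ACyl_t1 {X Z : Type} (t : X) (p : ℤ) (θ : FreeGroup (X × ℤ) →* Perm Z) (M : ℕ)
    (z : Z) (l : ZMod M) : cylP t p θ M (FreeGroup.of t) (z, l) = (z, l - 1) := by
  rw [cylP, FreeGroup.lift_apply_of, if_pos rfl]
  rfl

private theorem ACyl_x {X Z : Type} (t : X) (p : ℤ) (θ : FreeGroup (X × ℤ) →* Perm Z) (M : ℕ)
    (x : X) (hx : x ≠ t) (z : Z) (l : ZMod M) : cylP t p θ M (FreeGroup.of x) (z, l) =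
      (θ (FreeGroup.of (x, p + (l.val : ℤ))) z, l) := by
  rw [cylP, FreeGroup.lift_apply_of, if_neg hx]
  rfl

theorem cylP_t {X Z : Type} (t : X) (p : ℤ) (θ : FreeGroup (X × ℤ) →* Perm Z) (M : ℕ) (d : ℤ)
    (z : Z) (l : ZMod M) : cylP t p θ M (FreeGroup.of t ^ d) (z, l) = (z, l - d) := by
  rw [map_zpow]
  induction d using Int.induction_on generalizing l with
  | zero => simp
  | succ n ih =>
    rw [zpow_add_one, Perm.mul_apply, ACyl_t1, ih]
    push_cast
    congr 1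
    ring
  | pred n ih =>
    have h1 : (cylP t p θ M (FreeGroup.of t))⁻¹ (z, l) = (z, l + 1) := by
      rw [Perm.inv_eq_iff_eq, ACyl_t1, add_sub_cancel_right]
    rw [zpow_sub_one, Perm.mul_apply, h1, ih]
    push_cast
    congr 1
    ring

theorem cylP_rho {X Z : Type} (t : X) (p : ℤ) (θ : FreeGroup (X × ℤ) →* Perm Z) (M : ℕ)
    (hM : 0 < M) (a b i : ℤ) (ha : p ≤ a + i) (hb : b + i < p + M) (w : FreeGroup (X × ℤ))
    (hw : w ∈ Wd {y : X × ℤ | y.1 ≠ t ∧ a ≤ y.2 ∧ y.2 ≤ b}) (z : Z) :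
    cylP t p θ M (rhoT t w) (z, ((i - p : ℤ) : ZMod M)) =
      (θ (FreeGroup.map (sh X i) w) z, ((i - p : ℤ) : ZMod M)) := by
  have : NeZero M := ⟨hM.ne'⟩
  induction hw using Subgroup.closure_induction generalizing z with
  | mem w hw =>
    obtain ⟨⟨x, j⟩, ⟨hx, hj1, hj2⟩, rfl⟩ := hw
    have hx' : x ≠ t := hx
    have hj1' : a ≤ j := hj1
    have hj2' : j ≤ b := hj2
    have h1 : rhoT t (FreeGroup.of (x, j)) = FreeGroup.of t ^ j * FreeGroup.of x *
        FreeGroup.of t ^ (-j) := by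
      rw [rhoT, FreeGroup.lift_apply_of, zpow_neg]
    rw [h1, map_mul, map_mul, Perm.mul_apply, Perm.mul_apply, cylP_t, ACyl_x t p θ M x hx', cylP_t,
      FreeGroup.map.of]
    have h2 : ((i - p : ℤ) : ZMod M) - ((-j : ℤ) : ZMod M) = ((i - p + j : ℤ) : ZMod M) := by
      push_cast
      ring
    have h3 : (((i - p + j : ℤ) : ZMod M).val : ℤ) = i - p + j := by
      rw [ZMod.val_intCast]
      exact Int.emod_eq_of_lt (by linarith) (by linarith)
    have h4 : (x, p + (((i - p + j : ℤ) : ZMod M).val : ℤ)) = sh X i (x, j) := by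
      rw [h3]
      refine Prod.ext rfl ?_
      change p + (i - p + j) = j + i
      ring
    rw [h2, h4]
    refine Prod.ext rfl ?_
    change ((i - p + j : ℤ) : ZMod M) - (j : ZMod M) = ((i - p : ℤ) : ZMod M)
    push_cast
    ring
  | one => simp
  | mul u v _ _ hu hv =>
    rw [map_mul, map_mul, Perm.mul_apply, hv, hu, map_mul, map_mul, Perm.mul_apply]
  | inv u _ hu =>
    rw [map_inv, map_inv, Perm.inv_eq_iff_eq, hu, map_inv, map_inv]
    simp

theorem cylP_orbit {X Z : Type} (t : X) (p : ℤ) (θ : FreeGroup (X × ℤ) →* Perm Z) (M : ℕ)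
    (hM : 0 < M) (W : Set X) (p' q' : ℤ) (hp : p' ≤ p) (hq : p + M ≤ q' + 1) (d : FreeGroup X)
    (hd : d ∈ Wd W) (z : Z) (l : ZMod M) :
    ∃ d' ∈ Wd (VW (W \ {t}) p' q'), (cylP t p θ M d (z, l)).1 = θ d' z := by
  have : NeZero M := ⟨hM.ne'⟩
  induction hd using Subgroup.closure_induction generalizing z l with
  | mem w hw =>
    obtain ⟨x, hx, rfl⟩ := hw
    by_cases hxt : x = t
    · subst hxt
      refine ⟨1, Subgroup.one_mem _, ?_⟩
      rw [ACyl_t1, map_one]
      rfl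
    · refine ⟨FreeGroup.of (x, p + (l.val : ℤ)), ?_, ?_⟩
      · refine Subgroup.subset_closure ⟨(x, p + (l.val : ℤ)), ⟨⟨hx, hxt⟩, ?_, ?_⟩, rfl⟩
        · change p' ≤ p + (l.val : ℤ)
          have : (0 : ℤ) ≤ (l.val : ℤ) := Int.natCast_nonneg _
          linarith
        · change p + (l.val : ℤ) ≤ q'
          have h1 : (l.val : ℤ) < M := by exact_mod_cast ZMod.val_lt l
          linarith
      · rw [ACyl_x t p θ M x hxt]
  | one =>
    refine ⟨1, Subgroup.one_mem _, ?_⟩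
    rw [map_one, map_one]
    rfl
  | mul u v _ _ hu hv =>
    obtain ⟨d1, hd1, h1⟩ := hv z l
    obtain ⟨d2, hd2, h2⟩ := hu (cylP t p θ M v (z, l)).1 (cylP t p θ M v (z, l)).2
    refine ⟨d2 * d1, Subgroup.mul_mem _ hd2 hd1, ?_⟩
    rw [map_mul, map_mul, Perm.mul_apply, Perm.mul_apply, ← h1, ← h2]
  | inv u _ hu =>
    obtain ⟨d1, hd1, h1⟩ := hu ((cylP t p θ M u)⁻¹ (z, l)).1 ((cylP t p θ M u)⁻¹ (z, l)).2
    refine ⟨d1⁻¹, Subgroup.inv_mem _ hd1, ?_⟩
    have h2 : cylP t p θ M u ((cylP t p θ M u)⁻¹ (z, l)) = (z, l) :=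
      Equiv.apply_symm_apply (cylP t p θ M u) (z, l)
    rw [Prod.mk.eta, h2] at h1
    rw [map_inv, map_inv, eq_comm, Perm.inv_eq_iff_eq]
    exact h1

private theorem ACyl_sum {Z : Type} [Finite Z] {M : ℕ} [NeZero M] (P : Z × ZMod M → Prop)
    {δ : ℝ} (h : ∀ i : ZMod M, Small (fun z => P (z, i)) δ) : Small P δ := by
  classical
  have : Fintype Z := Fintype.ofFinite Z
  unfold Small at *
  have h1 : {x | P x}.ncard = ∑ i : ZMod M, {z | P (z, i)}.ncard := by
    rw [Set.ncard_eq_toFinset_card']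
    rw [Finset.card_eq_sum_card_fiberwise (f := Prod.snd) (t := Finset.univ)
      (fun _ _ => Finset.mem_coe.2 (Finset.mem_univ _))]
    refine Finset.sum_congr rfl fun i _ => ?_
    rw [Set.ncard_eq_toFinset_card']
    refine Finset.card_bij' (fun x _ => x.1) (fun z _ => (z, i)) ?_ ?_ ?_ ?_
    · rintro ⟨z, j⟩ hx
      simp only [Finset.mem_filter, Set.mem_toFinset, Set.mem_ofPred_eq] at hx ⊢
      obtain ⟨hx1, rfl⟩ := hx
      exact hx1
    · intro z hz
      simp only [Finset.mem_filter, Set.mem_toFinset, Set.mem_ofPred_eq] at hz ⊢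
      exact ⟨hz, trivial⟩
    · rintro ⟨z, j⟩ hx
      simp only [Finset.mem_filter, Set.mem_toFinset, Set.mem_ofPred_eq] at hx
      obtain ⟨-, rfl⟩ := hx
      rfl
    · intro z _
      rfl
  rw [h1, Nat.card_prod, Nat.card_zmod]
  push_cast
  calc (∑ i : ZMod M, ({z | P (z, i)}.ncard : ℝ)) ≤ ∑ _i : ZMod M, δ * (Nat.card Z : ℝ) :=
        Finset.sum_le_sum fun i _ => h i
    _ = δ * ((Nat.card Z : ℝ) * M) := by
        rw [Finset.sum_const, Finset.card_univ, ZMod.card, nsmul_eq_mul]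
        ring

private theorem ACyl_bad {Z : Type} [Finite Z] {M : ℕ} [NeZero M] (B : Finset (ZMod M))
    {β : ℝ} (h : (B.card : ℝ) ≤ β * M) : Small (fun x : Z × ZMod M => x.2 ∈ B) β := by
  classical
  have h1 : {x : Z × ZMod M | x.2 ∈ B} = (Set.univ : Set Z) ×ˢ (B : Set (ZMod M)) := by
    ext x
    simp
  unfold Small
  rw [h1, Set.ncard_prod, Set.ncard_univ, Set.ncard_coe_finset, Nat.card_prod, Nat.card_zmod]
  push_cast
  have h2 : (0 : ℝ) ≤ Nat.card Z := Nat.cast_nonneg _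
  have h3 := mul_le_mul_of_nonneg_left h h2
  linarith

theorem small_cyl {Z : Type} [Finite Z] (M : ℕ) (hM : 0 < M) (P : Z × ZMod M → Prop)
    (p i₀ i₁ : ℤ) (h0 : p ≤ i₀) (h1 : i₀ ≤ i₁) (h2 : i₁ ≤ p + M) (δ : ℝ) (hδ : 0 ≤ δ)
    (h : ∀ i : ℤ, i₀ ≤ i → i < i₁ → Small (fun z => P (z, ((i - p : ℤ) : ZMod M))) δ) :
    Small P (δ + ((M : ℝ) - ((i₁ - i₀ : ℤ) : ℝ)) / M) := by
  classical
  have : NeZero M := ⟨hM.ne'⟩
  have hMr : (0 : ℝ) < M := by exact_mod_cast hM
  let B : Finset (ZMod M) :=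
    Finset.univ.filter fun l : ZMod M => ¬ (i₀ ≤ p + (l.val : ℤ) ∧ p + (l.val : ℤ) < i₁)
  have hval : ∀ i : ℤ, i₀ ≤ i → i < i₁ → (((i - p : ℤ) : ZMod M).val : ℤ) = i - p := by
    intro i hi1 hi2
    rw [ZMod.val_intCast]
    exact Int.emod_eq_of_lt (by linarith) (by linarith)
  have hB : (B.card : ℝ) ≤ ((M : ℝ) - ((i₁ - i₀ : ℤ) : ℝ)) / M * M := by
    rw [div_mul_cancel₀ _ hMr.ne']
    have h3 : (Finset.univ.filter fun l : ZMod M =>
        (i₀ ≤ p + (l.val : ℤ) ∧ p + (l.val : ℤ) < i₁)).card + B.card = M := by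
      have := Finset.card_filter_add_card_filter_not (s := (Finset.univ : Finset (ZMod M)))
        (fun l : ZMod M => (i₀ ≤ p + (l.val : ℤ) ∧ p + (l.val : ℤ) < i₁))
      rw [Finset.card_univ, ZMod.card] at this
      exact this
    have h4 : (Finset.Ico i₀ i₁).card ≤ (Finset.univ.filter fun l : ZMod M =>
        (i₀ ≤ p + (l.val : ℤ) ∧ p + (l.val : ℤ) < i₁)).card := by
      refine Finset.card_le_card_of_injOn (fun i => ((i - p : ℤ) : ZMod M)) ?_ ?_
      · intro i hi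
        have hi' := Finset.mem_Ico.1 (Finset.mem_coe.1 hi)
        have h5 := hval i hi'.1 hi'.2
        refine Finset.mem_coe.2 (Finset.mem_filter.2 ⟨Finset.mem_univ _, ?_, ?_⟩)
        · rw [h5]; linarith
        · rw [h5]; linarith
      · intro i hi j hj hij
        have hi' := Finset.mem_Ico.1 (Finset.mem_coe.1 hi)
        have hj' := Finset.mem_Ico.1 (Finset.mem_coe.1 hj)
        have h5 := hval i hi'.1 hi'.2
        have h6 := hval j hj'.1 hj'.2
        have h7 : ((i - p : ℤ) : ZMod M) = ((j - p : ℤ) : ZMod M) := hij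
        rw [h7, h6] at h5
        linarith
    rw [Int.card_Ico] at h4
    have h5 : (i₁ - i₀) + (B.card : ℤ) ≤ M := by
      omega
    have h6 : (((i₁ - i₀) + (B.card : ℤ) : ℤ) : ℝ) ≤ ((M : ℤ) : ℝ) := by exact_mod_cast h5
    push_cast at h6 ⊢
    linarith
  have h3 : Small (fun x : Z × ZMod M => x.2 ∉ B ∧ P x) δ := by
    refine ACyl_sum _ fun l => ?_
    by_cases hl : l ∈ B
    · exact (small_false (Z := Z) hδ).mono (fun z hz => hz.1 hl) le_rfl
    · have hl' : i₀ ≤ p + (l.val : ℤ) ∧ p + (l.val : ℤ) < i₁ := by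
        by_contra hc
        exact hl (Finset.mem_filter.2 ⟨Finset.mem_univ _, hc⟩)
      have h4 := h (p + (l.val : ℤ)) hl'.1 hl'.2
      have h5 : ((p + (l.val : ℤ) - p : ℤ) : ZMod M) = l := by
        rw [add_sub_cancel_left, Int.cast_natCast, ZMod.natCast_zmod_val]
      rw [h5] at h4
      exact h4.mono (fun z hz => hz.2) le_rfl
  refine (h3.or (ACyl_bad (Z := Z) B hB)).mono (fun x hx => ?_) le_rfl
  by_cases hi : x.2 ∈ B
  · exact Or.inr hi
  · exact Or.inl ⟨hi, hx⟩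

end ORel
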