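import Pool.Agent.Lib_MP_051624_or.ODefs
import Pool.Agent.Lib_MP_051624_or.OSkew
import Pool.Agent.Lib_MP_051624_or.OWd

/-!
# Every one-relator group is sofic: definitions

Words are lists `L : List (X × Bool)`, read from the right to the left when they act on a set.
The letters of the word with the label `(c, b)` are given by the suffixes `(c, b) :: T <:+ L`; the
base point of the traversed edge is `bpt (c, b) T`.

* `CSol S θ R U ε`: on all covers of `θ`, the relators `R` can be solved for the letters of `U`,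
  at the points where they close, up to `ε`.
* `Cert θ L c R₀ ε`: the certificate. There is a rank function `h` on the model such that for most
  `z` one of the `c`-edges of the loop `L` at `z` has the strictly largest rank (of its base point),
  and the relator based at this edge is the fixed element `R₀` of the free group.
* `Mod S R Vs Us Cs`: models of `⟨S | R⟩`, separated from the windows `V ∈ Vs`, solvable for the
  `U ∈ Us`, with the certificates `Cs`.
* `PPD D L c`: the inductive statement, `PP L c` is the case `D = ∅`.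
* `wsum n L`: the weight of a word; `dl t`: the weight which is `1` at `t` and `0` elsewhere.
* `mag t L`: the Magnus rewriting of `L` with respect to `t`; the height of a letter is minus the
  exponent sum of `t` in the suffix after it.
* `rhoT t`: the homomorphism `(x, i) ↦ t ^ i * x * t ^ (-i)`.
* `subH n b`: the substitution `x ↦ x * b ^ n x` (`x ≠ b`), `b ↦ b ^ n b`; `subL` on words.
* `wt n b L`: the weighted Magnus rewriting, `mag b (subL n b L) = wt n b L`.
* `cylP t p θ M`: the cylinder over a model, with the levels `p, …, p + M - 1`.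
-/

open Equiv

namespace ORel

/-- The base point of the edge of the letter `y` with the suffix `T` after it. -/
def bpt {X : Type} (y : X × Bool) (T : List (X × Bool)) : FreeGroup X :=
  if y.2 then FreeGroup.mk T else FreeGroup.mk (y :: T)

/-- Solvability of the relators `R` for the letters in `U`, on all covers, at the points where the
relators close. -/
def CSol {X Z : Type} (S : Set X) (θ : FreeGroup X →* Perm Z) (R : Set (List (X × Bool)))
    (U : Set X) (ε : ℝ) : Prop :=
  ∀ (Ω : Type) [Finite Ω] (θ' : FreeGroup X →* Perm Ω) (p : Ω → Z), Triv p →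
    (∀ x ∈ S, ∀ ω, p (θ' (FreeGroup.of x) ω) = θ (FreeGroup.of x) (p ω)) →
    ∀ (Γ : Type) [Group Γ] (g₀ : X → Ω → Γ), ∃ g : X → Ω → Γ, (∀ x, x ∉ U → g x = g₀ x) ∧
      ∀ L ∈ R, Small (fun ω => θ' (FreeGroup.mk L) ω = ω ∧ val θ' g L ω ≠ 1) ε

/-- The certificate. -/
def Cert {X Z : Type} (θ : FreeGroup X →* Perm Z) (L : List (X × Bool)) (c : X)
    (R₀ : FreeGroup X) (ε : ℝ) : Prop :=
  ∃ (h : Z → ℕ) (bad : Z → Prop), Small bad ε ∧ ∀ z, ¬ bad z →
    ∃ (b : Bool) (T : List (X × Bool)), ((c, b) :: T) <:+ L ∧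
      bpt (c, b) T * FreeGroup.mk L * (bpt (c, b) T)⁻¹ = R₀ ∧
      ∀ (b' : Bool) (T' : List (X × Bool)), ((c, b') :: T') <:+ L → T' ≠ T →
        h (θ (bpt (c, b') T') z) < h (θ (bpt (c, b) T) z)

/-- Models. -/
def Mod {X : Type} (S : Set X) (R : Set (List (X × Bool))) (Vs Us : Set (Set X))
    (Cs : Set (List (X × Bool) × X × FreeGroup X)) : Prop :=
  ∀ (E : Finset (FreeGroup X)) (ε : ℝ), 0 < ε →
    ∃ (Z : Type) (_ : Finite Z) (_ : Nonempty Z) (θ : FreeGroup X →* Perm Z),
      (∀ L ∈ R, Small (fun z => θ (FreeGroup.mk L) z ≠ z) ε) ∧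
      (∀ V ∈ Vs, ∀ e ∈ E, e ∈ Wd S →
        e ∉ Wd V ⊔ Subgroup.normalClosure (FreeGroup.mk '' R) →
        Small (fun z => ∃ d ∈ Wd V, θ d z = θ e z) ε) ∧
      (∀ U ∈ Us, CSol S θ R U ε) ∧
      (∀ C ∈ Cs, Cert θ C.1 C.2.1 C.2.2 ε)

/-- The inductive statement, for the finite alphabets `S` which contain `D` and the letters
of `L`. -/
def PPD {X : Type} (D : Set X) (L : List (X × Bool)) (c : X) : Prop :=
  ∃ R₀ : FreeGroup X, ∀ S : Set X, S.Finite → D ⊆ S → (∀ y ∈ L, y.1 ∈ S) →
    Mod S {L} {S \ {c}} ∅ {(L, c, R₀)}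

/-- The inductive statement. -/
def PP {X : Type} (L : List (X × Bool)) (c : X) : Prop := PPD ∅ L c

/-- The weight of a word. -/
def wsum {X : Type} (n : X → ℤ) : List (X × Bool) → ℤ
  | [] => 0
  | y :: T => (if y.2 then n y.1 else -n y.1) + wsum n T

open scoped Classical in
/-- The weight which is `1` at `t` and `0` elsewhere. -/
noncomputable def dl {X : Type} (t : X) : X → ℤ := fun x => if x = t then 1 else 0

open scoped Classical in
/-- The Magnus rewriting. -/
noncomputable def mag {X : Type} (t : X) : List (X × Bool) → List ((X × ℤ) × Bool)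
  | [] => []
  | y :: T => if y.1 = t then mag t T else ((y.1, -wsum (dl t) T), y.2) :: mag t T

/-- The homomorphism `(x, i) ↦ t ^ i * x * t ^ (-i)`. -/
def rhoT {X : Type} (t : X) : FreeGroup (X × ℤ) →* FreeGroup X :=
  FreeGroup.lift fun y => FreeGroup.of t ^ y.2 * FreeGroup.of y.1 * (FreeGroup.of t ^ y.2)⁻¹

open scoped Classical in
/-- The substitution `x ↦ x * b ^ n x` (`x ≠ b`), `b ↦ b ^ n b`. -/
noncomputable def subH {X : Type} (n : X → ℤ) (b : X) : FreeGroup X →* FreeGroup X :=
  FreeGroup.lift fun x =>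
    if x = b then FreeGroup.of b ^ n b else FreeGroup.of x * FreeGroup.of b ^ n x

/-- The word `b ^ k`. -/
def powL {X : Type} (b : X) (k : ℤ) : List (X × Bool) :=
  List.replicate k.natAbs (b, decide (0 ≤ k))

open scoped Classical in
/-- The substitution on words. -/
noncomputable def subL {X : Type} (n : X → ℤ) (b : X) : List (X × Bool) → List (X × Bool)
  | [] => []
  | y :: T =>
    (if y.1 = b then powL b (if y.2 then n b else -n b)
      else if y.2 then (y.1, true) :: powL b (n y.1)
      else powL b (-n y.1) ++ [(y.1, false)]) ++ subL n b T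

open scoped Classical in
/-- The weighted Magnus rewriting. -/
noncomputable def wt {X : Type} (n : X → ℤ) (b : X) : List (X × Bool) → List ((X × ℤ) × Bool)
  | [] => []
  | y :: T =>
    if y.1 = b then wt n b T
    else ((y.1, if y.2 then -(n y.1 + wsum n T) else -wsum n T), y.2) :: wt n b T

open scoped Classical in
/-- The cylinder over a model: `t` lowers the level, the other letters `x` act on the level
`p + i` as the letter `(x, p + i)`. -/
noncomputable def cylP {X Z : Type} (t : X) (p : ℤ) (θ : FreeGroup (X × ℤ) →* Perm Z) (M : ℕ) :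
    FreeGroup X →* Perm (Z × ZMod M) :=
  FreeGroup.lift fun x =>
    if x = t then Equiv.prodCongr (Equiv.refl Z) (Equiv.subRight 1)
    else
      { toFun := fun a => (θ (FreeGroup.of (x, p + (a.2.val : ℤ))) a.1, a.2)
        invFun := fun a => ((θ (FreeGroup.of (x, p + (a.2.val : ℤ))))⁻¹ a.1, a.2)
        left_inv := fun a => by simp
        right_inv := fun a => by simp }

/-- The passive letters `(x, i)`, `x ∈ A`, `p ≤ i ≤ q`. -/
def VW {X : Type} (A : Set X) (p q : ℤ) : Set (X × ℤ) := {y | y.1 ∈ A ∧ p ≤ y.2 ∧ y.2 ≤ q}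

/-- The letters `(c, i)`, `a ≤ i ≤ b`. -/
def CL {X : Type} (c : X) (a b : ℤ) : Set (X × ℤ) := {y | y.1 = c ∧ a ≤ y.2 ∧ y.2 ≤ b}

/-- The certificates of the relators `shift ^ k L`, `0 ≤ k ≤ N`. -/
def certK {X : Type} (L : List ((X × ℤ) × Bool)) (c : X) (top : ℤ) (R₀ : FreeGroup (X × ℤ))
    (N : ℕ) : Set (List ((X × ℤ) × Bool) × (X × ℤ) × FreeGroup (X × ℤ)) :=
  {C | ∃ k : ℕ, k ≤ N ∧
    C = (wmap (sh X k) L, (c, top + k), FreeGroup.map (sh X k) R₀)}

end ORel
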