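import Pool.Agent.Lib_MP_051624_all.ADefs

/-!
# A new letter

Proof of `emb_step`. Let `R₀'` be given by `hP`. Let `r : FreeGroup (Option X) →* FreeGroup X` be the
retraction `some x ↦ x`, `none ↦ 1`, and `R₀ = r R₀'`. Let `S` be finite, containing the letters of
`L`, and `S' = some '' S ∪ {none}`. For `E`, `ε` let `Z, θ'` be the model for `S'` and the image of
`E` under `FreeGroup.map some`, and `θ = θ'.comp (FreeGroup.map some)`.
* Relator: `mk (wmap some L) = map some (mk L)`.
* Window: if `map some e ∈ Wd (S' \ {some c}) ⊔ normalClosure {mk (wmap some L)}` then, applying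
  `r`, `e ∈ Wd (S \ {c}) ⊔ normalClosure {mk L}`. And `map some d ∈ Wd (S' \ {some c})` for
  `d ∈ Wd (S \ {c})` (`map_wd`).
* Certificate: the suffixes of `wmap some L` are the `wmap some T`, `T <:+ L`, and
  `bpt (some c, b) (wmap some T) = map some (bpt (c, b) T)`; `map some` is injective
  (`r` is a left inverse). Same rank function.
-/

open Equiv

namespace ORel

/-- The retraction `some x ↦ x`, `none ↦ 1`. -/
private def retr (X : Type) : FreeGroup (Option X) →* FreeGroup X :=
  FreeGroup.lift fun x => x.elim 1 FreeGroup.of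

private theorem retr_of_some {X : Type} (x : X) :
    retr X (FreeGroup.of (some x)) = FreeGroup.of x := by
  simp [retr]

private theorem retr_of_none {X : Type} : retr X (FreeGroup.of none) = 1 := by
  simp [retr]

private theorem retr_map {X : Type} (u : FreeGroup X) : retr X (FreeGroup.map some u) = u := by
  have h : (retr X).comp (FreeGroup.map some) = MonoidHom.id (FreeGroup X) := by
    ext x
    simp [retr]
  exact DFunLike.congr_fun h u

private theorem map_mk_wmap {X : Type} (L : List (X × Bool)) :
    FreeGroup.map some (FreeGroup.mk L) = FreeGroup.mk (wmap some L) := rfl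

private theorem bpt_wmap {X : Type} (c : X) (b : Bool) (T : List (X × Bool)) :
    bpt (some c, b) (wmap some T) = FreeGroup.map some (bpt (c, b) T) := by
  cases b <;> rfl

private theorem wmap_inj {X : Type} {T T' : List (X × Bool)} (h : wmap some T = wmap some T') :
    T = T' := by
  refine List.map_injective_iff.2 ?_ h
  rintro ⟨x, b⟩ ⟨y, b'⟩ hxy
  simp only [Prod.mk.injEq, Option.some.injEq] at hxy
  rw [hxy.1, hxy.2]

private theorem suf_wmap {X : Type} {L : List (X × Bool)} {c : X} {b : Bool}
    {T' : List (Option X × Bool)} (h : ((some c, b) :: T') <:+ wmap some L) :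
    ∃ T, T' = wmap some T ∧ ((c, b) :: T) <:+ L := by
  obtain ⟨t, ht⟩ := h
  obtain ⟨l₁, l₂, rfl, -, h2⟩ := List.map_eq_append_iff.1 ht.symm
  obtain ⟨a, l, rfl, h3, h4⟩ := List.map_eq_cons_iff.1 h2
  rcases a with ⟨x, b'⟩
  simp only [Prod.mk.injEq, Option.some.injEq] at h3
  obtain ⟨rfl, rfl⟩ := h3
  exact ⟨l, h4.symm, ⟨l₁, rfl⟩⟩

theorem emb_step {X : Type} (L : List (X × Bool)) (c : X)
    (hP : PPD {none} (wmap some L) (some c)) : PP L c := by
  classical
  obtain ⟨R₀', hR⟩ := hP
  refine ⟨retr X R₀', fun S hS _ hL => ?_⟩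
  intro E ε hε
  have hmapS : ∀ e ∈ Wd S, FreeGroup.map some e ∈ Wd (some '' S ∪ {none}) := by
    intro e he
    have h1 : FreeGroup.map some e ∈ (Wd S).map (FreeGroup.map some) := ⟨e, he, rfl⟩
    rw [map_wd] at h1
    exact wd_mono Set.subset_union_left h1
  obtain ⟨Z, hZ, hZ', θ', h1, h2, -, h4⟩ := hR (some '' S ∪ {none})
    ((hS.image some).union (Set.finite_singleton none)) Set.subset_union_right
    (by
      intro y hy
      obtain ⟨a, ha, rfl⟩ := List.mem_map.1 hy
      exact Or.inl ⟨a.1, hL a ha, rfl⟩)
    (E.image (FreeGroup.map some)) ε hε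
  refine ⟨Z, hZ, hZ', θ'.comp (FreeGroup.map some), ?_, ?_, ?_, ?_⟩
  · intro L' hL'
    rw [Set.mem_singleton_iff] at hL'
    rw [hL']
    exact h1 (wmap some L) rfl
  · intro V hV e heE heS hne
    rw [Set.mem_singleton_iff] at hV
    rw [hV] at hne ⊢
    have h5 := h2 ((some '' S ∪ {none}) \ {some c}) rfl (FreeGroup.map some e)
      (Finset.mem_image_of_mem _ heE) (hmapS e heS) (by
        intro hmem
        apply hne
        have hle : Wd ((some '' S ∪ {none}) \ {some c}) ⊔
            Subgroup.normalClosure (FreeGroup.mk '' {wmap some L}) ≤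
            (Wd (S \ {c}) ⊔ Subgroup.normalClosure (FreeGroup.mk '' {L})).comap (retr X) := by
          refine sup_le ?_ ?_
          · rw [Wd, Subgroup.closure_le]
            rintro _ ⟨x, ⟨hx, hxc⟩, rfl⟩
            rcases hx with ⟨y, hy, rfl⟩ | hx
            · refine Subgroup.mem_sup_left ?_
              rw [retr_of_some]
              refine of_mem_wd ⟨hy, ?_⟩
              rintro rfl
              exact hxc rfl
            · rw [Set.mem_singleton_iff] at hx
              rw [hx, SetLike.mem_coe, Subgroup.mem_comap, retr_of_none]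
              exact Subgroup.one_mem _
          · have h6 : Subgroup.normalClosure (FreeGroup.mk '' {wmap some L}) ≤
                (Subgroup.normalClosure (FreeGroup.mk '' {L})).comap (retr X) := by
              have := Subgroup.Normal.comap (Subgroup.normalClosure_normal
                (s := (FreeGroup.mk '' {L} : Set (FreeGroup X)))) (retr X)
              refine Subgroup.normalClosure_le_normal ?_
              rintro _ ⟨L', hL', rfl⟩
              rw [Set.mem_singleton_iff] at hL'
              rw [hL', SetLike.mem_coe, Subgroup.mem_comap, ← map_mk_wmap, retr_map]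
              exact Subgroup.subset_normalClosure ⟨L, rfl, rfl⟩
            exact h6.trans (Subgroup.comap_mono le_sup_right)
        have h7 := hle hmem
        rw [Subgroup.mem_comap, retr_map] at h7
        exact h7)
    refine h5.mono ?_ le_rfl
    rintro z ⟨d, hd, hdz⟩
    refine ⟨FreeGroup.map some d, ?_, hdz⟩
    have h6 : FreeGroup.map some d ∈ (Wd (S \ {c})).map (FreeGroup.map some) := ⟨d, hd, rfl⟩
    rw [map_wd] at h6
    refine wd_mono ?_ h6
    rintro _ ⟨x, ⟨hx, hxc⟩, rfl⟩
    refine ⟨Or.inl ⟨x, hx, rfl⟩, ?_⟩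
    intro h7
    exact hxc (Option.some.inj h7)
  · intro U hU
    exact absurd hU (Set.notMem_empty U)
  · intro C hC
    rw [Set.mem_singleton_iff] at hC
    rw [hC]
    obtain ⟨h, bad, hbad, hcert⟩ := h4 (wmap some L, some c, R₀') rfl
    refine ⟨h, bad, hbad, fun z hz => ?_⟩
    obtain ⟨b, T', hT', hR₀, hlt⟩ := hcert z hz
    obtain ⟨T, rfl, hT⟩ := suf_wmap hT'
    refine ⟨b, T, hT, ?_, ?_⟩
    · have h5 : bpt (some c, b) (wmap some T) * FreeGroup.mk (wmap some L) *
          (bpt (some c, b) (wmap some T))⁻¹ = R₀' := hR₀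
      rw [bpt_wmap, ← map_mk_wmap, ← map_inv, ← map_mul, ← map_mul] at h5
      rw [← h5, retr_map]
    · intro b₂ T₂ hT₂ hne
      have h5 : ((some c, b₂) :: wmap some T₂) <:+ wmap some L := by
        obtain ⟨t, ht⟩ := hT₂
        have ht' : t ++ (c, b₂) :: T₂ = L := ht
        refine ⟨wmap some t, ?_⟩
        rw [← ht']
        simp [wmap]
      have h6 : h (θ' (bpt (some c, b₂) (wmap some T₂)) z) <
          h (θ' (bpt (some c, b) (wmap some T)) z) :=
        hlt b₂ (wmap some T₂) h5 fun h7 => hne (wmap_inj h7)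
      rw [bpt_wmap, bpt_wmap] at h6
      exact h6

end ORel
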