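import Pool.Agent.Lib_MP_051624_all.AMain
import Pool.Agent.Lib_MP_051624_or.OSof
import Pool.Agent.Lib_MP_051624_or.OCor

/-!
# Every one-relator group is sofic

Proof of `sofic_of_PP`: `sofic_of_models` with `R = {L}`. Given `E`, `ε`, let `S` be a finite set
which contains the letters of `L` and of the elements of `E` (so `e ∈ Wd S` for `e ∈ E`). `PP L c`
gives `Mod S {L} {S \ {c}} ∅ {(L, c, R₀)}`; `Mod.addSol` adds the solvability for `{c}` and
`Mod.shrink` (`V' = S \ {c}`, `V = ∅`) adds the window `∅`, which is the required property
(`wd_empty`, `d = 1`).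

Proof of `all_sofic`: write `r = g * mk L * g⁻¹` with `L` cyclically reduced
(`FreeGroup.IsCyclicallyReduced`, see Mathlib `GroupTheory/FreeGroup/CyclicallyReduced`:
`reduceCyclically`, its conjugator). If `L = []` then `r = 1`, and `sofic_of_models` applies
with finite quotients (`free_rf`), as `mk []` acts trivially. Otherwise let `c` be the first letter
of `L`, and use `main` and `sofic_of_PP`. The normal closures of `{r}` and of
`{mk L}` are equal, so the two presented groups are isomorphic (`IsSofic.of_mulEquiv`).
-/

open Equiv

namespace ORel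

theorem sofic_of_PP {X : Type} (L : List (X × Bool)) (c : X) (h : PP L c) :
    IsSofic (PresentedGroup {FreeGroup.mk L}) := by
  classical
  obtain ⟨R₀, h⟩ := h
  have key : IsSofic (PresentedGroup (FreeGroup.mk '' ({L} : Set (List (X × Bool))))) := by
    apply sofic_of_models
    intro E ε hε
    set T : Finset X := (L.map Prod.fst).toFinset ∪
      E.biUnion (fun e => (e.toWord.map Prod.fst).toFinset) with hT
    have hLS : ∀ y ∈ L, y.1 ∈ (T : Set X) := by
      intro y hy
      rw [hT, Finset.mem_coe, Finset.mem_union, List.mem_toFinset, List.mem_map]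
      exact Or.inl ⟨y, hy, rfl⟩
    have hES : ∀ e ∈ E, e ∈ Wd (T : Set X) := by
      intro e he
      have h1 := mk_mem_wd (V := (T : Set X)) e.toWord (by
        intro y hy
        rw [hT, Finset.mem_coe, Finset.mem_union, Finset.mem_biUnion]
        refine Or.inr ⟨e, he, ?_⟩
        rw [List.mem_toFinset, List.mem_map]
        exact ⟨y, hy, rfl⟩)
      rwa [FreeGroup.mk_toWord] at h1
    have m := h (T : Set X) T.finite_toSet (Set.empty_subset _) hLS
    have m1 := m.addSol hLS (Set.mem_singleton _)
    have m2 := m1.shrink (V := (∅ : Set X)) (Set.mem_singleton _) (Set.mem_insert _ _)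
      Set.disjoint_sdiff_right (Set.empty_subset _) Set.finite_empty
    obtain ⟨Z, hZ, hZ', θ, h1, h2, -, -⟩ := m2 E ε hε
    refine ⟨Z, hZ, hZ', θ, h1, fun e he hne => ?_⟩
    have h3 := h2 ∅ (Set.mem_insert _ _) e he (hES e he) (by rwa [wd_empty, bot_sup_eq])
    refine h3.mono ?_ le_rfl
    intro z hz
    exact ⟨1, one_mem _, by rw [map_one]; exact hz.symm⟩
  rwa [Set.image_singleton] at key

/-- Every one-relator group is sofic. -/
theorem all_sofic (X : Type) (r : FreeGroup X) : IsSofic (PresentedGroup {r}) := by
  classical
  have hcyc := FreeGroup.reduceCyclically.isCyclicallyReduced (FreeGroup.isReduced_toWord (x := r))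
  have hr : FreeGroup.mk (FreeGroup.reduceCyclically.conjugator r.toWord) *
      FreeGroup.mk (FreeGroup.reduceCyclically r.toWord) *
      (FreeGroup.mk (FreeGroup.reduceCyclically.conjugator r.toWord))⁻¹ = r := by
    rw [FreeGroup.inv_mk, FreeGroup.mul_mk, FreeGroup.mul_mk,
      FreeGroup.reduceCyclically.conj_conjugator_reduceCyclically, FreeGroup.mk_toWord]
  set g := FreeGroup.mk (FreeGroup.reduceCyclically.conjugator r.toWord) with hg
  set L := FreeGroup.reduceCyclically r.toWord with hL
  clear_value g L
  have hS : IsSofic (PresentedGroup {FreeGroup.mk L}) := by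
    cases L with
    | nil =>
      have key : IsSofic (PresentedGroup (FreeGroup.mk '' ({[]} : Set (List (X × Bool))))) := by
        apply sofic_of_models
        intro E ε hε
        obtain ⟨Q, hQ, hQf, q, hq⟩ := free_rf (E : Set (FreeGroup X)) E.finite_toSet
        refine ⟨Q, hQf, ⟨1⟩, (MulAction.toPermHom Q Q).comp q, ?_, ?_⟩
        · intro L hL
          rw [Set.mem_singleton_iff] at hL
          subst hL
          refine (small_false (Z := Q) hε.le).mono ?_ le_rfl
          intro z hz
          apply hz
          have h1 : (FreeGroup.mk [] : FreeGroup X) = 1 := rfl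
          rw [h1, map_one]
          rfl
        · intro e he hne
          have h1 : e ≠ 1 := by
            rintro rfl
            exact hne (one_mem _)
          have h2 := hq e he h1
          refine (small_false (Z := Q) hε.le).mono ?_ le_rfl
          intro z hz
          apply h2
          have h3 : q e * z = z := hz
          exact mul_eq_right.1 h3
      rwa [Set.image_singleton] at key
    | cons y T =>
      exact sofic_of_PP (y :: T) y.1 (main (y :: T).length X (y :: T) rfl hcyc y (by simp))
  have hN : Subgroup.normalClosure {FreeGroup.mk L} = Subgroup.normalClosure {r} := by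
    apply le_antisymm
    · apply Subgroup.normalClosure_le_normal
      rw [Set.singleton_subset_iff, SetLike.mem_coe]
      have h1 : FreeGroup.mk L = g⁻¹ * r * (g⁻¹)⁻¹ := by
        rw [← hr]
        group
      rw [h1]
      exact Subgroup.normalClosure_normal.conj_mem _
        (Subgroup.subset_normalClosure (Set.mem_singleton r)) _
    · apply Subgroup.normalClosure_le_normal
      rw [Set.singleton_subset_iff, SetLike.mem_coe, ← hr]
      exact Subgroup.normalClosure_normal.conj_mem _
        (Subgroup.subset_normalClosure (Set.mem_singleton _)) _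
  exact IsSofic.of_mulEquiv (QuotientGroup.quotientMulEquivOfEq hN) hS

end ORel
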