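import Pool.Agent.Lib_MP_051624_all.AMag
import Pool.Agent.Lib_MP_051624_all.ACyl

/-!
# The cylinder: the certificate

Proof of `hnn_cert`. For `k ≤ N` let `h_k`, `bad_k` be the certificate of
`wmap (sh X k) (mag t L)` for the letter `(c, top + k)` (`hcert`), and let `H` be a natural number
larger than all the values of all the `h_k` (`Z` is finite). The rank function is
`(z, l) ↦ l.val * H + h_k z`, where `k = bot + l.val - top` if `0 ≤ bot + l.val - top ≤ N`, and
`(z, l) ↦ l.val * H` otherwise. The bad points: `(z, l)` with `i = bot + l.val` not in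
`[2 a, N - 2 a)`, or with `bad_i z`. By `small_cyl` their proportion is at most
`δ + (M - (N - 4 a)) / M ≤ δ + (8 a + 1) / M`.

Let `(z, i)` be good. The certificate of `wmap (sh X i) (mag t L)` gives `b`, `T̂` with
`((c, top + i), b) :: T̂ <:+ wmap (sh X i) (mag t L)`; so `T̂ = wmap (sh X i) T'` with
`((c, top), b) :: T' <:+ mag t L`, and by `mag_suffix_conv` there is `T` with `(c, b) :: T <:+ L`,
`mag t T = T'`, `top = -wsum (dl t) T`.
* The based relator: `bpt ((c, top + i), b) T̂ = map (sh X i) (bpt ((c, top), b) T')` and similarly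
  for `mk`; as `map (sh X i)` is injective,
  `bpt ((c, top), b) T' * mk (mag t L) * (…)⁻¹ = R₀`. With `mag_bpt`,
  `bpt (c, b) T = t ^ (-top) * rhoT t (bpt ((c, top), b) T')`, and
  `mk L = rhoT t (mk (mag t L))` (`mag_rho`, `hσ`), so the relator based at this edge is
  `t ^ (-top) * rhoT t R₀ * t ^ top`.
* The ranks: let `(c, b') :: T'' <:+ L`, `T'' ≠ T`, and `j = -wsum (dl t) T''`, so that
  `((c, j), b') :: mag t T'' <:+ mag t L` (`mag_suffix`), and `bot ≤ j ≤ top` (`hc`). By `mag_bpt`,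
  `cylP_rho`, `cylP_t` the element `bpt (c, b') T''` maps `(z, i)` to
  `(θ (map (sh X i) (bpt ((c, j), b') (mag t T''))) z, i + j)` (levels; `bot ≤ i + j < bot + M`).
  If `j < top` its rank is smaller than `(i + j - bot + 1) * H ≤ (i + top - bot) * H`, which is at
  most the rank of the leading point. If `j = top`, then `mag t T'' ≠ T'` (`mag_inj`), the ranks
  are `(i + top - bot) * H + h_i (…)`, and the inequality is the one of the certificate
  of `wmap (sh X i) (mag t L)` at `z` (with `wmap (sh X i) (mag t T'') ≠ T̂`).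
-/

open Equiv

namespace ORel

/-- The representative of a level. -/
private theorem AHnnB_val (M : ℕ) (hM : 0 < M) (j : ℤ) (h0 : 0 ≤ j) (h1 : j < M) :
    ((j : ZMod M).val : ℤ) = j := by
  have : NeZero M := ⟨hM.ne'⟩
  rw [ZMod.val_intCast, Int.emod_eq_of_lt h0 h1]

private theorem AHnnB_suffix {X Y : Type} (f : X → Y) (hf : Function.Injective f) (x : X) (b : Bool)
    (T' : List (Y × Bool)) (L : List (X × Bool)) (h : ((f x, b) :: T') <:+ wmap f L) :
    ∃ T : List (X × Bool), ((x, b) :: T) <:+ L ∧ T' = wmap f T := by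
  unfold wmap at h
  obtain ⟨l, h1, h2⟩ := List.suffix_map_iff.1 h
  cases l with
  | nil => simp at h2
  | cons y T =>
    rw [List.map_cons] at h2
    injection h2 with h3 h4
    have h5 : x = y.1 := hf (congrArg Prod.fst h3)
    have h6 : b = y.2 := congrArg Prod.snd h3
    refine ⟨T, ?_, h4⟩
    rw [h5, h6]
    exact h1

private theorem AHnnB_wmap_inj {X Y : Type} (f : X → Y) (hf : Function.Injective f)
    (T T' : List (X × Bool)) (h : wmap f T = wmap f T') : T = T' := by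
  refine List.map_injective_iff.2 ?_ h
  intro y y' h1
  have h2 : y.1 = y'.1 := hf (congrArg Prod.fst h1)
  have h3 : (f y.1, y.2).2 = (f y'.1, y'.2).2 := congrArg Prod.snd h1
  exact Prod.ext h2 h3

private theorem AHnnB_bpt {X Y : Type} (f : X → Y) (x : X) (b : Bool) (T : List (X × Bool)) :
    bpt (f x, b) (wmap f T) = FreeGroup.map f (bpt (x, b) T) := by
  unfold bpt
  cases b
  · simp [wmap]
  · simp [wmap]

private theorem AHnnB_mk {X Y : Type} (f : X → Y) (T : List (X × Bool)) :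
    (FreeGroup.mk (wmap f T) : FreeGroup Y) = FreeGroup.map f (FreeGroup.mk T) := by
  simp [wmap]

private theorem AHnnB_wd {X : Type} (t x : X) (b : Bool) (a : ℕ) (i : ℤ) (T L : List ((X × ℤ) × Bool))
    (hs : (((x, i), b) :: T) <:+ L) (hL : ∀ y ∈ L, y.1.1 ≠ t ∧ -(a : ℤ) ≤ y.1.2 ∧ y.1.2 ≤ a) :
    bpt ((x, i), b) T ∈ Wd {y : X × ℤ | y.1 ≠ t ∧ -(a : ℤ) ≤ y.2 ∧ y.2 ≤ a} := by
  unfold bpt
  cases b
  · exact mk_mem_wd _ fun y hy => hL y (hs.subset hy)
  · exact mk_mem_wd _ fun y hy => hL y (hs.subset (List.mem_cons_of_mem _ hy))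

/-- The action of a base point on the cylinder. -/
private theorem AHnnB_act {X Z : Type} (t c : X) (htc : t ≠ c) (L : List (X × Bool)) (bot top : ℤ)
    (a N : ℕ) (hbot : -(a : ℤ) ≤ bot) (htop : top ≤ a) (hbt : bot ≤ top) (M : ℕ)
    (hM : (M : ℤ) = top + N - bot + 1)
    (hL : ∀ y ∈ mag t L, -(a : ℤ) ≤ y.1.2 ∧ y.1.2 ≤ a) (θ : FreeGroup (X × ℤ) →* Perm Z)
    (i : ℤ) (hi0 : 2 * a ≤ i) (hi1 : i < N - 2 * a) (b : Bool) (T : List (X × Bool))
    (hT : ((c, b) :: T) <:+ L) (z : Z) :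
    cylP t bot θ M (bpt (c, b) T) (z, ((i - bot : ℤ) : ZMod M)) =
      (θ (FreeGroup.map (sh X i) (bpt ((c, -wsum (dl t) T), b) (mag t T))) z,
        ((i + -wsum (dl t) T - bot : ℤ) : ZMod M)) := by
  have hM0 : 0 < M := by
    have h1 : (0 : ℤ) < (M : ℤ) := by rw [hM]; omega
    exact_mod_cast h1
  have hw := AHnnB_wd t c b a (-wsum (dl t) T) (mag t T) (mag t L)
    (mag_suffix t c htc.symm b T L hT)
    (fun y hy => ⟨(mag_letters t L y hy).2, hL y hy⟩)
  rw [mag_bpt t c htc.symm b T, map_mul, Perm.mul_apply,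
    cylP_rho t bot θ M hM0 (-(a : ℤ)) a i (by omega) (by rw [hM]; omega) _ hw z, cylP_t]
  refine Prod.ext rfl ?_
  show ((i - bot : ℤ) : ZMod M) - ((wsum (dl t) T : ℤ) : ZMod M) = _
  push_cast
  ring

theorem hnn_cert {X Z : Type} [Finite Z] (t c : X) (htc : t ≠ c) (L : List (X × Bool))
    (hσ : wsum (dl t) L = 0) (bot top : ℤ) (a N : ℕ) (hbt : bot ≤ top) (hbot : -(a : ℤ) ≤ bot)
    (htop : top ≤ a) (hN : 6 * a ≤ N) (M : ℕ) (hM : (M : ℤ) = top + N - bot + 1)
    (hL : ∀ y ∈ mag t L, -(a : ℤ) ≤ y.1.2 ∧ y.1.2 ≤ a)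
    (hc : ∀ y ∈ mag t L, y.1.1 = c → bot ≤ y.1.2 ∧ y.1.2 ≤ top)
    (R₀ : FreeGroup (X × ℤ)) (θ : FreeGroup (X × ℤ) →* Perm Z) (δ : ℝ) (hδ : 0 ≤ δ)
    (hcert : ∀ C ∈ certK (mag t L) c top R₀ N, Cert θ C.1 C.2.1 C.2.2 δ) :
    Cert (cylP t bot θ M) L c
      (FreeGroup.of t ^ (-top) * rhoT t R₀ * FreeGroup.of t ^ top)
      (δ + (8 * a + 1 : ℝ) / M) := by
  have hM0 : 0 < M := by
    have h1 : (0 : ℤ) < (M : ℤ) := by rw [hM]; omega
    exact_mod_cast h1
  have hMr : (0 : ℝ) < (M : ℝ) := by exact_mod_cast hM0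
  have hne : NeZero M := ⟨hM0.ne'⟩
  have hN' : (6 : ℤ) * a ≤ N := by exact_mod_cast hN
  have hshi : ∀ k : ℤ, Function.Injective (sh X k) := fun k => (sh X k).injective
  -- the certificates
  have hcert' : ∀ k : ℕ, ∃ (h : Z → ℕ) (bad : Z → Prop), k ≤ N → (Small bad δ ∧ ∀ z, ¬ bad z →
      ∃ (b : Bool) (T : List ((X × ℤ) × Bool)),
        (((c, top + (k : ℤ)), b) :: T) <:+ wmap (sh X k) (mag t L) ∧
        bpt ((c, top + (k : ℤ)), b) T * FreeGroup.mk (wmap (sh X k) (mag t L)) *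
          (bpt ((c, top + (k : ℤ)), b) T)⁻¹ = FreeGroup.map (sh X k) R₀ ∧
        ∀ (b' : Bool) (T' : List ((X × ℤ) × Bool)),
          (((c, top + (k : ℤ)), b') :: T') <:+ wmap (sh X k) (mag t L) → T' ≠ T →
          h (θ (bpt ((c, top + (k : ℤ)), b') T') z) < h (θ (bpt ((c, top + (k : ℤ)), b) T) z)) := by
    intro k
    by_cases hk : k ≤ N
    · obtain ⟨h, bad, h1, h2⟩ := hcert (wmap (sh X k) (mag t L), (c, top + k),
        FreeGroup.map (sh X k) R₀) ⟨k, hk, rfl⟩
      exact ⟨h, bad, fun _ => ⟨h1, h2⟩⟩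
    · exact ⟨fun _ => 0, fun _ => False, fun h => absurd h hk⟩
  choose h bad hb using hcert'
  -- the bound
  obtain ⟨H, hH0, hH⟩ : ∃ H : ℕ, 0 < H ∧ ∀ k : ℕ, k ≤ N → ∀ z, h k z < H := by
    obtain ⟨B, hB⟩ := (Set.finite_range (fun p : Fin (N + 1) × Z => h p.1 p.2)).bddAbove
    refine ⟨B + 1, Nat.succ_pos _, fun k hk z => Nat.lt_succ_of_le ?_⟩
    exact hB ⟨(⟨k, Nat.lt_succ_of_le hk⟩, z), rfl⟩
  let hh : Z × ZMod M → ℕ := fun p => p.2.val * H +
    (if 0 ≤ bot + (p.2.val : ℤ) - top ∧ bot + (p.2.val : ℤ) - top ≤ N then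
      h (bot + (p.2.val : ℤ) - top).toNat p.1 else 0)
  have hhub : ∀ (z : Z) (l : ZMod M), hh (z, l) < (l.val + 1) * H := by
    intro z l
    have h1 : (if 0 ≤ bot + (l.val : ℤ) - top ∧ bot + (l.val : ℤ) - top ≤ N then
      h (bot + (l.val : ℤ) - top).toNat z else 0) < H := by
      split_ifs with h2
      · exact hH _ (by omega) z
      · exact hH0
    show l.val * H + _ < (l.val + 1) * H
    rw [add_mul, one_mul]
    exact Nat.add_lt_add_left h1 _
  have hhv : ∀ (k : ℕ) (z : Z) (l : ZMod M), k ≤ N → (l.val : ℤ) = k + top - bot →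
      hh (z, l) = l.val * H + h k z := by
    intro k z l hk hl
    have h1 : bot + (l.val : ℤ) - top = k := by omega
    show l.val * H + _ = _
    rw [h1, if_pos ⟨by omega, by omega⟩, Int.toNat_natCast]
  refine ⟨hh, fun p => ¬ (2 * (a : ℤ) ≤ bot + (p.2.val : ℤ) ∧ bot + (p.2.val : ℤ) < N - 2 * a) ∨
    bad (bot + (p.2.val : ℤ)).toNat p.1, ?_, ?_⟩
  · have hmain := small_cyl (Z := Z) M hM0 (fun p : Z × ZMod M =>
      ¬ (2 * (a : ℤ) ≤ bot + (p.2.val : ℤ) ∧ bot + (p.2.val : ℤ) < N - 2 * a) ∨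
      bad (bot + (p.2.val : ℤ)).toNat p.1) bot (2 * a) (N - 2 * a)
      (by omega) (by omega) (by rw [hM]; omega) δ hδ (by
        intro i hi0 hi1
        refine (hb i.toNat (by omega)).1.mono ?_ le_rfl
        intro z hz
        have hv : ((((i - bot : ℤ) : ZMod M)).val : ℤ) = i - bot :=
          AHnnB_val M hM0 _ (by omega) (by rw [hM]; omega)
        have hv' : bot + ((((i - bot : ℤ) : ZMod M)).val : ℤ) = i := by rw [hv]; ring
        rcases hz with hz | hz
        · exact absurd ⟨by rw [hv']; exact hi0, by rw [hv']; exact hi1⟩ hz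
        · rwa [hv'] at hz)
    refine hmain.mono (fun ω h => h) ?_
    have h1 : ((M : ℝ) - (((N : ℤ) - 2 * a - 2 * a : ℤ) : ℝ)) ≤ 8 * a + 1 := by
      have h2 : (M : ℤ) - ((N : ℤ) - 2 * a - 2 * a) ≤ 8 * a + 1 := by rw [hM]; omega
      have h3 : (((M : ℤ) - ((N : ℤ) - 2 * a - 2 * a) : ℤ) : ℝ) ≤ ((8 * a + 1 : ℤ) : ℝ) := by
        exact_mod_cast h2
      push_cast at h3 ⊢
      linarith
    gcongr
  · rintro ⟨z, l⟩ hz
    have hz1 : (2 * (a : ℤ) ≤ bot + (l.val : ℤ) ∧ bot + (l.val : ℤ) < N - 2 * a) := by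
      by_contra h1
      exact hz (Or.inl h1)
    have hz2 : ¬ bad (bot + (l.val : ℤ)).toNat z := fun h1 => hz (Or.inr h1)
    obtain ⟨k, hk⟩ : ∃ k : ℕ, (k : ℤ) = bot + (l.val : ℤ) :=
      ⟨(bot + (l.val : ℤ)).toNat, Int.toNat_of_nonneg (by omega)⟩
    rw [← hk] at hz1 hz2
    rw [Int.toNat_natCast] at hz2
    have hl : l = (((k : ℤ) - bot : ℤ) : ZMod M) := by
      have h1 : (k : ℤ) - bot = (l.val : ℤ) := by omega
      rw [h1, Int.cast_natCast, ZMod.natCast_zmod_val]
    have hkN : k ≤ N := by omega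
    obtain ⟨-, h2⟩ := hb k hkN
    obtain ⟨b, T₀, hs, hR, hmax⟩ := h2 z hz2
    -- back to the word
    have hc' : (c, top + (k : ℤ)) = sh X k (c, top) := rfl
    rw [hc'] at hs hR hmax
    obtain ⟨T₁, hs1, rfl⟩ := AHnnB_suffix (sh X k) (hshi k) (c, top) b T₀ (mag t L) hs
    obtain ⟨T, hs2, -, rfl, hht⟩ := mag_suffix_conv t ((c, top), b) T₁ L hs1
    replace hht : top = -wsum (dl t) T := hht
    replace hs2 : ((c, b) :: T) <:+ L := hs2
    rw [AHnnB_bpt, AHnnB_mk, ← map_inv, ← map_mul, ← map_mul] at hR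
    have hR' := FreeGroup.map_injective (hshi k) hR
    have hact : ∀ (b' : Bool) (T' : List (X × Bool)), ((c, b') :: T') <:+ L →
        cylP t bot θ M (bpt (c, b') T') (z, l) =
        (θ (FreeGroup.map (sh X k) (bpt ((c, -wsum (dl t) T'), b') (mag t T'))) z,
          (((k : ℤ) + -wsum (dl t) T' - bot : ℤ) : ZMod M)) := by
      intro b' T' hT'
      rw [hl]
      exact AHnnB_act t c htc L bot top a N hbot htop hbt M hM hL θ k (by omega) (by omega) b' T'
        hT' z
    refine ⟨b, T, hs2, ?_, ?_⟩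
    · have e1 : FreeGroup.mk L = rhoT t (FreeGroup.mk (mag t L)) := by
        have h1 := mag_rho t L
        rwa [hσ, zpow_zero, one_mul] at h1
      have e2 : wsum (dl t) T = -top := by rw [hht]; ring
      rw [mag_bpt t c htc.symm b T, e1, ← hht, ← hR', e2, map_mul, map_mul, map_inv]
      group
    · intro b' T' hT' hne'
      rw [hact b' T' hT', hact b T hs2, ← hht]
      have hj := hc ((c, -wsum (dl t) T'), b')
        ((mag_suffix t c htc.symm b' T' L hT').subset List.mem_cons_self) rfl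
      replace hj : bot ≤ -wsum (dl t) T' ∧ -wsum (dl t) T' ≤ top := hj
      set j := -wsum (dl t) T' with hjdef
      have hv1 : (((((k : ℤ) + j - bot : ℤ) : ZMod M)).val : ℤ) = k + j - bot :=
        AHnnB_val M hM0 _ (by omega) (by rw [hM]; omega)
      have hv2 : (((((k : ℤ) + top - bot : ℤ) : ZMod M)).val : ℤ) = k + top - bot :=
        AHnnB_val M hM0 _ (by omega) (by rw [hM]; omega)
      rcases hj.2.lt_or_eq with hlt | heq
      · refine (hhub _ _).trans_le ?_
        refine le_trans ?_ (Nat.le_add_right _ _)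
        refine Nat.mul_le_mul_right H ?_
        change ((((k : ℤ) + j - bot : ℤ) : ZMod M)).val + 1 ≤
          ((((k : ℤ) + top - bot : ℤ) : ZMod M)).val
        omega
      · rw [heq, hhv k _ _ hkN hv2, hhv k _ _ hkN hv2]
        refine Nat.add_lt_add_left ?_ _
        have h4 : (((c, top), b') :: mag t T') <:+ mag t L := by
          have h5 := mag_suffix t c htc.symm b' T' L hT'
          rwa [← hjdef, heq] at h5
        have h6 : (((sh X k (c, top)), b') :: wmap (sh X k) (mag t T')) <:+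
            wmap (sh X k) (mag t L) := by
          unfold wmap
          exact h4.map (fun y => ((sh X k) y.1, y.2))
        have h7 : wmap (sh X k) (mag t T') ≠ wmap (sh X k) (mag t T) := by
          intro h8
          exact hne' (mag_inj t c htc.symm b' b T' T L hT' hs2
            (AHnnB_wmap_inj _ (hshi k) _ _ h8))
        have h9 := hmax b' _ h6 h7
        rwa [AHnnB_bpt, AHnnB_bpt] at h9

end ORel
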