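import Pool.Agent.Lib_MP_051624_all.AMod

/-!
# Relabelling the letters of models

Proof of `Mod.map`, as `ORel.Models.map` in `Lib_MP_051624_or/OShift.lean` (proved there; its
auxiliary lemmas may be copied): given `E` and `ε`, apply the hypothesis to the image of `E` under
`FreeGroup.map f.symm` and put `θ = θ'.comp (FreeGroup.map f.symm)`. For `CSol` and the windows as
there. For the certificates: the suffixes of `wmap f L` are the `wmap f T'`, `T' <:+ L`, and
`bpt (f x, b) (wmap f T) = FreeGroup.map f (bpt (x, b) T)`; the rank function is the same.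
-/

open Equiv

namespace ORel

private theorem AMap_mk {X Y : Type} (f : X → Y) (L : List (X × Bool)) :
    FreeGroup.map f (FreeGroup.mk L) = FreeGroup.mk (wmap f L) := FreeGroup.map.mk

private theorem AMap_wmap {X Y : Type} (f : X ≃ Y) (L : List (X × Bool)) :
    wmap f.symm (wmap f L) = L := by
  unfold wmap
  rw [List.map_map]
  refine (List.map_congr_left fun y _ => ?_).trans (List.map_id L)
  simp

private theorem AMap_wmap' {X Y : Type} (f : X ≃ Y) (L : List (Y × Bool)) :
    wmap f (wmap f.symm L) = L := by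
  unfold wmap
  rw [List.map_map]
  refine (List.map_congr_left fun y _ => ?_).trans (List.map_id L)
  simp

private theorem AMap_symm_map {X Y : Type} (f : X ≃ Y) (w : FreeGroup X) :
    FreeGroup.map f.symm (FreeGroup.map f w) = w := by
  rw [FreeGroup.map.comp]
  have : (f.symm ∘ f : X → X) = id := by
    funext x
    simp
  rw [this, FreeGroup.map.id]

private theorem AMap_map_symm {X Y : Type} (f : X ≃ Y) (w : FreeGroup Y) :
    FreeGroup.map f (FreeGroup.map f.symm w) = w := by
  rw [FreeGroup.map.comp]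
  have : (f ∘ f.symm : Y → Y) = id := by
    funext x
    simp
  rw [this, FreeGroup.map.id]

private theorem AMap_val {X Y Z Γ : Type} [Group Γ] (f : X → Y) (θ : FreeGroup Y →* Perm Z)
    (g : Y → Z → Γ) (L : List (X × Bool)) (z : Z) :
    val θ g (wmap f L) z = val (θ.comp (FreeGroup.map f)) (fun x => g (f x)) L z := by
  induction L with
  | nil => rfl
  | cons y L ih =>
    rcases y with ⟨x, b⟩
    have e1 : ∀ L' : List (X × Bool), (θ.comp (FreeGroup.map f)) (FreeGroup.mk L') =
        θ (FreeGroup.mk (wmap f L')) := by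
      intro L'
      rw [MonoidHom.comp_apply, AMap_mk]
    have e2 : wmap f ((x, b) :: L) = (f x, b) :: wmap f L := rfl
    rw [e2]
    cases b
    · simp only [val]
      rw [ih, e1, e2]
    · simp only [val]
      rw [ih, e1]

private theorem AMap_bpt {X Y : Type} (f : X → Y) (x : X) (b : Bool) (T : List (X × Bool)) :
    bpt (f x, b) (wmap f T) = FreeGroup.map f (bpt (x, b) T) := by
  cases b
  · have e2 : wmap f ((x, false) :: T) = (f x, false) :: wmap f T := rfl
    simp only [bpt, Bool.false_eq_true, if_false]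
    rw [AMap_mk, e2]
  · simp only [bpt, if_true]
    rw [AMap_mk]

private theorem AMap_cert {X Y Z : Type} (f : X ≃ Y) {θ' : FreeGroup X →* Perm Z}
    {L : List (X × Bool)} {c : X} {R₀ : FreeGroup X} {ε : ℝ} (h : Cert θ' L c R₀ ε) :
    Cert (θ'.comp (FreeGroup.map f.symm)) (wmap f L) (f c) (FreeGroup.map f R₀) ε := by
  obtain ⟨r, bad, hbad, hr⟩ := h
  refine ⟨r, bad, hbad, fun z hz => ?_⟩
  obtain ⟨b, T, hT, hR, hmax⟩ := hr z hz
  refine ⟨b, wmap f T, ?_, ?_, ?_⟩
  · exact hT.map fun y => (f y.1, y.2)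
  · rw [AMap_bpt, ← AMap_mk, ← map_inv, ← map_mul, ← map_mul, hR]
  · intro b' T'' hT'' hne
    have h1 : ((c, b') :: wmap f.symm T'') <:+ L := by
      have h2 := hT''.map fun y : Y × Bool => (f.symm y.1, y.2)
      have h3 : List.map (fun y : Y × Bool => (f.symm y.1, y.2)) ((f c, b') :: T'')
          = (c, b') :: wmap f.symm T'' := by
        simp [wmap]
      have h4 : List.map (fun y : Y × Bool => (f.symm y.1, y.2)) (wmap f L) = L :=
        AMap_wmap f L
      rw [h3, h4] at h2
      exact h2
    have h5 : wmap f.symm T'' ≠ T := by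
      intro h6
      apply hne
      rw [← h6, AMap_wmap']
    have h7 := hmax b' (wmap f.symm T'') h1 h5
    have e1 : FreeGroup.map f.symm (bpt (f c, b') T'') = bpt (c, b') (wmap f.symm T'') := by
      rw [← AMap_bpt]
      simp
    have e2 : FreeGroup.map f.symm (bpt (f c, b) (wmap f T)) = bpt (c, b) T := by
      rw [AMap_bpt, AMap_symm_map]
    rw [MonoidHom.comp_apply, MonoidHom.comp_apply, e1, e2]
    exact h7

theorem Mod.map {X Y : Type} (f : X ≃ Y) {S : Set X} {R : Set (List (X × Bool))}
    {Vs Us : Set (Set X)} {Cs : Set (List (X × Bool) × X × FreeGroup X)}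
    (h : Mod S R Vs Us Cs) :
    Mod (f '' S) (wmap f '' R) ((fun V => f '' V) '' Vs) ((fun U => f '' U) '' Us)
      ((fun C => (wmap f C.1, f C.2.1, FreeGroup.map f C.2.2)) '' Cs) := by
  classical
  intro E ε hε
  obtain ⟨Z, hZ, hZ', θ', h1, h2, h3, h4⟩ := h (E.image (FreeGroup.map f.symm)) ε hε
  refine ⟨Z, hZ, hZ', θ'.comp (FreeGroup.map f.symm), ?_, ?_, ?_, ?_⟩
  · rintro _ ⟨L, hL, rfl⟩
    have e1 : (θ'.comp (FreeGroup.map f.symm)) (FreeGroup.mk (wmap f L)) = θ' (FreeGroup.mk L) := by
      rw [MonoidHom.comp_apply, ← AMap_mk, AMap_symm_map]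
    rw [e1]
    exact h1 L hL
  · rintro _ ⟨V, hV, rfl⟩ e he heS heV
    have h4 := h2 V hV (FreeGroup.map f.symm e) (Finset.mem_image_of_mem _ he) ?_ ?_
    · refine h4.mono ?_ le_rfl
      rintro z ⟨d, hd, hdz⟩
      have hd' : d ∈ (Wd V).map (FreeGroup.map f) := by
        rw [map_wd]
        exact hd
      obtain ⟨d', hd', rfl⟩ := hd'
      refine ⟨d', hd', ?_⟩
      rw [MonoidHom.comp_apply, MonoidHom.comp_apply, AMap_symm_map] at hdz
      exact hdz
    · have heS' : e ∈ (Wd S).map (FreeGroup.map f) := by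
        rw [map_wd]
        exact heS
      obtain ⟨e', he', rfl⟩ := heS'
      rw [AMap_symm_map]
      exact he'
    · intro hcon
      apply heV
      have h5 : e ∈ (Wd V ⊔ Subgroup.normalClosure (FreeGroup.mk '' R)).map (FreeGroup.map f) :=
        ⟨_, hcon, AMap_map_symm f e⟩
      have hsurj : Function.Surjective (FreeGroup.map f : FreeGroup X →* FreeGroup Y) :=
        fun w => ⟨_, AMap_map_symm f w⟩
      rw [Subgroup.map_sup, map_wd, Subgroup.map_normalClosure _ _ hsurj] at h5
      have h6 : (FreeGroup.map f : FreeGroup X →* FreeGroup Y) '' (FreeGroup.mk '' R) =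
          FreeGroup.mk '' (wmap f '' R) := by
        rw [Set.image_image, Set.image_image]
        refine Set.image_congr fun L _ => ?_
        exact AMap_mk f L
      rw [h6] at h5
      exact h5
  · rintro _ ⟨U, hU, rfl⟩ Ω hΩ θ'' p hp heq Γ hΓ g₀
    have heq' : ∀ x ∈ S, ∀ ω, p ((θ''.comp (FreeGroup.map f)) (FreeGroup.of x) ω) =
        θ' (FreeGroup.of x) (p ω) := by
      intro x hx ω
      have h4 := heq (f x) ⟨x, hx, rfl⟩ ω
      rw [MonoidHom.comp_apply] at h4 ⊢
      have e1 : FreeGroup.map f (FreeGroup.of x) = FreeGroup.of (f x) := by simp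
      have e2 : FreeGroup.map f.symm (FreeGroup.of (f x)) = FreeGroup.of x := by simp
      rw [e1, h4, e2]
    obtain ⟨g', hg1, hg2⟩ := h3 U hU Ω (θ''.comp (FreeGroup.map f)) p hp heq' Γ (fun x => g₀ (f x))
    · refine ⟨fun x => g' (f.symm x), ?_, ?_⟩
      · intro x hx
        have hx' : f.symm x ∉ U := by
          intro hc
          exact hx ⟨f.symm x, hc, by simp⟩
        show g' (f.symm x) = g₀ x
        rw [hg1 _ hx']
        simp
      · rintro _ ⟨L, hL, rfl⟩
        refine (hg2 L hL).mono ?_ le_rfl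
        rintro ω ⟨hω1, hω⟩
        rw [AMap_val] at hω
        refine ⟨?_, by simpa using hω⟩
        rw [MonoidHom.comp_apply, AMap_mk]
        exact hω1
  · rintro _ ⟨C, hC, rfl⟩
    exact AMap_cert f (h4 C hC)

end ORel
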