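import Pool.Agent.Lib_MP_051624_all.AShr
import Pool.Agent.Lib_MP_051624_all.AGlue
import Pool.Agent.Lib_MP_051624_all.AMap

/-!
# The chain of the models along the heights

Notation: `A` a finite set of passive letters, `c ∉ A`, `L` a word in the letters `(c, i)`,
`bot ≤ i ≤ top`, and `(x, i)`, `x ∈ A`, `lo ≤ i ≤ hi`. For `p ≤ lo`, `hi ≤ q` let
`SB p q = CL c bot top ∪ VW A p q`. The hypothesis `hP`: models of `⟨SB p q | L⟩` for all such
`p, q`, separated from the windows `SB p q \ {(c, top)}` and `SB p q \ {(c, bot)}`, solvable for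
`(c, top)` and for `(c, bot)`, with the certificate of `L` for `(c, top)`.

Proof of `chain`, by induction on `N`. First, by `Mod.shrink` with `V' = SB p q \ {(c, top)}`,
`U = {(c, top)}`, `V = VW A p q`, the window `VW A p q` can be added in `hP`.

`N = 0`: `relK L 0 = {L}`, `SB p q \ {(c, bot)} = CL c (bot + 1) top ∪ VW A p q`,
`certK L c top R₀ 0 = {(L, (c, top), R₀)}` (`sh X 0` is the identity).

Step `N → N + 1` (`p ≤ lo`, `hi + N + 1 ≤ q`): let `S₀ = CL c bot (top + N) ∪ VW A p q`,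
`R₀ = relK L N`, `S₁ = CL c (bot + N + 1) (top + N + 1) ∪ VW A p q`,
`R₁ = {wmap (sh X (N + 1)) L}`, `𝒱 = {VW A p q, CL c (bot + N + 2) (top + N + 1) ∪ VW A p q}`,
`U₀ = CL c bot (bot + N)`, `U₁ = {(c, top + N + 1)}`, `U₁' = {(c, bot + N + 1)}`. By `Mod.map` with
`f = sh X (N + 1)` the hypothesis `hP` for `p - (N + 1)`, `q - (N + 1)` gives the models of
`⟨S₁ | R₁⟩` with the windows `S₁ \ {(c, top + N + 1)} = S₀ ∩ S₁` and
`S₁ \ {(c, bot + N + 1)} = CL c (bot + N + 2) (top + N + 1) ∪ VW A p q`, and `VW A p q`,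
unknowns `U₁`, `U₁'`, and the certificate `(wmap (sh X (N + 1)) L, (c, top + (N + 1)), map _ R₀)`.
The induction hypothesis has the window `CL c (bot + N + 1) (top + N) ∪ VW A p q = S₀ ∩ S₁` and
the unknown `U₀`. Use `glue2`; `S₀ ∪ S₁ = CL c bot (top + (N + 1)) ∪ VW A p q`,
`U₀ ∪ U₁' = CL c bot (bot + (N + 1))`, `relK L N ∪ R₁ = relK L (N + 1)`. (Compare
`Lib_MP_051624_or/OInd.lean`, where a simpler version of this induction is carried out.)
-/

open Equiv

namespace ORel

private theorem AInd_shCL {X : Type} (c : X) (k a b : ℤ) :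
    sh X k '' CL c a b = CL c (a + k) (b + k) := by
  ext x
  constructor
  · rintro ⟨y, hy, rfl⟩
    have h1 : (sh X k y).2 = y.2 + k := rfl
    refine ⟨hy.1, ?_, ?_⟩
    · rw [h1]
      exact Int.add_le_add_right hy.2.1 k
    · rw [h1]
      exact Int.add_le_add_right hy.2.2 k
  · intro hx
    refine ⟨(x.1, x.2 - k), ⟨hx.1, ?_, ?_⟩, ?_⟩
    · have := hx.2.1
      change a ≤ x.2 - k
      linarith
    · have := hx.2.2
      change x.2 - k ≤ b
      linarith
    · change (x.1, x.2 - k + k) = x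
      rw [sub_add_cancel]

private theorem AInd_shVW {X : Type} (A : Set X) (k a b : ℤ) :
    sh X k '' VW A a b = VW A (a + k) (b + k) := by
  ext x
  constructor
  · rintro ⟨y, hy, rfl⟩
    have h1 : (sh X k y).2 = y.2 + k := rfl
    refine ⟨hy.1, ?_, ?_⟩
    · rw [h1]
      exact Int.add_le_add_right hy.2.1 k
    · rw [h1]
      exact Int.add_le_add_right hy.2.2 k
  · intro hx
    refine ⟨(x.1, x.2 - k), ⟨hx.1, ?_, ?_⟩, ?_⟩
    · have := hx.2.1
      change a ≤ x.2 - k
      linarith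
    · have := hx.2.2
      change x.2 - k ≤ b
      linarith
    · change (x.1, x.2 - k + k) = x
      rw [sub_add_cancel]

private theorem AInd_finVW {X : Type} {A : Set X} (hA : A.Finite) (p q : ℤ) :
    (VW A p q).Finite := by
  refine (hA.prod (Set.finite_Icc p q)).subset ?_
  rintro ⟨x, i⟩ hx
  exact ⟨hx.1, hx.2.1, hx.2.2⟩

private theorem AInd_top {X : Type} {A : Set X} {c : X} (hc : c ∉ A) (a b p q : ℤ) :
    (CL c a b ∪ VW A p q) \ {(c, b)} = CL c a (b - 1) ∪ VW A p q := by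
  ext ⟨x, i⟩
  simp only [CL, VW, Set.mem_sdiff, Set.mem_union, Set.mem_setOf_eq, Set.mem_singleton_iff,
    Prod.mk.injEq]
  constructor
  · rintro ⟨h1 | h1, h2⟩
    · obtain ⟨rfl, h3, h4⟩ := h1
      left
      refine ⟨rfl, h3, ?_⟩
      have h5 : i ≠ b := fun h => h2 ⟨rfl, h⟩
      omega
    · exact Or.inr h1
  · rintro (h1 | h1)
    · obtain ⟨rfl, h3, h4⟩ := h1
      refine ⟨Or.inl ⟨rfl, h3, by omega⟩, ?_⟩
      rintro ⟨-, rfl⟩
      omega
    · refine ⟨Or.inr h1, ?_⟩
      rintro ⟨rfl, -⟩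
      exact hc h1.1

private theorem AInd_bot {X : Type} {A : Set X} {c : X} (hc : c ∉ A) (a b p q : ℤ) :
    (CL c a b ∪ VW A p q) \ {(c, a)} = CL c (a + 1) b ∪ VW A p q := by
  ext ⟨x, i⟩
  simp only [CL, VW, Set.mem_sdiff, Set.mem_union, Set.mem_setOf_eq, Set.mem_singleton_iff,
    Prod.mk.injEq]
  constructor
  · rintro ⟨h1 | h1, h2⟩
    · obtain ⟨rfl, h3, h4⟩ := h1
      left
      refine ⟨rfl, ?_, h4⟩
      have h5 : i ≠ a := fun h => h2 ⟨rfl, h⟩
      omega
    · exact Or.inr h1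
  · rintro (h1 | h1)
    · obtain ⟨rfl, h3, h4⟩ := h1
      refine ⟨Or.inl ⟨rfl, by omega, h4⟩, ?_⟩
      rintro ⟨-, rfl⟩
      omega
    · refine ⟨Or.inr h1, ?_⟩
      rintro ⟨rfl, -⟩
      exact hc h1.1

private theorem AInd_id {X : Type} (L : List ((X × ℤ) × Bool)) :
    wmap (sh X ((0 : ℕ) : ℤ)) L = L := by
  unfold wmap
  conv_rhs => rw [← List.map_id L]
  refine List.map_congr_left fun y _ => ?_
  change ((y.1.1, y.1.2 + ((0 : ℕ) : ℤ)), y.2) = y
  simp

private theorem AInd_relK0 {X : Type} (L : List ((X × ℤ) × Bool)) : relK L 0 = {L} := by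
  ext L'
  constructor
  · rintro ⟨k, hk, rfl⟩
    have hk0 : k = 0 := Nat.le_zero.1 hk
    subst hk0
    exact AInd_id L
  · intro h2
    have h2' : L' = L := h2
    refine ⟨0, le_rfl, ?_⟩
    rw [h2', AInd_id]

private theorem AInd_map0 {X : Type} (w : FreeGroup (X × ℤ)) :
    FreeGroup.map (sh X ((0 : ℕ) : ℤ)) w = w := by
  have h1 : (sh X ((0 : ℕ) : ℤ) : X × ℤ → X × ℤ) = id := by
    funext y
    change (y.1, y.2 + ((0 : ℕ) : ℤ)) = y
    simp
  rw [h1, FreeGroup.map.id]

private theorem AInd_certK0 {X : Type} (L : List ((X × ℤ) × Bool)) (c : X) (top : ℤ)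
    (R₀ : FreeGroup (X × ℤ)) : certK L c top R₀ 0 ⊆ {(L, (c, top), R₀)} := by
  rintro C ⟨k, hk, rfl⟩
  have hk0 : k = 0 := Nat.le_zero.1 hk
  subst hk0
  rw [AInd_id, AInd_map0]
  simp

private theorem AInd_relKs {X : Type} (L : List ((X × ℤ) × Bool)) (N : ℕ) :
    relK L N ∪ {wmap (sh X ((N : ℤ) + 1)) L} = relK L (N + 1) := by
  ext L'
  simp only [relK, Set.mem_union, Set.mem_setOf_eq, Set.mem_singleton_iff]
  constructor
  · rintro (⟨k, hk, rfl⟩ | rfl)
    · exact ⟨k, by omega, rfl⟩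
    · exact ⟨N + 1, le_rfl, by push_cast; rfl⟩
  · rintro ⟨k, hk, rfl⟩
    rcases Nat.lt_or_ge N k with h1 | h1
    · have : k = N + 1 := by omega
      subst this
      right
      push_cast
      rfl
    · exact Or.inl ⟨k, h1, rfl⟩

private theorem AInd_certKs {X : Type} (L : List ((X × ℤ) × Bool)) (c : X) (top : ℤ)
    (R₀ : FreeGroup (X × ℤ)) (N : ℕ) : certK L c top R₀ (N + 1) ⊆
      certK L c top R₀ N ∪ {(wmap (sh X ((N : ℤ) + 1)) L, (c, top + ((N : ℤ) + 1)),
        FreeGroup.map (sh X ((N : ℤ) + 1)) R₀)} := by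
  rintro C ⟨k, hk, rfl⟩
  rcases Nat.lt_or_ge N k with h1 | h1
  · have : k = N + 1 := by omega
    subst this
    right
    push_cast
    rfl
  · exact Or.inl ⟨k, h1, rfl⟩

private theorem AInd_sh {X : Type} {A : Set X} {c : X} {L : List ((X × ℤ) × Bool)}
    {bot top lo hi : ℤ} (hL : ∀ y ∈ L, y.1 ∈ CL c bot top ∪ VW A lo hi) (k : ℤ) :
    ∀ y ∈ wmap (sh X k) L, y.1 ∈ CL c (bot + k) (top + k) ∪ VW A (lo + k) (hi + k) := by
  intro y hy
  obtain ⟨z, hz, rfl⟩ := List.mem_map.1 hy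
  rcases hL z hz with h1 | h1
  · left
    rw [← AInd_shCL]
    exact ⟨z.1, h1, rfl⟩
  · right
    rw [← AInd_shVW]
    exact ⟨z.1, h1, rfl⟩

theorem chain {X : Type} (A : Set X) (hA : A.Finite) (c : X) (hc : c ∉ A)
    (L : List ((X × ℤ) × Bool)) (bot top lo hi : ℤ) (hbt : bot ≤ top)
    (hL : ∀ y ∈ L, y.1 ∈ CL c bot top ∪ VW A lo hi) (R₀ : FreeGroup (X × ℤ))
    (hP : ∀ p q : ℤ, p ≤ lo → hi ≤ q →
      Mod (CL c bot top ∪ VW A p q) {L}
        {(CL c bot top ∪ VW A p q) \ {(c, top)}, (CL c bot top ∪ VW A p q) \ {(c, bot)}}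
        {{(c, top)}, {(c, bot)}} {(L, (c, top), R₀)})
    (N : ℕ) (p q : ℤ) (hp : p ≤ lo) (hq : hi + N ≤ q) :
    Mod (CL c bot (top + N) ∪ VW A p q) (relK L N)
      {VW A p q, CL c (bot + N + 1) (top + N) ∪ VW A p q} {CL c bot (bot + N)}
      (certK L c top R₀ N) := by
  -- the windows `VW A p q` can be added
  have hP' : ∀ p q : ℤ, p ≤ lo → hi ≤ q →
      Mod (CL c bot top ∪ VW A p q) {L}
        {VW A p q, CL c bot (top - 1) ∪ VW A p q, CL c (bot + 1) top ∪ VW A p q}
        {{(c, top)}, {(c, bot)}} {(L, (c, top), R₀)} := by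
    intro p q hp hq
    have h1 := hP p q hp hq
    rw [AInd_top hc, AInd_bot hc] at h1
    have h2 := h1.shrink (V' := CL c bot (top - 1) ∪ VW A p q) (V := VW A p q)
      (U := {(c, top)}) (Or.inl rfl) (Or.inl rfl) (by
        rw [Set.disjoint_singleton_left]
        rintro (h3 | h3)
        · have h4 : top ≤ top - 1 := h3.2.2
          omega
        · exact hc h3.1) Set.subset_union_right (AInd_finVW hA p q)
    exact h2
  induction N with
  | zero =>
    have hq' : hi ≤ q := by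
      have h1 : hi + ((0 : ℕ) : ℤ) ≤ q := hq
      simpa using h1
    have h1 := hP' p q hp hq'
    have e1 : top + ((0 : ℕ) : ℤ) = top := by simp
    have e2 : bot + ((0 : ℕ) : ℤ) = bot := by simp
    rw [AInd_relK0, e1, e2]
    refine h1.mono ?_ ?_ (AInd_certK0 L c top R₀)
    · rintro V (rfl | hV)
      · exact Or.inl rfl
      · exact Or.inr (Or.inr hV)
    · intro U hU
      have hU' : U = CL c bot bot := hU
      have h2 : CL c bot bot = {(c, bot)} := by
        ext ⟨x, i⟩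
        simp only [CL, Set.mem_setOf_eq, Set.mem_singleton_iff, Prod.mk.injEq]
        constructor
        · rintro ⟨h3, h4, h5⟩
          exact ⟨h3, by omega⟩
        · rintro ⟨h3, h4⟩
          exact ⟨h3, by omega, by omega⟩
      rw [hU', h2]
      exact Or.inr rfl
  | succ N ih =>
    have hq1 : hi + ((N : ℤ) + 1) ≤ q := by
      have h1 : hi + ((N + 1 : ℕ) : ℤ) ≤ q := hq
      push_cast at h1
      exact h1
    have hq0 : hi + (N : ℤ) ≤ q := by omega
    have hih := ih hq0
    have hNn : (0 : ℤ) ≤ N := Int.natCast_nonneg N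
    have hS : (CL c bot (top + N) ∪ VW A p q) ∩ (CL c (bot + N + 1) (top + N + 1) ∪ VW A p q) =
        CL c (bot + N + 1) (top + N) ∪ VW A p q := by
      ext ⟨x, i⟩
      simp only [CL, VW, Set.mem_inter_iff, Set.mem_union, Set.mem_setOf_eq]
      constructor
      · rintro ⟨h1 | h1, h2 | h2⟩
        · exact Or.inl ⟨h1.1, h2.2.1, h1.2.2⟩
        · exact Or.inr h2
        · exact Or.inr h1
        · exact Or.inr h1
      · rintro (h1 | h1)
        · exact ⟨Or.inl ⟨h1.1, by omega, h1.2.2⟩, Or.inl ⟨h1.1, h1.2.1, by omega⟩⟩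
        · exact ⟨Or.inr h1, Or.inr h1⟩
    have hSu : (CL c bot (top + N) ∪ VW A p q) ∪ (CL c (bot + N + 1) (top + N + 1) ∪ VW A p q) =
        CL c bot (top + N + 1) ∪ VW A p q := by
      ext ⟨x, i⟩
      simp only [CL, VW, Set.mem_union, Set.mem_setOf_eq]
      constructor
      · rintro ((h1 | h1) | (h1 | h1))
        · exact Or.inl ⟨h1.1, h1.2.1, by omega⟩
        · exact Or.inr h1
        · exact Or.inl ⟨h1.1, by omega, h1.2.2⟩
        · exact Or.inr h1
      · rintro (h1 | h1)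
        · rcases le_or_gt i (top + N) with h2 | h2
          · exact Or.inl (Or.inl ⟨h1.1, h1.2.1, h2⟩)
          · exact Or.inr (Or.inl ⟨h1.1, by omega, h1.2.2⟩)
        · exact Or.inl (Or.inr h1)
    have hUu : CL c bot (bot + N) ∪ {(c, bot + N + 1)} = CL c bot (bot + N + 1) := by
      ext ⟨x, i⟩
      simp only [CL, Set.mem_union, Set.mem_setOf_eq, Set.mem_singleton_iff, Prod.mk.injEq]
      constructor
      · rintro (h1 | h1)
        · exact ⟨h1.1, h1.2.1, by omega⟩
        · exact ⟨h1.1, by omega, by omega⟩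
      · rintro ⟨h1, h2, h3⟩
        rcases le_or_gt i (bot + N) with h4 | h4
        · exact Or.inl ⟨h1, h2, h4⟩
        · exact Or.inr ⟨h1, by omega⟩
    have h₁ : Mod (CL c (bot + N + 1) (top + N + 1) ∪ VW A p q) {wmap (sh X ((N : ℤ) + 1)) L}
        (insert ((CL c bot (top + N) ∪ VW A p q) ∩
            (CL c (bot + N + 1) (top + N + 1) ∪ VW A p q))
          {VW A p q, CL c (bot + N + 2) (top + N + 1) ∪ VW A p q})
        {{(c, top + N + 1)}, {(c, bot + N + 1)}}
        {(wmap (sh X ((N : ℤ) + 1)) L, (c, top + ((N : ℤ) + 1)),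
          FreeGroup.map (sh X ((N : ℤ) + 1)) R₀)} := by
      have h2 := Mod.map (sh X ((N : ℤ) + 1))
        (hP' (p - ((N : ℤ) + 1)) (q - ((N : ℤ) + 1)) (by omega) (by omega))
      rw [Set.image_union, AInd_shCL, AInd_shVW, Set.image_singleton, Set.image_singleton] at h2
      have e1 : p - ((N : ℤ) + 1) + ((N : ℤ) + 1) = p := by ring
      have e2 : q - ((N : ℤ) + 1) + ((N : ℤ) + 1) = q := by ring
      have e3 : bot + ((N : ℤ) + 1) = bot + N + 1 := by ring
      have e4 : top + ((N : ℤ) + 1) = top + N + 1 := by ring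
      rw [e1, e2, e3, e4] at h2
      refine h2.mono ?_ ?_ ?_
      · rw [hS]
        rintro V (rfl | rfl | hV)
        · refine ⟨_, Or.inr (Or.inl rfl), ?_⟩
          change sh X ((N : ℤ) + 1) '' (_ ∪ _) = _
          have e5 : top - 1 + ((N : ℤ) + 1) = top + N := by ring
          rw [Set.image_union, AInd_shCL, AInd_shVW, e1, e2, e3, e5]
        · refine ⟨_, Or.inl rfl, ?_⟩
          change sh X ((N : ℤ) + 1) '' _ = _
          rw [AInd_shVW, e1, e2]
        · refine ⟨_, Or.inr (Or.inr rfl), ?_⟩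
          change sh X ((N : ℤ) + 1) '' (_ ∪ _) = _
          have hV' : V = CL c (bot + N + 2) (top + N + 1) ∪ VW A p q := hV
          have e5 : bot + 1 + ((N : ℤ) + 1) = bot + N + 2 := by ring
          rw [Set.image_union, AInd_shCL, AInd_shVW, e1, e2, e4, e5, hV']
      · rintro U (rfl | hU)
        · refine ⟨{(c, top)}, Or.inl rfl, ?_⟩
          change sh X ((N : ℤ) + 1) '' {(c, top)} = _
          rw [Set.image_singleton, ← e4]
          rfl
        · refine ⟨{(c, bot)}, Or.inr rfl, ?_⟩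
          change sh X ((N : ℤ) + 1) '' {(c, bot)} = _
          have hU' : U = {(c, bot + N + 1)} := hU
          rw [hU', Set.image_singleton, ← e3]
          rfl
      · exact subset_rfl
    have h₀ : Mod (CL c bot (top + N) ∪ VW A p q) (relK L N)
        {(CL c bot (top + N) ∪ VW A p q) ∩ (CL c (bot + N + 1) (top + N + 1) ∪ VW A p q)}
        {CL c bot (bot + N)} (certK L c top R₀ N) := by
      refine hih.mono ?_ subset_rfl subset_rfl
      intro V hV
      have hV' : V = _ := hV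
      rw [hV', hS]
      exact Or.inr rfl
    have hs0 : ∀ k : ℕ, k ≤ N → ∀ y ∈ wmap (sh X k) L,
        y.1 ∈ CL c bot (top + N) ∪ VW A p q := by
      intro k hk y hy
      rcases AInd_sh hL k y hy with h1 | h1
      · exact Or.inl ⟨h1.1, by have := h1.2.1; omega, by have := h1.2.2; omega⟩
      · exact Or.inr ⟨h1.1, by have := h1.2.1; omega, by have := h1.2.2; omega⟩
    have hs1 : ∀ y ∈ wmap (sh X ((N : ℤ) + 1)) L,
        y.1 ∈ CL c (bot + N + 1) (top + N + 1) ∪ VW A p q := by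
      intro y hy
      rcases AInd_sh hL ((N : ℤ) + 1) y hy with h1 | h1
      · exact Or.inl ⟨h1.1, by have := h1.2.1; omega, by have := h1.2.2; omega⟩
      · exact Or.inr ⟨h1.1, by have := h1.2.1; omega, by have := h1.2.2; omega⟩
    have hg := glue2 (CL c bot (top + N) ∪ VW A p q)
      (CL c (bot + N + 1) (top + N + 1) ∪ VW A p q) (relK L N) {wmap (sh X ((N : ℤ) + 1)) L}
      {VW A p q, CL c (bot + N + 2) (top + N + 1) ∪ VW A p q} (CL c bot (bot + N))
      {(c, top + N + 1)} {(c, bot + N + 1)} (certK L c top R₀ N)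
      {(wmap (sh X ((N : ℤ) + 1)) L, (c, top + ((N : ℤ) + 1)),
          FreeGroup.map (sh X ((N : ℤ) + 1)) R₀)} ?_ ?_ ?_ ?_ ?_ ?_ ?_ h₀ h₁
    · rw [hSu, AInd_relKs, hUu] at hg
      have e1 : top + ((N + 1 : ℕ) : ℤ) = top + N + 1 := by push_cast; ring
      have e2 : bot + ((N + 1 : ℕ) : ℤ) = bot + N + 1 := by push_cast; ring
      have e3 : bot + (N : ℤ) + 1 + 1 = bot + N + 2 := by ring
      rw [e1, e2, e3]
      exact hg.mono (Set.subset_insert _ _) subset_rfl (AInd_certKs L c top R₀ N)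
    · rintro L' ⟨k, hk, rfl⟩
      exact hs0 k hk
    · intro L' hL'
      have hL'' : L' = wmap (sh X ((N : ℤ) + 1)) L := hL'
      rw [hL'']
      exact hs1
    · rintro V (rfl | hV)
      · exact Set.subset_union_right
      · have hV' : V = CL c (bot + N + 2) (top + N + 1) ∪ VW A p q := hV
        rw [hV']
        rintro x (h1 | h1)
        · exact Or.inl ⟨h1.1, by have := h1.2.1; omega, h1.2.2⟩
        · exact Or.inr h1
    · rw [Set.disjoint_left]
      rintro x hx (h1 | h1)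
      · have h2 := hx.2.2
        have h3 := h1.2.1
        omega
      · have h2 : x.1 = c := hx.1
        exact hc (h2 ▸ h1.1)
    · rw [Set.disjoint_singleton_left]
      rintro (h1 | h1)
      · have h2 : top + (N : ℤ) + 1 ≤ top + N := h1.2.2
        omega
      · exact hc h1.1
    · rintro C ⟨k, hk, rfl⟩
      exact hs0 k hk
    · intro C hC
      have hC' : C = _ := hC
      rw [hC']
      exact hs1

end ORel
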