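import Pool.Agent.Lib_MP_051624_all.AHnnA
import Pool.Agent.Lib_MP_051624_all.AHnnB
import Pool.Agent.Lib_MP_051624_all.AInd

/-!
# The HNN step

Proof of `hnn`. The heights `i` of the letters `(c, i)` of `mag t L` form a nonempty finite set
(`mag_exists`); let `top`, `bot` be the maximum and the minimum, and let `β : ℕ` be a bound for the
absolute values of all the heights of `mag t L`. Let `R₀'`, `R₀''` be the elements given by
`PP (mag t L) (c, top)` and `PP (mag t L) (c, bot)`. Let `R₀ = t ^ (-top) * rhoT t R₀' * t ^ top`.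

Let `S` be finite, containing the letters of `L`, so `t, c ∈ S`. Put `A = S \ {t, c}`,
`SB p q = CL c bot top ∪ VW A p q` (finite), which contains the letters of `mag t L` for
`p ≤ -β`, `β ≤ q` (`mag_letters`). `PP (mag t L) (c, top)` and `Mod.addSol` give
`Mod (SB p q) {mag t L} {SB p q \ {(c, top)}} {{(c, top)}} {(mag t L, (c, top), R₀')}`, and
`PP (mag t L) (c, bot)` gives the same for `bot`; by `Mod.prod` and `Mod.mono` the hypothesis `hP`
of `chain` is satisfied (`lo = -β`, `hi = β`).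

Let `E`, `ε > 0` be given. For every `e ∈ E` with `e ∈ Wd S` choose `w_e`, `d_e` (`rho_decomp2`)
with a common bound `a`, `a ≥ β` (increase the set: `wd_mono`). Choose `N ≥ 6 a` with
`(8 a + 1) / M ≤ ε / 2` where `M = top + N - bot + 1` (`M ≥ N + 1`), and let `δ = ε / 2`. Let `E'` be
the finite set of the `map (sh X k) w_e`, `2 a ≤ k ≤ N - 2 a`. `chain` for `N`, `p = -a`, `q = a + N`
gives a model `Z, θ` for `E'` and `δ`; take `Z × ZMod M` with `cylP t bot θ M`.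
* Relator: `hnn_rel`. No `Us`. Certificate: `hnn_cert`.
* Window `S \ {c}`: for `e ∈ E`, `e ∈ Wd S`, not in `Wd (S \ {c}) ⊔ normalClosure {mk L}`
  (`Set.image_singleton`), use `hnn_win`; the hypothesis `hs` is the window `VW A (-a) (a + N)` of
  the model: `map (sh X k) w_e` is a word in the letters of
  `CL c bot (top + N) ∪ VW A (-a) (a + N)` (its letters `(x, i + k)`, `|i| ≤ a`, `x ∈ S`, `x ≠ t`),
  and it is not in `Wd (VW A (-a) (a + N)) ⊔ normalClosure (mk '' relK (mag t L) N)` by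
  `nonmem_shift`.
-/

open Equiv

namespace ORel

private theorem AHnn_CL_fin {X : Type} (c : X) (a b : ℤ) : (CL c a b).Finite := by
  refine (((Set.finite_singleton c).prod (Set.finite_Icc a b))).subset ?_
  rintro ⟨x, i⟩ ⟨h1, h2, h3⟩
  exact ⟨h1, h2, h3⟩

private theorem AHnn_VW_fin {X : Type} {A : Set X} (hA : A.Finite) (p q : ℤ) :
    (VW A p q).Finite := by
  refine ((hA.prod (Set.finite_Icc p q))).subset ?_
  rintro ⟨x, i⟩ ⟨h1, h2, h3⟩
  exact ⟨h1, h2, h3⟩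

/-- The extreme heights of the letters `c`, and a bound for all the heights. -/
private theorem AHnn_heights {X : Type} (c : X) (Lm : List ((X × ℤ) × Bool))
    (h : ∃ y ∈ Lm, y.1.1 = c) :
    ∃ (top bot : ℤ) (b1 b2 : Bool) (β : ℕ), ((c, top), b1) ∈ Lm ∧ ((c, bot), b2) ∈ Lm ∧
      (∀ y ∈ Lm, y.1.1 = c → bot ≤ y.1.2 ∧ y.1.2 ≤ top) ∧
      ∀ y ∈ Lm, -(β : ℤ) ≤ y.1.2 ∧ y.1.2 ≤ β := by
  classical
  obtain ⟨y₀, h1, h2⟩ := h
  let F : Finset ((X × ℤ) × Bool) := Lm.toFinset.filter fun y => y.1.1 = c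
  have hF : ∀ y, y ∈ F ↔ y ∈ Lm ∧ y.1.1 = c := fun y => by simp [F]
  have hne : F.Nonempty := ⟨y₀, (hF y₀).2 ⟨h1, h2⟩⟩
  obtain ⟨⟨⟨ct, top⟩, b1⟩, ht1, ht2⟩ := F.exists_max_image (fun y => y.1.2) hne
  obtain ⟨⟨⟨cb, bot⟩, b2⟩, hb1, hb2⟩ := F.exists_min_image (fun y => y.1.2) hne
  have ht3 := (hF _).1 ht1
  have hb3 := (hF _).1 hb1
  have ht4 : ct = c := ht3.2
  have hb4 : cb = c := hb3.2
  refine ⟨top, bot, b1, b2, Lm.toFinset.sup fun y => y.1.2.natAbs, ht4 ▸ ht3.1, hb4 ▸ hb3.1,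
    fun y hy hc => ⟨hb2 y ((hF y).2 ⟨hy, hc⟩), ht2 y ((hF y).2 ⟨hy, hc⟩)⟩, fun y hy => ?_⟩
  have h3 : y.1.2.natAbs ≤ Lm.toFinset.sup fun y => y.1.2.natAbs :=
    Finset.le_sup (f := fun y : (X × ℤ) × Bool => y.1.2.natAbs) (List.mem_toFinset.2 hy)
  constructor <;> omega

/-- The hypothesis of `chain`. -/
private theorem AHnn_hP {X : Type} (c : X) (A : Set X) (hA : A.Finite)
    (Lm : List ((X × ℤ) × Bool)) (bot top lo hi : ℤ)
    (hL : ∀ y ∈ Lm, y.1 ∈ CL c bot top ∪ VW A lo hi) (R₀' R₀'' : FreeGroup (X × ℤ))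
    (ht : ∀ S' : Set (X × ℤ), S'.Finite → (∅ : Set (X × ℤ)) ⊆ S' → (∀ y ∈ Lm, y.1 ∈ S') →
      Mod S' {Lm} {S' \ {(c, top)}} ∅ {(Lm, (c, top), R₀')})
    (hb : ∀ S' : Set (X × ℤ), S'.Finite → (∅ : Set (X × ℤ)) ⊆ S' → (∀ y ∈ Lm, y.1 ∈ S') →
      Mod S' {Lm} {S' \ {(c, bot)}} ∅ {(Lm, (c, bot), R₀'')})
    (p q : ℤ) (hp : p ≤ lo) (hq : hi ≤ q) :
    Mod (CL c bot top ∪ VW A p q) {Lm}
      {(CL c bot top ∪ VW A p q) \ {(c, top)}, (CL c bot top ∪ VW A p q) \ {(c, bot)}}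
      {{(c, top)}, {(c, bot)}} {(Lm, (c, top), R₀')} := by
  have hfin : (CL c bot top ∪ VW A p q).Finite := (AHnn_CL_fin c bot top).union (AHnn_VW_fin hA p q)
  have hL' : ∀ y ∈ Lm, y.1 ∈ CL c bot top ∪ VW A p q := by
    intro y hy
    rcases hL y hy with h | h
    · exact Or.inl h
    · exact Or.inr ⟨h.1, hp.trans h.2.1, h.2.2.trans hq⟩
  have h1 := (ht _ hfin (Set.empty_subset _) hL').addSol hL' (Set.mem_singleton _)
  have h2 := (hb _ hfin (Set.empty_subset _) hL').addSol hL' (Set.mem_singleton _)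
  refine (h1.prod h2).mono ?_ ?_ Set.subset_union_left
  · rintro V (rfl | rfl)
    · exact Or.inl rfl
    · exact Or.inr rfl
  · rintro U (rfl | rfl)
    · exact Or.inl (Or.inl rfl)
    · exact Or.inr (Or.inl rfl)

/-- Common decompositions. -/
private theorem AHnn_decomp {X : Type} (t : X) (S : Set X) (E : Finset (FreeGroup X)) (β : ℕ) :
    ∃ (w : FreeGroup X → FreeGroup (X × ℤ)) (d : FreeGroup X → ℤ) (a : ℕ), β ≤ a ∧
      ∀ e ∈ E, e ∈ Wd S → e = rhoT t (w e) * FreeGroup.of t ^ d e ∧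
        w e ∈ Wd {y : X × ℤ | y.1 ∈ S ∧ y.1 ≠ t ∧ -(a : ℤ) ≤ y.2 ∧ y.2 ≤ a} ∧ |d e| ≤ a := by
  choose! w d a h using fun (e : FreeGroup X) (he : e ∈ Wd S) => rho_decomp2 t S e he
  refine ⟨w, d, max β (E.sup a), le_max_left _ _, fun e he heS => ?_⟩
  obtain ⟨h1, h2, h3⟩ := h e heS
  have h4 : a e ≤ max β (E.sup a) := (Finset.le_sup he).trans (le_max_right _ _)
  have h5 : ((a e : ℕ) : ℤ) ≤ ((max β (E.sup a) : ℕ) : ℤ) := by exact_mod_cast h4
  refine ⟨h1, wd_mono ?_ h2, h3.trans h5⟩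
  rintro y ⟨h6, h7, h8, h9⟩
  exact ⟨h6, h7, by linarith, h9.trans h5⟩

private theorem AHnn_eps (a : ℕ) (ε : ℝ) (hε : 0 < ε) :
    ∃ N : ℕ, 6 * a ≤ N ∧ ∀ M : ℕ, N + 1 ≤ M → (8 * a + 1 : ℝ) / M ≤ ε / 2 := by
  obtain ⟨n, hn⟩ := exists_nat_ge ((8 * a + 1 : ℝ) * 2 / ε)
  refine ⟨max (6 * a) n, le_max_left _ _, fun M hM => ?_⟩
  have h1 : n ≤ M := (le_max_right (6 * a) n).trans (by omega)
  have h2 : (n : ℝ) ≤ M := by exact_mod_cast h1
  have h3 : (0 : ℝ) < M := by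
    have h4 : 0 < M := by omega
    exact_mod_cast h4
  rw [div_le_iff₀ h3]
  have h5 : (8 * a + 1 : ℝ) * 2 / ε ≤ M := hn.trans h2
  rw [div_le_iff₀ hε] at h5
  linarith

theorem hnn {X : Type} (t c : X) (htc : t ≠ c) (L : List (X × Bool))
    (hσ : wsum (dl t) L = 0) (htL : ∃ y ∈ L, y.1 = t) (hcL : ∃ y ∈ L, y.1 = c)
    (hP : ∀ y ∈ mag t L, y.1.1 = c → PP (mag t L) y.1) : PP L c := by
  classical
  have htS' : ∀ S : Set X, (∀ y ∈ L, y.1 ∈ S) → t ∈ S := by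
    intro S hS
    obtain ⟨y, hy, rfl⟩ := htL
    exact hS y hy
  have hex : ∃ y ∈ mag t L, y.1.1 = c := by
    obtain ⟨⟨c', b⟩, hy, hc'⟩ := hcL
    have hc'' : c' = c := hc'
    subst hc''
    obtain ⟨i, hi⟩ := mag_exists t c' htc.symm b L hy
    exact ⟨((c', i), b), hi, rfl⟩
  obtain ⟨top, bot, b1, b2, β, ht1, hb1, hc, hβ⟩ := AHnn_heights c (mag t L) hex
  obtain ⟨R₀', hR'⟩ := hP _ ht1 rfl
  obtain ⟨R₀'', hR''⟩ := hP _ hb1 rfl
  simp only at hR' hR''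
  have hbt : bot ≤ top := (hc _ ht1 rfl).1
  have htopβ : top ≤ (β : ℤ) := (hβ _ ht1).2
  have hbotβ : -(β : ℤ) ≤ bot := (hβ _ hb1).1
  refine ⟨FreeGroup.of t ^ (-top) * rhoT t R₀' * FreeGroup.of t ^ top, fun S hSf _ hS => ?_⟩
  have htS : t ∈ S := htS' S hS
  have hcA : c ∉ S \ {t, c} := fun h => h.2 (Or.inr rfl)
  have hAf : (S \ {t, c}).Finite := hSf.subset Set.sdiff_subset
  have hLm : ∀ y ∈ mag t L, y.1 ∈ CL c bot top ∪ VW (S \ {t, c}) (-(β : ℤ)) β := by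
    intro y hy
    by_cases h1 : y.1.1 = c
    · exact Or.inl ⟨h1, (hc y hy h1).1, (hc y hy h1).2⟩
    · have h2 := mag_letters t L y hy
      refine Or.inr ⟨⟨hS _ h2.1, ?_⟩, (hβ y hy).1, (hβ y hy).2⟩
      rintro (h3 | h3)
      · exact h2.2 h3
      · exact h1 h3
  intro E ε hε
  obtain ⟨w, d, a, ha, hwd⟩ := AHnn_decomp t S E β
  have ha' : (β : ℤ) ≤ (a : ℤ) := by exact_mod_cast ha
  obtain ⟨N, hN, hNε⟩ := AHnn_eps a ε hε
  obtain ⟨m, hm⟩ : ∃ m : ℕ, (m : ℤ) = top - bot := ⟨(top - bot).toNat, by omega⟩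
  have hM : (((m + N + 1 : ℕ) : ℕ) : ℤ) = top + N - bot + 1 := by
    push_cast
    omega
  have hMε : (8 * a + 1 : ℝ) / ((m + N + 1 : ℕ) : ℝ) ≤ ε / 2 := hNε (m + N + 1) (by omega)
  have hε2 : ε / 2 + (8 * a + 1 : ℝ) / ((m + N + 1 : ℕ) : ℝ) ≤ ε := by linarith
  obtain ⟨Z, hZf, hZn, θ, h1, h2, -, h4⟩ :=
    chain (S \ {t, c}) hAf c hcA (mag t L) bot top (-(β : ℤ)) β hbt hLm R₀'
      (AHnn_hP c (S \ {t, c}) hAf (mag t L) bot top (-(β : ℤ)) β hLm R₀' R₀'' hR' hR'')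
      N (-(a : ℤ)) (a + N) (by omega) (by omega)
      (E.biUnion fun e => (Finset.Icc (2 * a : ℤ) (N - 2 * a)).image fun k =>
        FreeGroup.map (sh X k) (w e)) (ε / 2) (by linarith)
  have : NeZero (m + N + 1) := ⟨by omega⟩
  have hbota : -(a : ℤ) ≤ bot := by omega
  have htopa : top ≤ (a : ℤ) := by omega
  have hLa : ∀ y ∈ mag t L, -(a : ℤ) ≤ y.1.2 ∧ y.1.2 ≤ a := by
    intro y hy
    have h5 := hβ y hy
    constructor <;> omega
  refine ⟨Z × ZMod (m + N + 1), inferInstance, inferInstance, cylP t bot θ (m + N + 1),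
    ?_, ?_, fun U hU => absurd hU (Set.notMem_empty U), ?_⟩
  · rintro L' rfl
    exact (hnn_rel t L' hσ bot top a N hbt hbota htopa hN (m + N + 1) hM hLa θ (ε / 2)
      (by linarith) h1).mono (fun _ h => h) hε2
  · rintro V rfl e he heS hne
    obtain ⟨h5, h6, h7⟩ := hwd e he heS
    rw [Set.image_singleton] at hne
    have h8 := hnn_win t c S bot top a N hbt hbota htopa hN (m + N + 1) hM θ (ε / 2)
      (by linarith) (w e) (d e) h6 h7 ?_
    · rw [← h5] at h8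
      exact h8.mono (fun _ h => h) hε2
    · intro k hk1 hk2
      refine h2 _ (Set.mem_insert _ _) _ ?_ ?_ ?_
      · rw [Finset.mem_biUnion]
        exact ⟨e, he, Finset.mem_image.2 ⟨k, Finset.mem_Icc.2 ⟨hk1, hk2⟩, rfl⟩⟩
      · have h9 : FreeGroup.map (sh X k) (w e) ∈ Wd (sh X k ''
            {y : X × ℤ | y.1 ∈ S ∧ y.1 ≠ t ∧ -(a : ℤ) ≤ y.2 ∧ y.2 ≤ a}) := by
          rw [← map_wd]
          exact Subgroup.mem_map_of_mem _ h6
        refine wd_mono ?_ h9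
        rintro _ ⟨⟨x, i⟩, ⟨h10, h11, h12, h13⟩, rfl⟩
        simp only at h10 h11 h12 h13
        have h14 : sh X k (x, i) = (x, i + k) := rfl
        rw [h14]
        by_cases h15 : x = c
        · refine Or.inl ⟨h15, ?_, ?_⟩
          · change bot ≤ i + k
            omega
          · change i + k ≤ top + N
            omega
        · refine Or.inr ⟨⟨h10, ?_⟩, ?_, ?_⟩
          · rintro (h16 | h16)
            · exact h11 h16
            · exact h15 h16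
          · change -(a : ℤ) ≤ i + k
            omega
          · change i + k ≤ a + N
            omega
      · refine nonmem_shift t S c htS htc L hσ N (-(a : ℤ)) (a + N) k (d e) (w e) ?_
        rw [← h5]
        exact hne
  · rintro C rfl
    exact (hnn_cert t c htc L hσ bot top a N hbt hbota htopa hN (m + N + 1) hM hLa
      (fun y hy h => hc y hy h) R₀' θ (ε / 2) (by linarith) h4).mono hε2

end ORel
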