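import Pool.Agent.Lib_MP_051624_all.AMag
import Pool.Agent.Lib_MP_051624_all.ACyl

/-!
# The cylinder: the relator and the windows

`M = top + N - bot + 1` levels `bot, …, top + N`, all heights of letters are in `[-a, a]`.

`hnn_rel`: use `small_cyl` with `i₀ = 2 a`, `i₁ = N - 2 a`. On such a level `i`,
`mk L = rhoT t (mk (mag t L))` (`mag_rho`, `hσ`), `mk (mag t L) ∈ Wd {y | y.1 ≠ t, -a ≤ y.2 ≤ a}`
(`mk_mem_wd`, `mag_letters`, `hL`), so by `cylP_rho` (`bot ≤ a ≤ -a + i`,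
`a + i < N - a ≤ bot + M`) `mk L` acts on the level `i` as
`θ (map (sh X i) (mk (mag t L))) = θ (mk (wmap (sh X i) (mag t L)))`, a relator of `relK (mag t L) N`
(`i = ((i.toNat : ℕ) : ℤ)`). The number of other levels is
`M - (N - 4 a) = top - bot + 1 + 4 a ≤ 8 a + 1`.

`hnn_win`: `small_cyl` with `i₀ = 3 a`, `i₁ = N - 3 a`. On the level `i` the element
`rhoT t w * t ^ d` acts as `(z, i) ↦ (z, i - d) ↦ (θ (map (sh X k) w) z, k)`, `k = i - d`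
(`cylP_t`, `cylP_rho`), `2 a ≤ k ≤ N - 2 a`. If this is `cylP t bot θ M d' (z, i)` with
`d' ∈ Wd (S \ {c})`, then by `cylP_orbit` (`W = S \ {c}`, `W \ {t} = S \ {t, c}`, `p' = -a ≤ bot`,
`q' = a + N`, `bot + M = top + N + 1 ≤ a + N + 1`) there is `d'' ∈ Wd (VW (S \ {t, c}) (-a) (a + N))`
with `θ d'' z = θ (map (sh X k) w) z`; now use `hs`. The other levels are
`M - (N - 6 a) ≤ 8 a + 1` many.
-/

open Equiv

namespace ORel

theorem hnn_rel {X Z : Type} [Finite Z] (t : X) (L : List (X × Bool))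
    (hσ : wsum (dl t) L = 0) (bot top : ℤ) (a N : ℕ) (hbt : bot ≤ top) (hbot : -(a : ℤ) ≤ bot)
    (htop : top ≤ a) (hN : 6 * a ≤ N) (M : ℕ) (hM : (M : ℤ) = top + N - bot + 1)
    (hL : ∀ y ∈ mag t L, -(a : ℤ) ≤ y.1.2 ∧ y.1.2 ≤ a)
    (θ : FreeGroup (X × ℤ) →* Perm Z) (δ : ℝ) (hδ : 0 ≤ δ)
    (hr : ∀ L' ∈ relK (mag t L) N, Small (fun z => θ (FreeGroup.mk L') z ≠ z) δ) :
    Small (fun ω => cylP t bot θ M (FreeGroup.mk L) ω ≠ ω) (δ + (8 * a + 1 : ℝ) / M) := by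
  have hM0 : 0 < M := by
    have h1 : (0 : ℤ) < (M : ℤ) := by rw [hM]; omega
    exact_mod_cast h1
  have hMr : (0 : ℝ) < (M : ℝ) := by exact_mod_cast hM0
  have hne : NeZero M := ⟨hM0.ne'⟩
  have hN' : (6 : ℤ) * a ≤ N := by exact_mod_cast hN
  have hmain := small_cyl (Z := Z) M hM0 (fun ω => cylP t bot θ M (FreeGroup.mk L) ω ≠ ω) bot (2 * a) (N - 2 * a)
    (by omega) (by omega) (by rw [hM]; omega) δ hδ (by
      intro i hi0 hi1
      have hw : FreeGroup.mk (mag t L) ∈ Wd {y : X × ℤ | y.1 ≠ t ∧ -(a : ℤ) ≤ y.2 ∧ y.2 ≤ a} := by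
        refine mk_mem_wd _ fun y hy => ?_
        exact ⟨(mag_letters t L y hy).2, hL y hy⟩
      have hrel : wmap (sh X i) (mag t L) ∈ relK (mag t L) N := by
        refine ⟨i.toNat, ?_, ?_⟩
        · omega
        · rw [Int.toNat_of_nonneg (by omega)]
      have hmk : FreeGroup.map (sh X i) (FreeGroup.mk (mag t L)) = FreeGroup.mk (wmap (sh X i) (mag t L)) := by
        rw [FreeGroup.map.mk]
        rfl
      refine (hr _ hrel).mono ?_ le_rfl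
      intro z hz hz'
      apply hz
      rw [mag_rho t L, hσ, zpow_zero, one_mul,
        cylP_rho t bot θ M hM0 (-(a : ℤ)) a i (by omega) (by rw [hM]; omega) _ hw z, hmk, hz'])
  refine hmain.mono (fun ω h => h) ?_
  have h1 : ((M : ℝ) - (((N : ℤ) - 2 * a - 2 * a : ℤ) : ℝ)) ≤ 8 * a + 1 := by
    have h2 : (M : ℤ) - ((N : ℤ) - 2 * a - 2 * a) ≤ 8 * a + 1 := by rw [hM]; omega
    have h3 : (((M : ℤ) - ((N : ℤ) - 2 * a - 2 * a) : ℤ) : ℝ) ≤ ((8 * a + 1 : ℤ) : ℝ) := by exact_mod_cast h2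
    push_cast at h3 ⊢
    linarith
  gcongr

theorem hnn_win {X Z : Type} [Finite Z] (t c : X) (S : Set X)
    (bot top : ℤ) (a N : ℕ) (hbt : bot ≤ top) (hbot : -(a : ℤ) ≤ bot)
    (htop : top ≤ a) (hN : 6 * a ≤ N) (M : ℕ) (hM : (M : ℤ) = top + N - bot + 1)
    (θ : FreeGroup (X × ℤ) →* Perm Z) (δ : ℝ) (hδ : 0 ≤ δ) (w : FreeGroup (X × ℤ)) (d : ℤ)
    (hw : w ∈ Wd {y : X × ℤ | y.1 ∈ S ∧ y.1 ≠ t ∧ -(a : ℤ) ≤ y.2 ∧ y.2 ≤ a}) (hd : |d| ≤ a)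
    (hs : ∀ k : ℤ, 2 * a ≤ k → k ≤ N - 2 * a →
      Small (fun z => ∃ d' ∈ Wd (VW (S \ {t, c}) (-(a : ℤ)) (a + N)),
        θ d' z = θ (FreeGroup.map (sh X k) w) z) δ) :
    Small (fun ω => ∃ d' ∈ Wd (S \ {c}),
      cylP t bot θ M d' ω = cylP t bot θ M (rhoT t w * FreeGroup.of t ^ d) ω)
      (δ + (8 * a + 1 : ℝ) / M) := by
  have hM0 : 0 < M := by
    have h1 : (0 : ℤ) < (M : ℤ) := by rw [hM]; omega
    exact_mod_cast h1
  have hMr : (0 : ℝ) < (M : ℝ) := by exact_mod_cast hM0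
  have hne : NeZero M := ⟨hM0.ne'⟩
  have hN' : (6 : ℤ) * a ≤ N := by exact_mod_cast hN
  obtain ⟨hd1, hd2⟩ := abs_le.1 hd
  have hmain := small_cyl (Z := Z) M hM0 (fun ω => ∃ d' ∈ Wd (S \ {c}),
      cylP t bot θ M d' ω = cylP t bot θ M (rhoT t w * FreeGroup.of t ^ d) ω) bot (3 * a) (N - 3 * a)
    (by omega) (by omega) (by rw [hM]; omega) δ hδ (by
      intro i hi0 hi1
      have hw' : w ∈ Wd {y : X × ℤ | y.1 ≠ t ∧ -(a : ℤ) ≤ y.2 ∧ y.2 ≤ a} :=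
        wd_mono (V := {y : X × ℤ | y.1 ∈ S ∧ y.1 ≠ t ∧ -(a : ℤ) ≤ y.2 ∧ y.2 ≤ a})
          (W := {y : X × ℤ | y.1 ≠ t ∧ -(a : ℤ) ≤ y.2 ∧ y.2 ≤ a})
          (fun y hy => And.intro hy.2.1 hy.2.2) hw
      refine (hs (i - d) (by omega) (by omega)).mono ?_ le_rfl
      rintro z ⟨d', hd', he⟩
      have hset : (S \ {c}) \ {t} = S \ {t, c} := by
        ext x
        constructor
        · rintro ⟨⟨h1, h2⟩, h3⟩
          exact ⟨h1, fun h4 => h4.elim h3 h2⟩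
        · rintro ⟨h1, h2⟩
          exact ⟨⟨h1, fun h3 => h2 (Or.inr h3)⟩, fun h3 => h2 (Or.inl h3)⟩
      have hlev : ((i - bot : ℤ) : ZMod M) - (d : ZMod M) = ((i - d - bot : ℤ) : ZMod M) := by
        push_cast
        ring
      have hact : cylP t bot θ M (rhoT t w * FreeGroup.of t ^ d) (z, ((i - bot : ℤ) : ZMod M)) =
          (θ (FreeGroup.map (sh X (i - d)) w) z, ((i - d - bot : ℤ) : ZMod M)) := by
        rw [map_mul, Equiv.Perm.mul_apply, cylP_t, hlev,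
          cylP_rho t bot θ M hM0 (-(a : ℤ)) a (i - d) (by omega) (by rw [hM]; omega) w hw' z]
      obtain ⟨d'', hd'', he''⟩ := cylP_orbit t bot θ M hM0 (S \ {c}) (-(a : ℤ)) (a + N) hbot
        (by rw [hM]; omega) d' hd' z ((i - bot : ℤ) : ZMod M)
      rw [hset] at hd''
      refine ⟨d'', hd'', ?_⟩
      rw [← he'', he, hact])
  refine hmain.mono (fun ω h => h) ?_
  have h1 : ((M : ℝ) - (((N : ℤ) - 3 * a - 3 * a : ℤ) : ℝ)) ≤ 8 * a + 1 := by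
    have h2 : (M : ℤ) - ((N : ℤ) - 3 * a - 3 * a) ≤ 8 * a + 1 := by rw [hM]; omega
    have h3 : (((M : ℤ) - ((N : ℤ) - 3 * a - 3 * a) : ℤ) : ℝ) ≤ ((8 * a + 1 : ℤ) : ℝ) := by exact_mod_cast h2
    push_cast at h3 ⊢
    linarith
  gcongr

end ORel
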