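import Pool.Agent.Lib_MP_051624_all.ADefs

/-!
# Magnus rewriting

`mag_rho`: induction on `T`. For `y = (t, true)`: `wsum (dl t) (y :: T) = 1 + wsum (dl t) T`,
`mag t (y :: T) = mag t T`, `mk (y :: T) = of t * mk T`. For `y = (t, false)` similarly with `-1`.
For `y = (x, b)`, `x ≠ t`, with `s = wsum (dl t) T`:
`rhoT t (mk (((x, -s), b) :: mag t T)) = t ^ (-s) * x^{±1} * t ^ s * rhoT t (mk (mag t T))`, so that
`t ^ s * (this) = x^{±1} * t ^ s * rhoT t (mk (mag t T)) = x^{±1} * mk T`.

`mag_bpt`: for `b = true` it is `mag_rho` for `T`; for `b = false` it is `mag_rho` for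
`(x, false) :: T` (`wsum (dl t) ((x, false) :: T) = wsum (dl t) T` as `x ≠ t`).

`mag_suffix`: `mag t (L₁ ++ T) = (something) ++ mag t T` by induction on `L₁`.

`mag_suffix_conv`: induction on `L`.

`mag_inj`: if the suffixes `(x, b) :: T` and `(x, b') :: T'` of `L` are different, one is longer, say
`T = U ++ (x, b') :: T'`, and then `mag t T` is longer than `mag t T'` since `x ≠ t`.

`mag_letters`: the letters of `mag t L`.

`rhoT_sh`: check on letters. `rho_decomp2`: induction on the word `e ∈ Wd S`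
(`Subgroup.closure_induction`; the set of the elements `rhoT t w * t ^ d`, with `w ∈ Wd {y | y.1 ∈ S,
y.1 ≠ t, |y.2| ≤ a}` for some `a`, is closed under products and inverses:
`rhoT t w * t ^ d * (rhoT t w' * t ^ d') = rhoT t (w * map (sh X d) w') * t ^ (d + d')`).
-/

open Equiv

namespace ORel

private theorem AMag_cons {X : Type} (y : X × Bool) (T : List (X × Bool)) :
    (FreeGroup.mk (y :: T) : FreeGroup X) = FreeGroup.mk [y] * FreeGroup.mk T := by
  rw [FreeGroup.mul_mk]
  rfl

private theorem AMag_rho_of {X : Type} (t : X) (x : X × ℤ) : rhoT t (FreeGroup.of x) =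
    FreeGroup.of t ^ x.2 * FreeGroup.of x.1 * (FreeGroup.of t ^ x.2)⁻¹ := by
  simp [rhoT]

private theorem AMag_rho_single {X : Type} (t x : X) (i : ℤ) (b : Bool) :
    rhoT t (FreeGroup.mk [((x, i), b)]) =
      FreeGroup.of t ^ i * FreeGroup.mk [(x, b)] * (FreeGroup.of t ^ i)⁻¹ := by
  cases b
  · have h1 : (FreeGroup.mk [((x, i), false)] : FreeGroup (X × ℤ)) = (FreeGroup.of (x, i))⁻¹ := rfl
    have h2 : (FreeGroup.mk [(x, false)] : FreeGroup X) = (FreeGroup.of x)⁻¹ := rfl
    rw [h1, h2, map_inv, AMag_rho_of]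
    group
  · have h1 : (FreeGroup.mk [((x, i), true)] : FreeGroup (X × ℤ)) = FreeGroup.of (x, i) := rfl
    have h2 : (FreeGroup.mk [(x, true)] : FreeGroup X) = FreeGroup.of x := rfl
    rw [h1, h2, AMag_rho_of]

private theorem AMag_mag_eq {X : Type} (t : X) (b : Bool) (T : List (X × Bool)) :
    mag t ((t, b) :: T) = mag t T := by
  simp [mag]

private theorem AMag_mag_ne {X : Type} (t x : X) (hx : x ≠ t) (b : Bool) (T : List (X × Bool)) :
    mag t ((x, b) :: T) = ((x, -wsum (dl t) T), b) :: mag t T := by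
  simp [mag, hx]

private theorem AMag_wsum_ne {X : Type} (t x : X) (hx : x ≠ t) (b : Bool) (T : List (X × Bool)) :
    wsum (dl t) ((x, b) :: T) = wsum (dl t) T := by
  simp [wsum, dl, hx]

private theorem AMag_wsum_true {X : Type} (t : X) (T : List (X × Bool)) :
    wsum (dl t) ((t, true) :: T) = 1 + wsum (dl t) T := by
  simp [wsum, dl]

private theorem AMag_wsum_false {X : Type} (t : X) (T : List (X × Bool)) :
    wsum (dl t) ((t, false) :: T) = -1 + wsum (dl t) T := by
  simp [wsum, dl]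

theorem mag_rho {X : Type} (t : X) (T : List (X × Bool)) :
    FreeGroup.mk T =
      FreeGroup.of t ^ wsum (dl t) T * rhoT t (FreeGroup.mk (mag t T)) := by
  induction T with
  | nil => simp [mag, wsum, ← FreeGroup.one_eq_mk]
  | cons y T ih =>
    rcases y with ⟨x, b⟩
    rw [AMag_cons]
    by_cases hx : x = t
    · subst hx
      rw [AMag_mag_eq]
      cases b
      · have h2 : (FreeGroup.mk [(x, false)] : FreeGroup X) = (FreeGroup.of x)⁻¹ := rfl
        rw [AMag_wsum_false, h2, ih, zpow_add, zpow_neg_one, mul_assoc]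
      · have h2 : (FreeGroup.mk [(x, true)] : FreeGroup X) = FreeGroup.of x := rfl
        rw [AMag_wsum_true, h2, ih, zpow_add, zpow_one, mul_assoc]
    · rw [AMag_mag_ne t x hx, AMag_wsum_ne t x hx, AMag_cons ((x, -wsum (dl t) T), b), map_mul,
        AMag_rho_single, ih]
      group

theorem mag_bpt {X : Type} (t x : X) (hx : x ≠ t) (b : Bool) (T : List (X × Bool)) :
    bpt (x, b) T = FreeGroup.of t ^ wsum (dl t) T *
      rhoT t (bpt ((x, -wsum (dl t) T), b) (mag t T)) := by
  cases b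
  · have h1 := mag_rho t ((x, false) :: T)
    rw [AMag_wsum_ne t x hx, AMag_mag_ne t x hx] at h1
    simpa [bpt] using h1
  · have h1 := mag_rho t T
    simpa [bpt] using h1

theorem mag_suffix {X : Type} (t x : X) (hx : x ≠ t) (b : Bool) (T L : List (X × Bool))
    (h : ((x, b) :: T) <:+ L) :
    (((x, -wsum (dl t) T), b) :: mag t T) <:+ mag t L := by
  induction L with
  | nil =>
    exfalso
    have := h.length_le
    simp at this
  | cons a L ih =>
    rcases List.suffix_cons_iff.1 h with h1 | h1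
    · rw [← h1, AMag_mag_ne t x hx]
    · have h2 := ih h1
      rcases a with ⟨a, b'⟩
      by_cases ha : a = t
      · subst ha
        rw [AMag_mag_eq]
        exact h2
      · rw [AMag_mag_ne t a ha]
        exact h2.trans (List.suffix_cons _ _)

theorem mag_suffix_conv {X : Type} (t : X) (y : (X × ℤ) × Bool) (T' : List ((X × ℤ) × Bool))
    (L : List (X × Bool)) (h : (y :: T') <:+ mag t L) :
    ∃ T : List (X × Bool), ((y.1.1, y.2) :: T) <:+ L ∧ y.1.1 ≠ t ∧ mag t T = T' ∧
      y.1.2 = -wsum (dl t) T := by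
  induction L with
  | nil =>
    exfalso
    have := h.length_le
    simp [mag] at this
  | cons a L ih =>
    rcases a with ⟨a, b'⟩
    by_cases ha : a = t
    · subst ha
      rw [AMag_mag_eq] at h
      obtain ⟨T, h1, h2⟩ := ih h
      exact ⟨T, h1.trans (List.suffix_cons _ _), h2⟩
    · rw [AMag_mag_ne t a ha] at h
      rcases List.suffix_cons_iff.1 h with h1 | h1
      · injection h1 with h2 h3
        subst h2
        exact ⟨L, List.suffix_refl _, ha, h3.symm, rfl⟩
      · obtain ⟨T, h1, h2⟩ := ih h1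
        exact ⟨T, h1.trans (List.suffix_cons _ _), h2⟩

theorem mag_inj {X : Type} (t x : X) (hx : x ≠ t) (b b' : Bool) (T T' L : List (X × Bool))
    (h : ((x, b) :: T) <:+ L) (h' : ((x, b') :: T') <:+ L) (he : mag t T = mag t T') :
    T = T' := by
  have key : ∀ (b b' : Bool) (T T' : List (X × Bool)), ((x, b') :: T') <:+ ((x, b) :: T) →
      mag t T = mag t T' → T = T' := by
    intro b b' T T' h1 h2
    rcases List.suffix_cons_iff.1 h1 with h3 | h3
    · injection h3 with h4 h5
      exact h5.symm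
    · exfalso
      have h4 := (mag_suffix t x hx b' T' T h3).length_le
      rw [h2, List.length_cons] at h4
      omega
  rcases List.suffix_or_suffix_of_suffix h h' with h1 | h1
  · exact (key b' b T' T h1 he.symm).symm
  · exact key b b' T T' h1 he

theorem mag_letters {X : Type} (t : X) (L : List (X × Bool)) (y : (X × ℤ) × Bool)
    (hy : y ∈ mag t L) : (y.1.1, y.2) ∈ L ∧ y.1.1 ≠ t := by
  induction L with
  | nil => simp [mag] at hy
  | cons a L ih =>
    rcases a with ⟨a, b'⟩
    by_cases ha : a = t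
    · subst ha
      rw [AMag_mag_eq] at hy
      exact ⟨List.mem_cons_of_mem _ (ih hy).1, (ih hy).2⟩
    · rw [AMag_mag_ne t a ha] at hy
      rcases List.mem_cons.1 hy with h1 | h1
      · subst h1
        exact ⟨List.mem_cons_self, ha⟩
      · exact ⟨List.mem_cons_of_mem _ (ih h1).1, (ih h1).2⟩

theorem mag_exists {X : Type} (t x : X) (hx : x ≠ t) (b : Bool) (L : List (X × Bool))
    (h : (x, b) ∈ L) : ∃ i : ℤ, ((x, i), b) ∈ mag t L := by
  induction L with
  | nil => simp at h
  | cons a L ih =>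
    rcases a with ⟨a, b'⟩
    by_cases ha : a = t
    · subst ha
      rw [AMag_mag_eq]
      rcases List.mem_cons.1 h with h1 | h1
      · exact absurd (congrArg Prod.fst h1) hx
      · exact ih h1
    · rw [AMag_mag_ne t a ha]
      rcases List.mem_cons.1 h with h1 | h1
      · injection h1 with h2 h3
        subst h2
        subst h3
        exact ⟨_, List.mem_cons_self⟩
      · obtain ⟨i, hi⟩ := ih h1
        exact ⟨i, List.mem_cons_of_mem _ hi⟩

theorem rhoT_sh {X : Type} (t : X) (k : ℤ) (w : FreeGroup (X × ℤ)) :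
    rhoT t (FreeGroup.map (sh X k) w) =
      FreeGroup.of t ^ k * rhoT t w * (FreeGroup.of t ^ k)⁻¹ := by
  have h : (rhoT t).comp (FreeGroup.map (sh X k)) =
      (MulAut.conj (FreeGroup.of t ^ k : FreeGroup X)).toMonoidHom.comp (rhoT t) := by
    apply FreeGroup.ext_hom
    intro x
    have h1 : FreeGroup.map (sh X k) (FreeGroup.of x) = FreeGroup.of (x.1, x.2 + k) := by
      rw [FreeGroup.map.of]
      rfl
    rw [MonoidHom.comp_apply, h1, AMag_rho_of, MonoidHom.comp_apply, AMag_rho_of]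
    simp only [MulEquiv.toMonoidHom_eq_coe, MonoidHom.coe_coe, MulAut.conj_apply]
    rw [add_comm, zpow_add]
    group
  have h2 := DFunLike.congr_fun h w
  simp only [MonoidHom.comp_apply, MulEquiv.toMonoidHom_eq_coe, MonoidHom.coe_coe,
    MulAut.conj_apply] at h2
  exact h2

theorem rho_decomp2 {X : Type} (t : X) (S : Set X) (e : FreeGroup X) (he : e ∈ Wd S) :
    ∃ (w : FreeGroup (X × ℤ)) (d : ℤ) (a : ℕ), e = rhoT t w * FreeGroup.of t ^ d ∧
      w ∈ Wd {y : X × ℤ | y.1 ∈ S ∧ y.1 ≠ t ∧ -(a : ℤ) ≤ y.2 ∧ y.2 ≤ a} ∧ |d| ≤ a := by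
  have hmono : ∀ (a b : ℕ), a ≤ b → ∀ w : FreeGroup (X × ℤ),
      w ∈ Wd {y : X × ℤ | y.1 ∈ S ∧ y.1 ≠ t ∧ -(a : ℤ) ≤ y.2 ∧ y.2 ≤ a} →
      w ∈ Wd {y : X × ℤ | y.1 ∈ S ∧ y.1 ≠ t ∧ -(b : ℤ) ≤ y.2 ∧ y.2 ≤ b} := by
    intro a b hab w hw
    refine wd_mono ?_ hw
    rintro y ⟨h1, h2, h3, h4⟩
    exact ⟨h1, h2, by omega, by omega⟩
  have hsh : ∀ (a b : ℕ) (d : ℤ), a + |d| ≤ b → ∀ w : FreeGroup (X × ℤ),
      w ∈ Wd {y : X × ℤ | y.1 ∈ S ∧ y.1 ≠ t ∧ -(a : ℤ) ≤ y.2 ∧ y.2 ≤ a} →
      FreeGroup.map (sh X d) w ∈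
        Wd {y : X × ℤ | y.1 ∈ S ∧ y.1 ≠ t ∧ -(b : ℤ) ≤ y.2 ∧ y.2 ≤ b} := by
    intro a b d hab w hw
    have h1 : FreeGroup.map (sh X d) w ∈
        (Wd {y : X × ℤ | y.1 ∈ S ∧ y.1 ≠ t ∧ -(a : ℤ) ≤ y.2 ∧ y.2 ≤ a}).map
          (FreeGroup.map (sh X d)) := Subgroup.mem_map_of_mem _ hw
    rw [map_wd] at h1
    refine wd_mono ?_ h1
    rintro _ ⟨y, ⟨h2, h3, h4, h5⟩, rfl⟩
    have h6 := abs_le.1 (le_refl |d|)
    have h7 : (sh X d y).1 = y.1 := rfl
    have h8 : (sh X d y).2 = y.2 + d := rfl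
    refine ⟨?_, ?_, ?_, ?_⟩
    · rw [h7]
      exact h2
    · rw [h7]
      exact h3
    · rw [h8]
      omega
    · rw [h8]
      omega
  induction he using Subgroup.closure_induction with
  | mem e he =>
    obtain ⟨x, hx, rfl⟩ := he
    by_cases hxt : x = t
    · subst hxt
      exact ⟨1, 1, 1, by simp, Subgroup.one_mem _, by simp⟩
    · refine ⟨FreeGroup.of (x, 0), 0, 0, ?_, of_mem_wd ⟨hx, hxt, by simp, by simp⟩, by simp⟩
      rw [AMag_rho_of]
      simp
  | one => exact ⟨1, 0, 0, by simp, Subgroup.one_mem _, by simp⟩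
  | mul x y _ _ hx hy =>
    obtain ⟨w, d, a, rfl, h1, h2⟩ := hx
    obtain ⟨w', d', a', rfl, h1', h2'⟩ := hy
    refine ⟨w * FreeGroup.map (sh X d) w', d + d', a + a', ?_, ?_, ?_⟩
    · rw [map_mul, rhoT_sh, zpow_add]
      group
    · refine Subgroup.mul_mem _ (hmono a (a + a') (by omega) w h1)
        (hsh a' (a + a') d ?_ w' h1')
      push_cast
      omega
    · have := abs_add_le d d'
      push_cast
      omega
  | inv x _ hx =>
    obtain ⟨w, d, a, rfl, h1, h2⟩ := hx
    refine ⟨FreeGroup.map (sh X (-d)) w⁻¹, -d, a + a, ?_, ?_, ?_⟩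
    · rw [rhoT_sh, map_inv]
      group
    · refine hsh a (a + a) (-d) ?_ w⁻¹ (Subgroup.inv_mem _ h1)
      rw [abs_neg]
      push_cast
      omega
    · rw [abs_neg]
      push_cast
      omega

/-- If the shifted word is in the subgroup generated by the passive letters, modulo the shifted
relators, then the original word is in the subgroup generated by the letters other than `c`,
modulo the relator: apply `rhoT t`. -/
theorem nonmem_shift {X : Type} (t : X) (S : Set X) (c : X) (htS : t ∈ S) (htc : t ≠ c)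
    (L : List (X × Bool)) (hσ : wsum (dl t) L = 0) (N : ℕ) (p q k d : ℤ) (w : FreeGroup (X × ℤ))
    (h : rhoT t w * FreeGroup.of t ^ d ∉
      Wd (S \ {c}) ⊔ Subgroup.normalClosure {FreeGroup.mk L}) :
    FreeGroup.map (sh X k) w ∉ Wd (VW (S \ {t, c}) p q) ⊔
      Subgroup.normalClosure (FreeGroup.mk '' relK (mag t L) N) := by
  intro h'
  apply h
  set T := Subgroup.normalClosure {(FreeGroup.mk L : FreeGroup X)} with hT
  have hTn : T.Normal := Subgroup.normalClosure_normal
  have htV : t ∈ S \ {c} := ⟨htS, htc⟩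
  have hrel : rhoT t (FreeGroup.mk (mag t L)) = FreeGroup.mk L := by
    have h1 := mag_rho t L
    rw [hσ, zpow_zero, one_mul] at h1
    exact h1.symm
  have hle : Wd (VW (S \ {t, c}) p q) ⊔ Subgroup.normalClosure (FreeGroup.mk '' relK (mag t L) N) ≤
      (Wd (S \ {c}) ⊔ T).comap (rhoT t) := by
    apply sup_le
    · rw [Wd, Subgroup.closure_le]
      rintro _ ⟨x, ⟨⟨hx1, hx2⟩, -, -⟩, rfl⟩
      rw [SetLike.mem_coe, Subgroup.mem_comap, AMag_rho_of]
      have h1 : FreeGroup.of t ∈ Wd (S \ {c}) := of_mem_wd htV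
      have h2 : FreeGroup.of x.1 ∈ Wd (S \ {c}) := by
        refine of_mem_wd ⟨hx1, fun h3 => hx2 ?_⟩
        right
        exact h3
      exact Subgroup.mem_sup_left (Subgroup.mul_mem _ (Subgroup.mul_mem _
        (Subgroup.zpow_mem _ h1 _) h2) (Subgroup.inv_mem _ (Subgroup.zpow_mem _ h1 _)))
    · have h3 : Subgroup.normalClosure (FreeGroup.mk '' relK (mag t L) N) ≤ T.comap (rhoT t) := by
        have : (T.comap (rhoT t)).Normal := hTn.comap (rhoT t)
        apply Subgroup.normalClosure_le_normal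
        rintro _ ⟨L', ⟨j, hj, rfl⟩, rfl⟩
        have h4 : (FreeGroup.mk (wmap (sh X j) (mag t L)) : FreeGroup (X × ℤ)) =
            FreeGroup.map (sh X j) (FreeGroup.mk (mag t L)) := by
          simp [wmap]
        rw [SetLike.mem_coe, Subgroup.mem_comap, h4, rhoT_sh, hrel]
        exact hTn.conj_mem _ (Subgroup.subset_normalClosure rfl) _
      exact h3.trans (Subgroup.comap_mono le_sup_right)
  have h1 := hle h'
  rw [Subgroup.mem_comap, rhoT_sh] at h1
  have ht : ∀ m : ℤ, FreeGroup.of t ^ m ∈ Wd (S \ {c}) ⊔ T := fun m =>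
    Subgroup.mem_sup_left (Subgroup.zpow_mem _ (of_mem_wd htV) _)
  have h2 := Subgroup.mul_mem _ (Subgroup.mul_mem _ (ht (-k)) h1) (ht k)
  have h3 : FreeGroup.of t ^ (-k) * (FreeGroup.of t ^ k * rhoT t w *
      (FreeGroup.of t ^ k)⁻¹) * FreeGroup.of t ^ k = rhoT t w := by
    group
  rw [h3] at h2
  exact Subgroup.mul_mem _ h2 (ht d)

end ORel
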