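import Pool.Agent.Lib_MP_051624_all.ASubA

/-!
# The substitution: words and models

`sufS n b c s T`: the suffix after the letter `(c, s)` in the substituted word.

`subL_mk`: induction. `subL_suffix`: `subL n b (L₁ ++ T) = subL n b L₁ ++ subL n b T`, and
`subL n b ((c, true) :: T) = (c, true) :: (powL b (n c) ++ subL n b T)`,
`subL n b ((c, false) :: T) = powL b (-n c) ++ (c, false) :: subL n b T`. `subL_suffix_conv`:
induction on `L`; the blocks `powL b _` do not contain the letter `c ≠ b`. `subL_inj`: if `T ≠ T'`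
then one of the suffixes is longer, say `T = U ++ (c, s') :: T'`, and then
`sufS n b c s T` is longer than `sufS n b c s' T'`.

`subL_bpt`: for `s = true`: `mk (powL b (n c) ++ subL n b T) = b ^ n c * subH n b (mk T)`; for
`s = false`: `mk ((c, false) :: subL n b T) = c⁻¹ * subH n b (mk T)` and
`b ^ n c * subH n b (c⁻¹ * mk T) = b ^ n c * (b ^ (-n c) * c⁻¹) * subH n b (mk T)`.

Proof of `sub_step`. Let `R₀'` be given by `PP (subL n b L) c`. Let `S` be finite with `b ∈ S` and the
letters of `L` in `S`; then the letters of `subL n b L` are in `S`. For `E`, `ε` let `Z, θ'` be the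
model for the image of `E` under `subH n b`, and let `θ = θ'.comp (subH n b)`.
* Relator: `subL_mk`. Windows: `sub_nonmem` with `W = S \ {c}` (which contains `b`);
  `subH n b d ∈ Wd (S \ {c})` for `d ∈ Wd (S \ {c})`; `subH n b e ∈ Wd S`.
* Certificate: let `h`, `bad` be the certificate of `subL n b L`. The rank function for `θ` is
  `u ↦ h (θ' (of b ^ n c) u)`. For a good `z` let `s, T'` be the leading letter of `subL n b L`,
  `T' = sufS n b c s T` with `(c, s) :: T <:+ L` (`subL_suffix_conv`). By `subL_bpt`
  `θ' (bpt (c, s) T') z = θ' (of b ^ n c) (θ (bpt (c, s) T) z)`, and the same for all the other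
  letters; use `subL_inj` for `T'' ≠ T`. The based relator:
  `subH n b (bpt (c, s) T * mk L * (bpt (c, s) T)⁻¹) = b ^ (-n c) * R₀' * b ^ n c`, so by
  `subH_inj` the element `bpt (c, s) T * mk L * (…)⁻¹` is the same for all good `z`; let `R₀` be the
  element with `subH n b R₀ = b ^ (-n c) * R₀' * b ^ n c` if there is one (and `1` otherwise).
-/

open Equiv

namespace ORel

/-- The suffix after the letter `(c, s)` in the substituted word. -/
noncomputable def sufS {X : Type} (n : X → ℤ) (b c : X) (s : Bool) (T : List (X × Bool)) :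
    List (X × Bool) :=
  if s then powL b (n c) ++ subL n b T else subL n b T

private theorem powL_mk {X : Type} (b : X) (k : ℤ) :
    FreeGroup.mk (powL b k) = FreeGroup.of b ^ k := by
  have h1 : ∀ m : ℕ, FreeGroup.mk (List.replicate m (b, true)) = FreeGroup.of b ^ m := by
    intro m
    induction m with
    | zero => simp [FreeGroup.one_eq_mk]
    | succ m ih =>
      rw [List.replicate_succ, pow_succ', ← ih]
      change _ = FreeGroup.mk [(b, true)] * _
      rw [FreeGroup.mul_mk]
      rfl
  have h2 : ∀ m : ℕ, FreeGroup.mk (List.replicate m (b, false)) = (FreeGroup.of b)⁻¹ ^ m := by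
    intro m
    induction m with
    | zero => simp [FreeGroup.one_eq_mk]
    | succ m ih =>
      rw [List.replicate_succ, pow_succ', ← ih]
      change _ = (FreeGroup.mk [(b, true)])⁻¹ * _
      rw [FreeGroup.inv_mk, FreeGroup.mul_mk]
      rfl
  unfold powL
  by_cases hk : 0 ≤ k
  · obtain ⟨m, rfl⟩ := Int.eq_ofNat_of_zero_le hk
    simp only [hk, decide_true, Int.natAbs_natCast, zpow_natCast]
    exact h1 m
  · have hk' : 0 ≤ -k := by omega
    obtain ⟨m, hm⟩ := Int.eq_ofNat_of_zero_le hk'
    have hk2 : k = -(m : ℤ) := by omega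
    subst hk2
    simp only [hk, decide_false, Int.natAbs_neg, Int.natAbs_natCast, zpow_neg, zpow_natCast]
    rw [h2 m, inv_pow]

private theorem powL_letters {X : Type} (b : X) (k : ℤ) (y : X × Bool) (hy : y ∈ powL b k) :
    y.1 = b := by
  unfold powL at hy
  rw [List.eq_of_mem_replicate hy]

private theorem subL_cons_b {X : Type} (n : X → ℤ) (b : X) (s : Bool) (T : List (X × Bool)) :
    subL n b ((b, s) :: T) = powL b (if s then n b else -n b) ++ subL n b T := by
  simp [subL]

private theorem subL_cons_t {X : Type} (n : X → ℤ) (b c : X) (hc : c ≠ b) (T : List (X × Bool)) :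
    subL n b ((c, true) :: T) = (c, true) :: (powL b (n c) ++ subL n b T) := by
  simp [subL, hc]

private theorem subL_cons_f {X : Type} (n : X → ℤ) (b c : X) (hc : c ≠ b) (T : List (X × Bool)) :
    subL n b ((c, false) :: T) = powL b (-n c) ++ (c, false) :: subL n b T := by
  simp [subL, hc]

private theorem subH_of_b {X : Type} (n : X → ℤ) (b : X) :
    subH n b (FreeGroup.of b) = FreeGroup.of b ^ n b := by
  simp [subH]

private theorem subH_of_ne {X : Type} (n : X → ℤ) (b c : X) (hc : c ≠ b) :
    subH n b (FreeGroup.of c) = FreeGroup.of c * FreeGroup.of b ^ n c := by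
  simp [subH, hc]

private theorem mk_cons_t {X : Type} (c : X) (T : List (X × Bool)) :
    FreeGroup.mk ((c, true) :: T) = FreeGroup.of c * FreeGroup.mk T := by
  change _ = FreeGroup.mk [(c, true)] * _
  rw [FreeGroup.mul_mk]
  rfl

private theorem mk_cons_f {X : Type} (c : X) (T : List (X × Bool)) :
    FreeGroup.mk ((c, false) :: T) = (FreeGroup.of c)⁻¹ * FreeGroup.mk T := by
  change _ = (FreeGroup.mk [(c, true)])⁻¹ * _
  rw [FreeGroup.inv_mk, FreeGroup.mul_mk]
  rfl

theorem subL_mk {X : Type} (n : X → ℤ) (b : X) (L : List (X × Bool)) :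
    FreeGroup.mk (subL n b L) = subH n b (FreeGroup.mk L) := by
  induction L with
  | nil =>
    change FreeGroup.mk [] = subH n b (FreeGroup.mk [])
    rw [← FreeGroup.one_eq_mk, map_one]
  | cons y L ih =>
    obtain ⟨x, s⟩ := y
    by_cases hx : x = b
    · subst hx
      rw [subL_cons_b, ← FreeGroup.mul_mk, powL_mk, ih]
      cases s
      · rw [mk_cons_f, map_mul, map_inv, subH_of_b]
        simp
      · rw [mk_cons_t, map_mul, subH_of_b]
        simp
    · cases s
      · rw [subL_cons_f n b x hx, ← FreeGroup.mul_mk, powL_mk, mk_cons_f, mk_cons_f, ih, map_mul,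
          map_inv, subH_of_ne n b x hx]
        simp [mul_assoc]
      · rw [subL_cons_t n b x hx, mk_cons_t, ← FreeGroup.mul_mk, powL_mk, mk_cons_t, ih, map_mul,
          subH_of_ne n b x hx]
        simp [mul_assoc]

theorem subL_letters {X : Type} (n : X → ℤ) (b : X) (L : List (X × Bool)) (y : X × Bool)
    (hy : y ∈ subL n b L) : y.1 = b ∨ y ∈ L := by
  induction L with
  | nil => simp [subL] at hy
  | cons z L ih =>
    obtain ⟨x, s⟩ := z
    by_cases hx : x = b
    · subst hx
      rw [subL_cons_b, List.mem_append] at hy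
      rcases hy with hy | hy
      · exact Or.inl (powL_letters _ _ _ hy)
      · exact (ih hy).imp id fun h => List.mem_cons_of_mem _ h
    · cases s
      · rw [subL_cons_f n b x hx, List.mem_append, List.mem_cons] at hy
        rcases hy with hy | hy | hy
        · exact Or.inl (powL_letters _ _ _ hy)
        · exact Or.inr (by rw [hy]; exact List.mem_cons_self)
        · exact (ih hy).imp id fun h => List.mem_cons_of_mem _ h
      · rw [subL_cons_t n b x hx, List.mem_cons, List.mem_append] at hy
        rcases hy with hy | hy | hy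
        · exact Or.inr (by rw [hy]; exact List.mem_cons_self)
        · exact Or.inl (powL_letters _ _ _ hy)
        · exact (ih hy).imp id fun h => List.mem_cons_of_mem _ h

private theorem subL_append {X : Type} (n : X → ℤ) (b : X) (A B : List (X × Bool)) :
    subL n b (A ++ B) = subL n b A ++ subL n b B := by
  induction A with
  | nil => rfl
  | cons y A ih =>
    rw [List.cons_append]
    simp only [subL, ih, List.append_assoc]

private theorem subL_suf {X : Type} (n : X → ℤ) (b : X) {A B : List (X × Bool)} (h : A <:+ B) :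
    subL n b A <:+ subL n b B := by
  obtain ⟨U, rfl⟩ := h
  rw [subL_append]
  exact List.suffix_append _ _

theorem subL_suffix {X : Type} (n : X → ℤ) (b c : X) (hc : c ≠ b) (s : Bool)
    (T L : List (X × Bool)) (h : ((c, s) :: T) <:+ L) :
    ((c, s) :: sufS n b c s T) <:+ subL n b L := by
  refine List.IsSuffix.trans ?_ (subL_suf n b h)
  cases s
  · rw [subL_cons_f n b c hc]
    simp only [sufS, Bool.false_eq_true, if_false]
    exact List.suffix_append _ _
  · rw [subL_cons_t n b c hc]
    simp only [sufS, if_true]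
    exact List.suffix_refl _

private theorem suf_append {α : Type} (y : α) (T A B : List α) (h : (y :: T) <:+ (A ++ B)) :
    (y :: T) <:+ B ∨ ∃ U, (y :: U) <:+ A ∧ T = U ++ B := by
  induction A with
  | nil => exact Or.inl h
  | cons a A ih =>
    rw [List.cons_append, List.suffix_cons_iff] at h
    rcases h with h | h
    · rw [List.cons.injEq] at h
      right
      exact ⟨A, by rw [h.1], h.2⟩
    · rcases ih h with h | ⟨U, hU, hT⟩
      · exact Or.inl h
      · exact Or.inr ⟨U, hU.trans (List.suffix_cons _ _), hT⟩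

private theorem powL_suf {X : Type} (b c : X) (hc : c ≠ b) (k : ℤ) (s : Bool)
    (U : List (X × Bool)) (h : ((c, s) :: U) <:+ powL b k) : False :=
  hc (powL_letters b k (c, s) (h.subset List.mem_cons_self))

theorem subL_suffix_conv {X : Type} (n : X → ℤ) (b c : X) (hc : c ≠ b) (s : Bool)
    (T' L : List (X × Bool)) (h : ((c, s) :: T') <:+ subL n b L) :
    ∃ T : List (X × Bool), ((c, s) :: T) <:+ L ∧ sufS n b c s T = T' := by
  induction L with
  | nil =>
    simp [subL] at h
  | cons z L ih =>
    have key : (((c, s) :: T') <:+ subL n b L) →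
        ∃ T : List (X × Bool), ((c, s) :: T) <:+ (z :: L) ∧ sufS n b c s T = T' := by
      intro h1
      obtain ⟨T, hT, hT'⟩ := ih h1
      exact ⟨T, hT.trans (List.suffix_cons _ _), hT'⟩
    obtain ⟨x, r⟩ := z
    by_cases hx : x = b
    · subst hx
      rw [subL_cons_b] at h
      rcases suf_append _ _ _ _ h with h | ⟨U, hU, _⟩
      · exact key h
      · exact (powL_suf x c hc _ s U hU).elim
    · cases r
      · rw [subL_cons_f n b x hx] at h
        rcases suf_append _ _ _ _ h with h | ⟨U, hU, _⟩
        · rw [List.suffix_cons_iff] at h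
          rcases h with h | h
          · rw [List.cons.injEq, Prod.mk.injEq] at h
            obtain ⟨⟨rfl, rfl⟩, rfl⟩ := h
            exact ⟨L, List.suffix_refl _, by simp [sufS]⟩
          · exact key h
        · exact (powL_suf b c hc _ s U hU).elim
      · rw [subL_cons_t n b x hx, List.suffix_cons_iff] at h
        rcases h with h | h
        · rw [List.cons.injEq, Prod.mk.injEq] at h
          obtain ⟨⟨rfl, rfl⟩, rfl⟩ := h
          exact ⟨L, List.suffix_refl _, by simp [sufS]⟩
        · rcases suf_append _ _ _ _ h with h | ⟨U, hU, _⟩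
          · exact key h
          · exact (powL_suf b c hc _ s U hU).elim

private theorem suf_len_lt {X : Type} (n : X → ℤ) (b c : X) (hc : c ≠ b) (s s' : Bool)
    (T T' : List (X × Bool)) (h : ((c, s) :: T) <:+ T') :
    (sufS n b c s T).length < (sufS n b c s' T').length := by
  have h1 := (subL_suffix n b c hc s T T' h).length_le
  rw [List.length_cons] at h1
  have h2 : (subL n b T').length ≤ (sufS n b c s' T').length := by
    unfold sufS
    split_ifs
    · rw [List.length_append]
      omega
    · exact le_refl _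
  omega

theorem subL_inj {X : Type} (n : X → ℤ) (b c : X) (hc : c ≠ b) (s s' : Bool)
    (T T' L : List (X × Bool)) (h : ((c, s) :: T) <:+ L) (h' : ((c, s') :: T') <:+ L)
    (he : sufS n b c s T = sufS n b c s' T') : T = T' := by
  rcases List.suffix_or_suffix_of_suffix h h' with h1 | h1
  · rw [List.suffix_cons_iff] at h1
    rcases h1 with h1 | h1
    · rw [List.cons.injEq] at h1
      exact h1.2
    · have := suf_len_lt n b c hc s s' T T' h1
      rw [he] at this
      exact absurd this (lt_irrefl _)
  · rw [List.suffix_cons_iff] at h1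
    rcases h1 with h1 | h1
    · rw [List.cons.injEq] at h1
      exact h1.2.symm
    · have := suf_len_lt n b c hc s' s T' T h1
      rw [he] at this
      exact absurd this (lt_irrefl _)

theorem subL_bpt {X : Type} (n : X → ℤ) (b c : X) (hc : c ≠ b) (s : Bool)
    (T : List (X × Bool)) :
    bpt (c, s) (sufS n b c s T) = FreeGroup.of b ^ n c * subH n b (bpt (c, s) T) := by
  cases s
  · simp only [bpt, sufS, Bool.false_eq_true, if_false]
    rw [mk_cons_f, mk_cons_f, subL_mk, map_mul, map_inv, subH_of_ne n b c hc]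
    simp [mul_assoc]
  · simp only [bpt, sufS, if_true]
    rw [← FreeGroup.mul_mk, powL_mk, subL_mk]

private theorem subH_wd {X : Type} (n : X → ℤ) (b : X) (W : Set X) (hb : b ∈ W)
    (d : FreeGroup X) (hd : d ∈ Wd W) : subH n b d ∈ Wd W := by
  have h1 : Wd W ≤ (Wd W).comap (subH n b) := by
    unfold Wd
    rw [Subgroup.closure_le]
    rintro _ ⟨x, hx, rfl⟩
    change subH n b (FreeGroup.of x) ∈ Wd W
    by_cases hxb : x = b
    · subst hxb
      rw [subH_of_b]
      exact Subgroup.zpow_mem _ (of_mem_wd hx) _
    · rw [subH_of_ne n b x hxb]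
      exact Subgroup.mul_mem _ (of_mem_wd hx) (Subgroup.zpow_mem _ (of_mem_wd hb) _)
  exact h1 hd

theorem sub_step {X : Type} (n : X → ℤ) (b c : X) (hb : n b ≠ 0) (hc : c ≠ b)
    (L : List (X × Bool)) (hP : PP (subL n b L) c) : PPD {b} L c := by
  classical
  obtain ⟨R₀', hR⟩ := hP
  obtain ⟨R₀, hR₀⟩ : ∃ R₀ : FreeGroup X, ∀ g : FreeGroup X,
      subH n b g = (FreeGroup.of b ^ n c)⁻¹ * R₀' * FreeGroup.of b ^ n c → g = R₀ := by
    by_cases hex : ∃ g : FreeGroup X,
        subH n b g = (FreeGroup.of b ^ n c)⁻¹ * R₀' * FreeGroup.of b ^ n c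
    · obtain ⟨g₀, hg₀⟩ := hex
      exact ⟨g₀, fun g hg => subH_inj n b hb (by rw [hg, hg₀])⟩
    · exact ⟨1, fun g hg => (hex ⟨g, hg⟩).elim⟩
  refine ⟨R₀, fun S hS hbS hLS E ε hε => ?_⟩
  have hbS' : b ∈ S := hbS rfl
  have hlet : ∀ y ∈ subL n b L, y.1 ∈ S := by
    intro y hy
    rcases subL_letters n b L y hy with h | h
    · rw [h]
      exact hbS'
    · exact hLS y h
  have hbW : b ∈ S \ {c} := ⟨hbS', fun h => hc (Set.mem_singleton_iff.1 h).symm⟩
  obtain ⟨Z, hZ, hZ', θ', h1, h2, -, h4⟩ :=
    hR S hS (Set.empty_subset _) hlet (E.image (subH n b)) ε hε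
  refine ⟨Z, hZ, hZ', θ'.comp (subH n b), ?_, ?_, ?_, ?_⟩
  · intro L' hL'
    rw [Set.mem_singleton_iff] at hL'
    subst hL'
    have h := h1 (subL n b L') rfl
    rw [subL_mk] at h
    exact h
  · intro V hV e he heS hne
    rw [Set.mem_singleton_iff] at hV
    subst hV
    rw [Set.image_singleton] at hne
    have h := h2 (S \ {c}) rfl (subH n b e) (Finset.mem_image_of_mem _ he)
      (subH_wd n b S hbS' e heS) (by
        rw [Set.image_singleton, subL_mk]
        exact sub_nonmem n b hb (S \ {c}) hbW (FreeGroup.mk L) e hne)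
    refine h.mono ?_ (le_refl _)
    rintro z ⟨d, hd, hdz⟩
    exact ⟨subH n b d, subH_wd n b _ hbW d hd, hdz⟩
  · intro U hU
    exact absurd hU (Set.notMem_empty U)
  · intro C hC
    rw [Set.mem_singleton_iff] at hC
    subst hC
    obtain ⟨h, bad, hbad, hcert⟩ : Cert θ' (subL n b L) c R₀' ε := h4 (subL n b L, c, R₀') rfl
    change Cert (θ'.comp (subH n b)) L c R₀ ε
    refine ⟨fun u => h (θ' (FreeGroup.of b ^ n c) u), bad, hbad, fun z hz => ?_⟩
    obtain ⟨s, T', hT', hR', hmax⟩ := hcert z hz
    obtain ⟨T, hT, hTT'⟩ := subL_suffix_conv n b c hc s T' L hT'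
    refine ⟨s, T, hT, ?_, ?_⟩
    · refine hR₀ _ ?_
      rw [← hTT', subL_bpt n b c hc, subL_mk] at hR'
      rw [← hR']
      simp only [map_mul, map_inv, mul_inv_rev]
      group
    · intro b' T'' hT'' hne
      have hne' : sufS n b c b' T'' ≠ T' := by
        intro h5
        exact hne (subL_inj n b c hc b' s T'' T L hT'' hT (by rw [h5, hTT']))
      have h6 := hmax b' (sufS n b c b' T'') (subL_suffix n b c hc b' T'' L hT'') hne'
      rw [← hTT', subL_bpt n b c hc, subL_bpt n b c hc, map_mul, map_mul] at h6
      exact h6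

end ORel
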