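import Pool.Agent.Lib_MP_051624_all.ADefs

/-!
# The choice of the weights

`exists_weight`: if `b ≠ c` is a letter with `wsum (dl b) L = 0` take `n = dl b`. If
`wsum (dl c) L ≠ 0` (and `b ≠ c` is a letter) take `n b = wsum (dl c) L`, `n c = - wsum (dl b) L` and
`0` elsewhere: `wsum n L = n b * wsum (dl b) L + n c * wsum (dl c) L = 0`. If `b₁ ≠ b₂` are letters
different from `c`: if one of `wsum (dl b₁) L`, `wsum (dl b₂) L` is `0` take the first case; otherwise
take `b = b₁`, `n b₁ = wsum (dl b₂) L`, `n b₂ = - wsum (dl b₁) L`, and `0` elsewhere. (`wsum` is linear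
in `n`.)

`two_heights`: `L` is cyclically reduced in the letters `b` and `c`, both occur, and
`wsum (dl c) L = 0`. Suppose that `wsum (dl c) T` is the same number for all suffixes
`(b, s) :: T <:+ L`. If two letters `b` of `L` are separated by a nonempty block of letters `c`,
this block has letters of one sign (reducedness), and the two values differ by its length, a
contradiction. So `L = B₁ ++ B ++ B₂`, with `B₁, B₂` in the letter `c` only, and `B` nonempty in the
letter `b` only. `wsum (dl c) L = wsum (dl c) B₁ + wsum (dl c) B₂ = 0`; `B₁`, `B₂` have constant signs,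
and if both are nonempty the first and the last letter of `L` have the same sign (cyclically
reduced), so both are empty, a contradiction since `c` occurs.

`all_c`: a reduced word in one letter is a power.
-/

namespace ORel

private theorem AWei_lin {X : Type} (n m : X → ℤ) (α β : ℤ) (L : List (X × Bool)) :
    wsum (fun x => α * n x + β * m x) L = α * wsum n L + β * wsum m L := by
  induction L with
  | nil => simp [wsum]
  | cons y T ih =>
    simp only [wsum, ih]
    split_ifs <;> ring

private theorem AWei_append {X : Type} (n : X → ℤ) (L L' : List (X × Bool)) :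
    wsum n (L ++ L') = wsum n L + wsum n L' := by
  induction L with
  | nil => simp [wsum]
  | cons y T ih =>
    rw [List.cons_append, wsum, wsum, ih]
    ring

private theorem AWei_dl_self {X : Type} (b : X) : dl b b = 1 := by
  unfold dl
  exact if_pos rfl

private theorem AWei_dl_ne {X : Type} {b c : X} (h : b ≠ c) : dl c b = 0 := by
  unfold dl
  exact if_neg h

theorem exists_weight {X : Type} (L : List (X × Bool)) (c : X)
    (h : (∃ b, b ≠ c ∧ (∃ y ∈ L, y.1 = b) ∧ (wsum (dl b) L = 0 ∨ wsum (dl c) L ≠ 0)) ∨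
      ∃ b₁ b₂, b₁ ≠ b₂ ∧ b₁ ≠ c ∧ b₂ ≠ c ∧ (∃ y ∈ L, y.1 = b₁) ∧ ∃ y ∈ L, y.1 = b₂) :
    ∃ (n : X → ℤ) (b : X), (∃ y ∈ L, y.1 = b) ∧ b ≠ c ∧ n b ≠ 0 ∧ wsum n L = 0 := by
  have h0 : ∀ b, b ≠ c → (∃ y ∈ L, y.1 = b) → wsum (dl b) L = 0 →
      ∃ (n : X → ℤ) (b : X), (∃ y ∈ L, y.1 = b) ∧ b ≠ c ∧ n b ≠ 0 ∧ wsum n L = 0 := by
    intro b hb hm hw
    refine ⟨dl b, b, hm, hb, ?_, hw⟩
    rw [AWei_dl_self]
    exact one_ne_zero
  have h2 : ∀ b b', b ≠ c → b ≠ b' → (∃ y ∈ L, y.1 = b) → wsum (dl b') L ≠ 0 →
      ∃ (n : X → ℤ) (b : X), (∃ y ∈ L, y.1 = b) ∧ b ≠ c ∧ n b ≠ 0 ∧ wsum n L = 0 := by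
    intro b b' hb hbb hm hw
    refine ⟨fun x => wsum (dl b') L * dl b x + (-wsum (dl b) L) * dl b' x, b, hm, hb, ?_, ?_⟩
    · simp only [AWei_dl_self, AWei_dl_ne hbb]
      simpa using hw
    · rw [AWei_lin]
      ring
  rcases h with ⟨b, hb, hm, hw | hw⟩ | ⟨b₁, b₂, h12, h1c, h2c, hm1, hm2⟩
  · exact h0 b hb hm hw
  · exact h2 b c hb hb hm hw
  · by_cases hw : wsum (dl b₂) L = 0
    · exact h0 b₂ h2c hm2 hw
    · exact h2 b₁ b₂ h1c h12 hm1 hw

theorem all_c {X : Type} (L : List (X × Bool)) (hL : FreeGroup.IsReduced L) (c : X)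
    (h : ∀ y ∈ L, y.1 = c) : ∃ s : Bool, L = List.replicate L.length (c, s) := by
  induction L with
  | nil => exact ⟨true, rfl⟩
  | cons y T ih =>
    have hL' : List.IsChain (fun a b : X × Bool => a.1 = b.1 → a.2 = b.2) (y :: T) := hL
    rw [List.isChain_cons] at hL'
    obtain ⟨s, hs⟩ := ih hL'.2 fun z hz => h z (List.mem_cons_of_mem _ hz)
    have hy : y.1 = c := h y List.mem_cons_self
    rcases T with _ | ⟨z, T'⟩
    · refine ⟨y.2, ?_⟩
      rw [← hy]
      rfl
    · refine ⟨s, ?_⟩
      have hz : z = (c, s) := by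
        rw [List.length_cons, List.replicate_succ] at hs
        exact (List.cons.inj hs).1
      have h1 : y.2 = z.2 := hL'.1 z rfl (by rw [hy, hz])
      have h2 : y = (c, s) := by
        rw [hz] at h1
        exact Prod.ext hy h1
      rw [List.length_cons, List.replicate_succ, ← hs, h2]

private theorem AWei_rep {X : Type} (c : X) (s : Bool) (k : ℕ) :
    wsum (dl c) (List.replicate k (c, s)) = if s then (k : ℤ) else -(k : ℤ) := by
  induction k with
  | zero => simp [wsum]
  | succ k ih =>
    rw [List.replicate_succ, wsum, ih]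
    cases s
    · simp only [Bool.false_eq_true, if_false, AWei_dl_self]
      push_cast
      ring
    · simp only [if_true, AWei_dl_self]
      push_cast
      ring

private theorem AWei_other {X : Type} {b c : X} (hbc : b ≠ c) (L : List (X × Bool)) (h : ∀ y ∈ L, y.1 = b) :
    wsum (dl c) L = 0 := by
  induction L with
  | nil => rfl
  | cons y T ih =>
    rw [wsum, ih fun z hz => h z (List.mem_cons_of_mem _ hz), h y List.mem_cons_self, AWei_dl_ne hbc]
    simp

private theorem AWei_red_append {X : Type} {L L' : List (X × Bool)} (h : FreeGroup.IsReduced (L ++ L')) :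
    FreeGroup.IsReduced L ∧ FreeGroup.IsReduced L' := by
  have h' : List.IsChain (fun a b : X × Bool => a.1 = b.1 → a.2 = b.2) (L ++ L') := h
  rw [List.isChain_append] at h'
  exact ⟨h'.1, h'.2.1⟩

private theorem AWei_ne_zero {X : Type} {c : X} {L : List (X × Bool)} (hL : FreeGroup.IsReduced L)
    (h : ∀ y ∈ L, y.1 = c) (h0 : wsum (dl c) L = 0) : L = [] := by
  obtain ⟨s, hs⟩ := all_c L hL c h
  rw [hs, AWei_rep] at h0
  have : L.length = 0 := by
    cases s <;> simpa using h0
  exact List.length_eq_zero_iff.1 this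

private theorem AWei_dec {X : Type} (b c : X) (hbc : b ≠ c) (h₀ : ℤ) (L : List (X × Bool))
    (hL : FreeGroup.IsReduced L) (h : ∀ y ∈ L, y.1 = b ∨ y.1 = c)
    (hv : ∀ s T, ((b, s) :: T) <:+ L → wsum (dl c) T = h₀) :
    ∃ B₁ B B₂ : List (X × Bool), L = B₁ ++ (B ++ B₂) ∧ (∀ y ∈ B₁, y.1 = c) ∧ (∀ y ∈ B, y.1 = b) ∧
      ∀ y ∈ B₂, y.1 = c := by
  induction L with
  | nil => exact ⟨[], [], [], rfl, by simp, by simp, by simp⟩
  | cons y T ih =>
    have hT : FreeGroup.IsReduced T := (AWei_red_append (L := [y]) (L' := T) hL).2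
    obtain ⟨B₁, B, B₂, hdec, h1, h2, h3⟩ := ih hT (fun z hz => h z (List.mem_cons_of_mem _ hz))
      (fun s T' hT' => hv s T' (hT'.trans (List.suffix_cons y T)))
    rcases h y List.mem_cons_self with hy | hy
    · rcases B₁ with _ | ⟨z, B₁'⟩
      · refine ⟨[], y :: B, B₂, ?_, by simp, ?_, h3⟩
        · rw [hdec]
          rfl
        · intro w hw
          rcases List.mem_cons.1 hw with rfl | hw
          · exact hy
          · exact h2 w hw
      · rcases B with _ | ⟨w, B'⟩
        · refine ⟨[], [y], (z :: B₁') ++ B₂, ?_, by simp, ?_, ?_⟩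
          · rw [hdec]
            rfl
          · intro u hu
            rw [List.mem_singleton] at hu
            rw [hu]
            exact hy
          · intro u hu
            rcases List.mem_append.1 hu with hu | hu
            · exact h1 u hu
            · exact h3 u hu
        · exfalso
          have e1 : wsum (dl c) T = h₀ := by
            refine hv y.2 T ?_
            have : (b, y.2) = y := Prod.ext hy.symm rfl
            rw [this]
          have hw : w = (b, w.2) := Prod.ext (h2 w List.mem_cons_self) rfl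
          have e2 : wsum (dl c) (B' ++ B₂) = h₀ := by
            refine hv w.2 (B' ++ B₂) ?_
            rw [← hw, hdec]
            exact (List.suffix_append (z :: B₁') (w :: B' ++ B₂)).trans (List.suffix_cons y _)
          have e3 : wsum (dl c) B' = 0 := AWei_other hbc B' fun u hu => h2 u (List.mem_cons_of_mem _ hu)
          have e4 : wsum (dl c) (w :: B') = 0 := AWei_other hbc _ h2
          rw [hdec, AWei_append, AWei_append, e4] at e1
          rw [AWei_append, e3] at e2
          have e5 : wsum (dl c) (z :: B₁') = 0 := by linarith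
          have hred : FreeGroup.IsReduced (z :: B₁') := by
            rw [hdec] at hT
            exact (AWei_red_append hT).1
          exact List.cons_ne_nil _ _ (AWei_ne_zero hred h1 e5)
    · refine ⟨y :: B₁, B, B₂, ?_, ?_, h2, h3⟩
      · rw [hdec]
        rfl
      · intro w hw
        rcases List.mem_cons.1 hw with rfl | hw
        · exact hy
        · exact h1 w hw

theorem two_heights {X : Type} (L : List (X × Bool)) (hL : FreeGroup.IsCyclicallyReduced L)
    (b c : X) (hbc : b ≠ c) (h : ∀ y ∈ L, y.1 = b ∨ y.1 = c) (hb : ∃ y ∈ L, y.1 = b)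
    (hc : ∃ y ∈ L, y.1 = c) (h0 : wsum (dl c) L = 0) :
    ∃ (s s' : Bool) (T T' : List (X × Bool)), ((b, s) :: T) <:+ L ∧ ((b, s') :: T') <:+ L ∧
      wsum (dl c) T ≠ wsum (dl c) T' := by
  by_contra hcon
  -- a first suffix
  obtain ⟨y₀, hy₀, hy₀b⟩ := hb
  obtain ⟨l₁, l₂, hl⟩ := List.append_of_mem hy₀
  have hs₀ : ((b, y₀.2) :: l₂) <:+ L := by
    have : (b, y₀.2) = y₀ := Prod.ext hy₀b.symm rfl
    rw [this, hl]
    exact List.suffix_append _ _
  have hv : ∀ s T, ((b, s) :: T) <:+ L → wsum (dl c) T = wsum (dl c) l₂ := by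
    intro s T hT
    by_contra hne
    exact hcon ⟨s, y₀.2, T, l₂, hT, hs₀, hne⟩
  obtain ⟨B₁, B, B₂, hdec, h1, h2, h3⟩ := AWei_dec b c hbc _ L hL.1 h hv
  have e0 : wsum (dl c) B₁ + wsum (dl c) B₂ = 0 := by
    rw [hdec, AWei_append, AWei_append, AWei_other hbc B h2] at h0
    linarith
  have hred := hL.1
  rw [hdec] at hred
  have hr1 : FreeGroup.IsReduced B₁ := (AWei_red_append hred).1
  have hr2 : FreeGroup.IsReduced B₂ := (AWei_red_append (AWei_red_append hred).2).2
  have hB : B ≠ [] := by
    intro hB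
    rw [hdec, hB] at hy₀
    rcases List.mem_append.1 hy₀ with hy | hy
    · exact hbc (hy₀b.symm.trans (h1 _ hy))
    · rw [List.nil_append] at hy
      exact hbc (hy₀b.symm.trans (h3 _ hy))
  by_cases hB1 : B₁ = []
  · have hB2 : B₂ = [] := AWei_ne_zero hr2 h3 (by
      rw [hB1] at e0
      simpa [wsum] using e0)
    obtain ⟨y, hy, hyc⟩ := hc
    rw [hdec, hB1, hB2, List.append_nil, List.nil_append] at hy
    exact hbc ((h2 y hy).symm.trans hyc)
  · by_cases hB2 : B₂ = []
    · exact hB1 (AWei_ne_zero hr1 h1 (by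
        rw [hB2] at e0
        simpa [wsum] using e0))
    · obtain ⟨s₁, hs1⟩ := all_c B₁ hr1 c h1
      obtain ⟨s₂, hs2⟩ := all_c B₂ hr2 c h3
      obtain ⟨k₁, hk₁⟩ : ∃ k, B₁.length = k + 1 := Nat.exists_eq_succ_of_ne_zero fun h =>
        hB1 (List.length_eq_zero_iff.1 h)
      obtain ⟨k₂, hk₂⟩ : ∃ k, B₂.length = k + 1 := Nat.exists_eq_succ_of_ne_zero fun h =>
        hB2 (List.length_eq_zero_iff.1 h)
      have hhead : L.head? = some (c, s₁) := by
        rw [hdec, hs1, hk₁, List.replicate_succ]
        rfl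
      have hlast : L.getLast? = some (c, s₂) := by
        rw [hdec, ← List.append_assoc, hs2, hk₂, List.replicate_succ', ← List.append_assoc, List.getLast?_concat]
      have hss : s₂ = s₁ := hL.2 (c, s₂) hlast (c, s₁) hhead rfl
      rw [hs1, hs2, AWei_rep, AWei_rep, hss, hk₁, hk₂] at e0
      cases s₁
      · simp only [Bool.false_eq_true, if_false] at e0
        push_cast at e0
        omega
      · simp only [if_true] at e0
        push_cast at e0
        omega

open scoped Classical in
private theorem AWei_mem_wt {X : Type} (n : X → ℤ) (b x : X) (hx : x ≠ b) (s : Bool) (T L : List (X × Bool))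
    (h : ((x, s) :: T) <:+ L) :
    ∃ y ∈ wt n b L, y.1 = (x, if s then -(n x + wsum n T) else -wsum n T) := by
  induction L with
  | nil =>
    have := List.eq_nil_of_suffix_nil h
    exact absurd this (List.cons_ne_nil _ _)
  | cons z L ih =>
    rcases List.suffix_cons_iff.1 h with h | h
    · obtain ⟨h1, h2⟩ := List.cons.inj h
      subst h1
      subst h2
      rw [wt]
      simp only [if_neg hx]
      exact ⟨_, List.mem_cons_self, rfl⟩
    · obtain ⟨y, hy, hy'⟩ := ih h
      refine ⟨y, ?_, hy'⟩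
      rw [wt]
      split_ifs
      · exact hy
      · exact List.mem_cons_of_mem _ hy
      · exact List.mem_cons_of_mem _ hy

private theorem AWei_wsum_some {X : Type} (n : Option X → ℤ) (m : X → ℤ) (h : ∀ x, n (some x) = m x)
    (L : List (X × Bool)) : wsum n (wmap some L) = wsum m L := by
  induction L with
  | nil => rfl
  | cons y T ih =>
    have : wmap some (y :: T) = (some y.1, y.2) :: wmap some T := rfl
    rw [this, wsum, wsum, ih]
    simp only [h]

open scoped Classical in
/-- The two letters `(some b, h₁)`, `(some b, h₂)` of the rewritten word, for the weight `1` of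
`none` and of `some c`. -/
theorem case4 {X : Type} (L : List (X × Bool)) (hL : FreeGroup.IsCyclicallyReduced L)
    (b c : X) (hbc : b ≠ c) (h : ∀ y ∈ L, y.1 = b ∨ y.1 = c) (hb : ∃ y ∈ L, y.1 = b)
    (hc : ∃ y ∈ L, y.1 = c) (h0 : wsum (dl c) L = 0) (n : Option X → ℤ)
    (hn : n = fun o => if o = none ∨ o = some c then 1 else 0) :
    wsum n (wmap some L) = 0 ∧ FreeGroup.IsCyclicallyReduced (wmap some L) ∧
    ∃ h₁ h₂ : ℤ, h₁ ≠ h₂ ∧ (∃ y ∈ wt n none (wmap some L), y.1 = (some b, h₁)) ∧
      ∃ y ∈ wt n none (wmap some L), y.1 = (some b, h₂) := by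
  have hns : ∀ x, n (some x) = dl c x := by
    intro x
    rw [hn]
    unfold dl
    simp only [reduceCtorEq, false_or, Option.some.injEq]
  have hnb : n (some b) = 0 := by rw [hns, AWei_dl_ne hbc]
  refine ⟨by rw [AWei_wsum_some n _ hns, h0], ⟨?_, ?_⟩, ?_⟩
  · have hL' : List.IsChain (fun a b : X × Bool => a.1 = b.1 → a.2 = b.2) L := hL.1
    change List.IsChain (fun a b : Option X × Bool => a.1 = b.1 → a.2 = b.2) (wmap some L)
    unfold wmap
    rw [List.isChain_map]
    refine hL'.imp fun a b hab h1 => ?_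
    exact hab (Option.some.inj h1)
  · intro a ha d hd had
    unfold wmap at ha hd
    rw [List.getLast?_map] at ha
    rw [List.head?_map] at hd
    obtain ⟨a', ha', rfl⟩ := Option.mem_map.1 ha
    obtain ⟨d', hd', rfl⟩ := Option.mem_map.1 hd
    exact hL.2 a' ha' d' hd' (Option.some.inj had)
  · obtain ⟨s, s', T, T', hT, hT', hne⟩ := two_heights L hL b c hbc h hb hc h0
    have hsuf : ∀ s T, ((b, s) :: T) <:+ L → ((some b, s) :: wmap some T) <:+ wmap some L := by
      rintro s T ⟨t, ht⟩
      refine ⟨wmap some t, ?_⟩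
      rw [← ht]
      unfold wmap
      rw [List.map_append, List.map_cons]
    have hmem : ∀ s T, ((b, s) :: T) <:+ L → ∃ y ∈ wt n none (wmap some L), y.1 = (some b, -wsum (dl c) T) := by
      intro s T hT
      obtain ⟨y, hy, hy'⟩ := AWei_mem_wt n none (some b) (by simp) s _ _ (hsuf s T hT)
      refine ⟨y, hy, ?_⟩
      rw [hy', AWei_wsum_some n _ hns, hnb, zero_add]
      simp
    exact ⟨-wsum (dl c) T, -wsum (dl c) T', fun e => hne (neg_injective e), hmem s T hT, hmem s' T' hT'⟩

end ORel
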