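import Pool.Agent.Lib_MP_051624_all.ADefs

/-!
# The weighted Magnus rewriting

`mag_subL`: induction on `L`; for a letter `y ≠ b` with `y.2 = true` the suffix after `y.1` is
`powL b (n y.1) ++ subL n b T`, of `dl b`-weight `n y.1 + wsum n T` (`wsum_subL`,
`wsum (dl b) (powL b k) = k`).

`wt_cyc`. Reducedness: let `(x, h, s)`, `(x', h', s')` be adjacent letters of `wt n b L` with
`x = x'`, `h = h'`, `s ≠ s'`. In `L` they come from letters `(x, s)`, `(x, s')` with only letters
`b^{±1}` between them: `L = L₁ ++ (x, s) :: (B ++ (x, s') :: T)`. If `s = true`, `s' = false` then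
`h = -(n x + (wsum n B - n x + wsum n T))`, `h' = -wsum n T`, so `wsum n B = 0`. If `s = false`,
`s' = true`, then `h = -(wsum n B + n x + wsum n T)`, `h' = -(n x + wsum n T)`, so again
`wsum n B = 0`. Since `B` is a reduced word in the letter `b` only, all its letters have the same
sign, and `wsum n B = ± B.length * n b`, so `B = []` (`n b ≠ 0`), and the letters `(x, s)`, `(x, s')`
are adjacent in `L`, a contradiction.

Cyclic reducedness: let the first letter of `wt n b L` be `(x, h, s)` and the last one
`(x, h', s')`, `h = h'`, `s ≠ s'`. Then `L = B₁ ++ (x, s) :: (L₁ ++ (x, s') :: B₂)` with `B₁`, `B₂`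
words in the letter `b` only. Using `wsum n L = 0` one gets as before
`wsum n B₁ + wsum n B₂ = 0`. If `B₁` and `B₂` are both nonempty, then all the letters of `B₁` have
the same sign, all the letters of `B₂` have the same sign, and (`L` is cyclically reduced) both
signs agree, a contradiction; so one of them is empty, then the other one as well, and then the
first and the last letter of `L` cancel, a contradiction.
-/

namespace ORel

theorem wsum_append {X : Type} (n : X → ℤ) (L L' : List (X × Bool)) :
    wsum n (L ++ L') = wsum n L + wsum n L' := by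
  induction L with
  | nil => simp [wsum]
  | cons y T ih =>
    rw [List.cons_append, wsum, wsum, ih, add_assoc]

private theorem AWt_wsum_rep {X : Type} (n : X → ℤ) (y : X × Bool) (k : ℕ) :
    wsum n (List.replicate k y) = k * (if y.2 then n y.1 else -n y.1) := by
  induction k with
  | zero => simp [wsum]
  | succ k ih =>
    rw [List.replicate_succ, wsum, ih]
    push_cast
    ring

private theorem AWt_wsum_powL {X : Type} (b : X) (k : ℤ) : wsum (dl b) (powL b k) = k := by
  unfold powL
  rw [AWt_wsum_rep]
  have h1 : dl b b = 1 := by simp [dl]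
  simp only [h1, decide_eq_true_eq]
  split_ifs with h
  · rw [mul_one]
    omega
  · omega

private theorem AWt_powL_mem {X : Type} (b : X) (k : ℤ) (y : X × Bool) (h : y ∈ powL b k) :
    y.1 = b := by
  unfold powL at h
  rw [List.eq_of_mem_replicate h]

private theorem AWt_powL_ex {X : Type} (b : X) (k : ℤ) (h : k ≠ 0) : ∃ y ∈ powL b k, y.1 = b := by
  refine ⟨(b, decide (0 ≤ k)), ?_, rfl⟩
  unfold powL
  rw [List.mem_replicate]
  exact ⟨by omega, rfl⟩

private theorem AWt_mag_skip {X : Type} (b : X) (B T : List (X × Bool))
    (h : ∀ y ∈ B, y.1 = b) : mag b (B ++ T) = mag b T := by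
  induction B with
  | nil => rfl
  | cons y B ih =>
    rw [List.cons_append, mag, if_pos (h y List.mem_cons_self),
      ih fun z hz => h z (List.mem_cons_of_mem _ hz)]

theorem wsum_subL {X : Type} (n : X → ℤ) (b : X) (L : List (X × Bool)) :
    wsum (dl b) (subL n b L) = wsum n L := by
  induction L with
  | nil => rfl
  | cons y T ih =>
    rcases y with ⟨x, s⟩
    rw [subL, wsum, wsum_append, ih]
    congr 1
    by_cases hx : x = b
    · subst hx
      simp only [if_true]
      rw [AWt_wsum_powL]
    · have h0 : dl b x = 0 := by simp [dl, hx]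
      cases s
      · simp only [if_neg hx, Bool.false_eq_true, if_false]
        rw [wsum_append, AWt_wsum_powL, wsum, wsum, h0]
        simp
      · simp only [if_neg hx, if_true]
        rw [wsum, AWt_wsum_powL, h0]
        simp

theorem mag_subL {X : Type} (n : X → ℤ) (b : X) (L : List (X × Bool)) :
    mag b (subL n b L) = wt n b L := by
  induction L with
  | nil => rfl
  | cons y T ih =>
    rcases y with ⟨x, s⟩
    rw [subL, wt]
    by_cases hx : x = b
    · subst hx
      simp only [if_true]
      rw [AWt_mag_skip _ _ _ fun z hz => AWt_powL_mem _ _ _ hz, ih]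
    · cases s
      · simp only [if_neg hx, Bool.false_eq_true, if_false]
        rw [List.append_assoc, AWt_mag_skip _ _ _ fun z hz => AWt_powL_mem _ _ _ hz,
          List.singleton_append, mag, if_neg hx, ih, wsum_subL]
      · simp only [if_neg hx, if_true]
        rw [List.cons_append, mag, if_neg hx, wsum_append, AWt_wsum_powL, wsum_subL,
          AWt_mag_skip _ _ _ fun z hz => AWt_powL_mem _ _ _ hz, ih]

theorem subL_mem_b {X : Type} (n : X → ℤ) (b : X) (L : List (X × Bool))
    (h : ∃ y ∈ L, n y.1 ≠ 0) : ∃ y ∈ subL n b L, y.1 = b := by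
  induction L with
  | nil =>
    obtain ⟨y, hy, -⟩ := h
    exact absurd hy List.not_mem_nil
  | cons z T ih =>
    rw [subL]
    by_cases hT : ∃ y ∈ T, n y.1 ≠ 0
    · obtain ⟨y, hy, hyb⟩ := ih hT
      exact ⟨y, List.mem_append_right _ hy, hyb⟩
    · have hz : n z.1 ≠ 0 := by
        obtain ⟨y, hy, hn⟩ := h
        rcases List.mem_cons.1 hy with h1 | h1
        · rw [← h1]
          exact hn
        · exact absurd ⟨y, h1, hn⟩ hT
      rcases z with ⟨x, s⟩
      simp only at hz
      by_cases hx : x = b
      · subst hx
        simp only [if_true]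
        obtain ⟨y, hy, hyb⟩ := AWt_powL_ex x (if s = true then n x else -n x) (by
          split_ifs
          · exact hz
          · exact neg_ne_zero.2 hz)
        exact ⟨y, List.mem_append_left _ hy, hyb⟩
      · cases s
        · simp only [if_neg hx, Bool.false_eq_true, if_false]
          obtain ⟨y, hy, hyb⟩ := AWt_powL_ex b (-n x) (neg_ne_zero.2 hz)
          exact ⟨y, List.mem_append_left _ (List.mem_append_left _ hy), hyb⟩
        · simp only [if_neg hx, if_true]
          obtain ⟨y, hy, hyb⟩ := AWt_powL_ex b (n x) hz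
          exact ⟨y, List.mem_append_left _ (List.mem_cons_of_mem _ hy), hyb⟩

theorem subL_mem_c {X : Type} (n : X → ℤ) (b c : X) (hc : c ≠ b) (L : List (X × Bool))
    (h : ∃ y ∈ L, y.1 = c) : ∃ y ∈ subL n b L, y.1 = c := by
  induction L with
  | nil =>
    obtain ⟨y, hy, -⟩ := h
    exact absurd hy List.not_mem_nil
  | cons z T ih =>
    rw [subL]
    by_cases hT : ∃ y ∈ T, y.1 = c
    · obtain ⟨y, hy, hyb⟩ := ih hT
      exact ⟨y, List.mem_append_right _ hy, hyb⟩
    · have hz : z.1 = c := by
        obtain ⟨y, hy, hn⟩ := h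
        rcases List.mem_cons.1 hy with h1 | h1
        · rw [← h1]
          exact hn
        · exact absurd ⟨y, h1, hn⟩ hT
      rcases z with ⟨x, s⟩
      simp only at hz
      subst hz
      cases s
      · simp only [if_neg hc, Bool.false_eq_true, if_false]
        exact ⟨(x, false), List.mem_append_left _ (List.mem_append_right _ (List.mem_singleton.2 rfl)), rfl⟩
      · simp only [if_neg hc, if_true]
        exact ⟨(x, true), List.mem_append_left _ List.mem_cons_self, rfl⟩

theorem wt_length_le {X : Type} (n : X → ℤ) (b : X) (L : List (X × Bool)) :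
    (wt n b L).length ≤ L.length := by
  induction L with
  | nil => exact le_rfl
  | cons y T ih =>
    rw [wt]
    split_ifs
    · rw [List.length_cons]
      omega
    · rw [List.length_cons, List.length_cons]
      omega
    · rw [List.length_cons, List.length_cons]
      omega

theorem wt_length_lt {X : Type} (n : X → ℤ) (b : X) (L : List (X × Bool))
    (h : ∃ y ∈ L, y.1 = b) : (wt n b L).length < L.length := by
  induction L with
  | nil =>
    obtain ⟨y, hy, -⟩ := h
    exact absurd hy List.not_mem_nil
  | cons z T ih =>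
    by_cases hz : z.1 = b
    · rw [wt, if_pos hz, List.length_cons]
      have := wt_length_le n b T
      omega
    · have hT : ∃ y ∈ T, y.1 = b := by
        obtain ⟨y, hy, hn⟩ := h
        rcases List.mem_cons.1 hy with h1 | h1
        · rw [h1] at hn
          exact absurd hn hz
        · exact ⟨y, h1, hn⟩
      rw [wt, if_neg hz, List.length_cons, List.length_cons]
      have := ih hT
      omega

private theorem AWt_rep {X : Type} (b : X) (B : List (X × Bool))
    (hB : B.IsChain fun a b => a.1 = b.1 → a.2 = b.2) (hb : ∀ y ∈ B, y.1 = b) :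
    ∃ (σ : Bool) (k : ℕ), B = List.replicate k (b, σ) := by
  induction B with
  | nil => exact ⟨true, 0, rfl⟩
  | cons y B ih =>
    have hy : y.1 = b := hb y List.mem_cons_self
    rw [List.isChain_cons] at hB
    obtain ⟨σ, k, hk⟩ := ih hB.2 fun z hz => hb z (List.mem_cons_of_mem _ hz)
    rcases k with _ | k
    · refine ⟨y.2, 1, ?_⟩
      rw [hk, ← hy]
      rfl
    · refine ⟨σ, k + 1 + 1, ?_⟩
      have h1 := hB.1 (b, σ) (by rw [hk, List.replicate_succ]; rfl) hy
      rw [hk, List.replicate_succ (n := k + 1), show y = (b, σ) from Prod.ext hy h1]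

private theorem AWt_head {X : Type} (n : X → ℤ) (b : X) (L : List (X × Bool)) :
    wt n b L = [] ∨ ∃ (B : List (X × Bool)) (x : X) (s : Bool) (T : List (X × Bool)),
      L = B ++ (x, s) :: T ∧ (∀ y ∈ B, y.1 = b) ∧ x ≠ b ∧
      wt n b L = ((x, if s then -(n x + wsum n T) else -wsum n T), s) :: wt n b T := by
  induction L with
  | nil => exact Or.inl rfl
  | cons y L ih =>
    rcases y with ⟨x, s⟩
    by_cases hx : x = b
    · have e : wt n b ((x, s) :: L) = wt n b L := by rw [wt, if_pos hx]
      rw [e]
      rcases ih with h | ⟨B, x', s', T, h1, h2, h3, h4⟩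
      · exact Or.inl h
      · refine Or.inr ⟨(x, s) :: B, x', s', T, ?_, ?_, h3, h4⟩
        · rw [h1]
          rfl
        · intro z hz
          rcases List.mem_cons.1 hz with h5 | h5
          · rw [h5]
            exact hx
          · exact h2 z h5
    · refine Or.inr ⟨[], x, s, L, rfl, fun z hz => absurd hz List.not_mem_nil, hx, ?_⟩
      rw [wt, if_neg hx]

private theorem AWt_last {X : Type} (n : X → ℤ) (b : X) (L : List (X × Bool)) :
    ((∀ y ∈ L, y.1 = b) ∧ wt n b L = []) ∨
      ∃ (T : List (X × Bool)) (x : X) (s : Bool) (B : List (X × Bool))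
        (W : List ((X × ℤ) × Bool)),
      L = T ++ (x, s) :: B ∧ (∀ y ∈ B, y.1 = b) ∧ x ≠ b ∧
      wt n b L = W ++ [((x, if s then -(n x + wsum n B) else -wsum n B), s)] := by
  induction L with
  | nil => exact Or.inl ⟨fun z hz => absurd hz List.not_mem_nil, rfl⟩
  | cons y L ih =>
    rcases y with ⟨x, s⟩
    rcases ih with ⟨h, h'⟩ | ⟨T, x', s', B, W, h1, h2, h3, h4⟩
    · by_cases hx : x = b
      · refine Or.inl ⟨fun z hz => ?_, ?_⟩
        · rcases List.mem_cons.1 hz with h5 | h5
          · rw [h5]
            exact hx
          · exact h z h5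
        · rw [wt, if_pos hx, h']
      · refine Or.inr ⟨[], x, s, L, [], rfl, h, hx, ?_⟩
        rw [wt, if_neg hx, h']
        rfl
    · by_cases hx : x = b
      · refine Or.inr ⟨(x, s) :: T, x', s', B, W, ?_, h2, h3, ?_⟩
        · rw [h1]
          rfl
        · rw [wt, if_pos hx, h4]
      · refine Or.inr ⟨(x, s) :: T, x', s', B,
          ((x, if s then -(n x + wsum n L) else -wsum n L), s) :: W, ?_, h2, h3, ?_⟩
        · rw [h1]
          rfl
        · rw [wt, if_neg hx, h4]
          rfl

private theorem AWt_red {X : Type} (n : X → ℤ) (b : X) (hb : n b ≠ 0) (L : List (X × Bool))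
    (hL : L.IsChain fun a b => a.1 = b.1 → a.2 = b.2) :
    (wt n b L).IsChain fun a b => a.1 = b.1 → a.2 = b.2 := by
  induction L with
  | nil => exact List.IsChain.nil
  | cons y L ih =>
    rcases y with ⟨x, s⟩
    have hL' := hL
    rw [List.isChain_cons] at hL
    have ih := ih hL.2
    by_cases hx : x = b
    · rw [wt, if_pos hx]
      exact ih
    · rw [wt, if_neg hx, List.isChain_cons]
      refine ⟨?_, ih⟩
      rcases AWt_head n b L with h | ⟨B, x', s', T, h1, h2, h3, h4⟩
      · rw [h]
        intro z hz
        exact absurd hz (by simp)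
      · rw [h4]
        intro z hz
        have hz' : z = ((x', if s' then -(n x' + wsum n T) else -wsum n T), s') := by
          simpa using hz.symm
        subst hz'
        intro h5
        simp only at h5 ⊢
        by_contra hs
        have h6 : x = x' := congrArg Prod.fst h5
        have h7 : (if s then -(n x + wsum n L) else -wsum n L) =
          (if s' then -(n x' + wsum n T) else -wsum n T) := congrArg Prod.snd h5
        subst h6
        have hB0 : wsum n B = 0 := by
          have h8 : wsum n L = wsum n B + ((if s' then n x else -n x) + wsum n T) := by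
            rw [h1, wsum_append]
            rfl
          rw [h8] at h7
          cases s <;> cases s' <;> simp at h7 hs <;> omega
        have hBc : B.IsChain fun a b => a.1 = b.1 → a.2 = b.2 := by
          have := hL.2
          rw [h1] at this
          exact this.left_of_append
        obtain ⟨σ, k, hk⟩ := AWt_rep b B hBc h2
        have hk0 : k = 0 := by
          rw [hk, AWt_wsum_rep] at hB0
          rcases mul_eq_zero.1 hB0 with h9 | h9
          · exact_mod_cast h9
          · exfalso
            simp only at h9
            split_ifs at h9 <;> omega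
        rw [hk0, List.replicate_zero] at hk
        rw [h1, hk, List.nil_append] at hL'
        rw [List.isChain_cons_cons] at hL'
        exact hs (hL'.1 rfl)

theorem wt_cyc {X : Type} (n : X → ℤ) (b : X) (hb : n b ≠ 0) (L : List (X × Bool))
    (hL : FreeGroup.IsCyclicallyReduced L) (h0 : wsum n L = 0) :
    FreeGroup.IsCyclicallyReduced (wt n b L) := by
  obtain ⟨hr, hc⟩ := hL
  have hr' : L.IsChain fun a b => a.1 = b.1 → a.2 = b.2 := hr
  refine ⟨AWt_red n b hb L hr', ?_⟩
  rcases AWt_head n b L with h | ⟨B₁, x, s, T, h1, h2, h3, h4⟩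
  · rw [h]
    intro a ha
    exact absurd ha (by simp)
  rcases AWt_last n b L with ⟨-, h⟩ | ⟨T', x', s', B₂, W, h1', h2', h3', h4'⟩
  · rw [h]
    intro a ha
    exact absurd ha (by simp)
  intro a ha c hc'
  have ha' : a = ((x', if s' then -(n x' + wsum n B₂) else -wsum n B₂), s') := by
    rw [h4', List.getLast?_concat] at ha
    simpa using ha.symm
  have hc2 : c = ((x, if s then -(n x + wsum n T) else -wsum n T), s) := by
    rw [h4] at hc'
    simpa using hc'.symm
  subst ha' hc2
  intro h5
  simp only at h5 ⊢
  by_contra hs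
  have h6 : x' = x := congrArg Prod.fst h5
  have h7 : (if s' then -(n x' + wsum n B₂) else -wsum n B₂) =
    (if s then -(n x + wsum n T) else -wsum n T) := congrArg Prod.snd h5
  subst h6
  have h8 : wsum n B₁ + ((if s then n x' else -n x') + wsum n T) = 0 := by
    rw [← h0, h1, wsum_append]
    rfl
  have hsum : wsum n B₁ + wsum n B₂ = 0 := by
    cases s <;> cases s' <;> simp at h7 hs h8 <;> omega
  have hB₁c : B₁.IsChain fun a b => a.1 = b.1 → a.2 = b.2 := by
    rw [h1] at hr'
    exact hr'.left_of_append
  have hB₂c : B₂.IsChain fun a b => a.1 = b.1 → a.2 = b.2 := by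
    rw [h1'] at hr'
    have := hr'.right_of_append
    rw [List.isChain_cons] at this
    exact this.2
  obtain ⟨σ₁, k₁, hk₁⟩ := AWt_rep b B₁ hB₁c h2
  obtain ⟨σ₂, k₂, hk₂⟩ := AWt_rep b B₂ hB₂c h2'
  have hs12 : (k₁ : ℤ) * (if σ₁ then n b else -n b) + k₂ * (if σ₂ then n b else -n b) = 0 := by
    rw [hk₁, hk₂, AWt_wsum_rep, AWt_wsum_rep] at hsum
    exact hsum
  have hne : ∀ σ : Bool, (if σ = true then n b else -n b) ≠ 0 := by
    intro σ
    split_ifs <;> omega
  have hk : k₁ = 0 ∧ k₂ = 0 := by
    by_cases hk1 : k₁ = 0
    · refine ⟨hk1, ?_⟩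
      rw [hk1, Nat.cast_zero, zero_mul, zero_add] at hs12
      rcases mul_eq_zero.1 hs12 with h9 | h9
      · exact_mod_cast h9
      · exact absurd h9 (hne σ₂)
    · by_cases hk2 : k₂ = 0
      · exfalso
        rw [hk2, Nat.cast_zero, zero_mul, add_zero] at hs12
        rcases mul_eq_zero.1 hs12 with h9 | h9
        · exact hk1 (by exact_mod_cast h9)
        · exact absurd h9 (hne σ₁)
      · exfalso
        obtain ⟨m₁, rfl⟩ := Nat.exists_eq_succ_of_ne_zero hk1
        obtain ⟨m₂, rfl⟩ := Nat.exists_eq_succ_of_ne_zero hk2
        have hl : L.getLast? = some (b, σ₂) := by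
          rw [h1', hk₂, List.replicate_succ']
          rw [show T' ++ (x', s') :: (List.replicate m₂ (b, σ₂) ++ [(b, σ₂)]) =
            (T' ++ (x', s') :: List.replicate m₂ (b, σ₂)) ++ [(b, σ₂)] by simp]
          rw [List.getLast?_concat]
        have hh : L.head? = some (b, σ₁) := by
          rw [h1, hk₁, List.replicate_succ]
          rfl
        have hσ : σ₂ = σ₁ := hc (b, σ₂) hl (b, σ₁) hh rfl
        subst hσ
        rw [← add_mul] at hs12
        rcases mul_eq_zero.1 hs12 with h9 | h9
        · push_cast at h9
          omega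
        · exact absurd h9 (hne σ₂)
  have hl : L.getLast? = some (x', s') := by
    rw [h1', hk₂, hk.2, List.replicate_zero, List.getLast?_concat]
  have hh : L.head? = some (x', s) := by
    rw [h1, hk₁, hk.1]
    rfl
  exact hs (hc (x', s') hl (x', s) hh rfl)

end ORel
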