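import Pool.Agent.Lib_MP_051624_all.AHnn
import Pool.Agent.Lib_MP_051624_all.ASubB
import Pool.Agent.Lib_MP_051624_all.AEmb
import Pool.Agent.Lib_MP_051624_all.AWt
import Pool.Agent.Lib_MP_051624_all.AWei
import Pool.Agent.Lib_MP_051624_all.ABase

/-!
# The induction on the length of the relator

`step_down`: if weights with a deleted letter exist, the rewritten word `wt n b L` is shorter and
cyclically reduced. Then `hnn` with `t = b` for the word `subL n b L`, and `sub_step`.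

`main`: strong induction on the length, for all alphabets simultaneously.
-/

open Equiv

namespace ORel

theorem PP_of_PPD {X : Type} (b c : X) (L : List (X × Bool)) (hb : ∃ y ∈ L, y.1 = b)
    (h : PPD {b} L c) : PP L c := by
  obtain ⟨R₀, hR⟩ := h
  refine ⟨R₀, fun S hS _ hL => hR S hS ?_ hL⟩
  obtain ⟨y, hy, rfl⟩ := hb
  exact Set.singleton_subset_iff.2 (hL y hy)

theorem step_down {X : Type} (L : List (X × Bool)) (hL : FreeGroup.IsCyclicallyReduced L) (c : X)
    (hc : ∃ y ∈ L, y.1 = c) (n : X → ℤ) (b : X) (hb : ∃ y ∈ L, y.1 = b) (hbc : b ≠ c)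
    (hn : n b ≠ 0) (h0 : wsum n L = 0)
    (IH : ∀ y ∈ wt n b L, PP (wt n b L) y.1) : PP L c := by
  refine PP_of_PPD b c L hb (sub_step n b c hn hbc.symm L ?_)
  refine hnn b c hbc (subL n b L) ?_ ?_ (subL_mem_c n b c hbc.symm L hc) ?_
  · rw [wsum_subL, h0]
  · obtain ⟨y, hy, hyb⟩ := hb
    exact subL_mem_b n b L ⟨y, hy, by rw [hyb]; exact hn⟩
  · rw [mag_subL]
    exact fun y hy _ => IH y hy

/-- The condition of `exists_weight`. -/
private def Wcond {X : Type} (L : List (X × Bool)) (c : X) : Prop :=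
  (∃ b, b ≠ c ∧ (∃ y ∈ L, y.1 = b) ∧ (wsum (dl b) L = 0 ∨ wsum (dl c) L ≠ 0)) ∨
      ∃ b₁ b₂, b₁ ≠ b₂ ∧ b₁ ≠ c ∧ b₂ ≠ c ∧ (∃ y ∈ L, y.1 = b₁) ∧ ∃ y ∈ L, y.1 = b₂

private theorem main_step {m : ℕ} (IH : ∀ k < m, ∀ (X : Type) (L : List (X × Bool)),
    L.length = k → FreeGroup.IsCyclicallyReduced L → ∀ y ∈ L, PP L y.1) {X : Type}
    (L : List (X × Bool)) (hm : L.length ≤ m) (hL : FreeGroup.IsCyclicallyReduced L) (c : X)
    (hc : ∃ y ∈ L, y.1 = c) (hw : Wcond L c) : PP L c := by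
  obtain ⟨n, b, hb, hbc, hn, h0⟩ := exists_weight L c hw
  refine step_down L hL c hc n b hb hbc hn h0 ?_
  exact IH _ ((wt_length_lt n b L hb).trans_le hm) _ _ rfl (wt_cyc n b hn L hL h0)

theorem main (m : ℕ) : ∀ (X : Type) (L : List (X × Bool)), L.length = m →
    FreeGroup.IsCyclicallyReduced L → ∀ y ∈ L, PP L y.1 := by
  classical
  induction m using Nat.strong_induction_on with
  | _ m IH =>
  intro X L hm hL y₀ hy₀
  set c : X := y₀.1 with hc
  have hcL : ∃ y ∈ L, y.1 = c := ⟨y₀, hy₀, rfl⟩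
  by_cases hw : Wcond L c
  · exact main_step IH L hm.le hL c hcL hw
  by_cases hall : ∀ y ∈ L, y.1 = c
  · obtain ⟨s, hs⟩ := all_c L hL.1 c hall
    rw [hs]
    exact base_case c s L.length (List.length_pos_of_mem hy₀)
  · push Not at hall
    obtain ⟨y₁, hy₁, hne⟩ := hall
    set b : X := y₁.1 with hb
    have hbL : ∃ y ∈ L, y.1 = b := ⟨y₁, hy₁, rfl⟩
    have hlet : ∀ y ∈ L, y.1 = b ∨ y.1 = c := by
      intro y hy
      by_contra hcon
      rw [not_or] at hcon
      exact hw (Or.inr ⟨y.1, b, hcon.1, hcon.2, hne, ⟨y, hy, rfl⟩, hbL⟩)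
    have hz : wsum (dl c) L = 0 := by
      by_contra hcon
      exact hw (Or.inl ⟨b, hne, hbL, Or.inr hcon⟩)
    set n : Option X → ℤ := fun o => if o = none ∨ o = some c then 1 else 0 with hn
    obtain ⟨h0, hcyc, h₁, h₂, h12, ⟨z₁, hz₁, hz₁'⟩, ⟨z₂, hz₂, hz₂'⟩⟩ :=
      case4 L hL b c hne hlet hbL hcL hz n hn
    have hnn0 : n none ≠ 0 := by
      rw [hn]
      simp
    have hnc : n (some c) ≠ 0 := by
      rw [hn]
      simp
    have hcL' : ∃ y ∈ wmap some L, y.1 = some c := by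
      refine ⟨(some y₀.1, y₀.2), ?_, rfl⟩
      exact List.mem_map.2 ⟨y₀, hy₀, rfl⟩
    have hcb : (some c : Option X) ≠ none := Option.some_ne_none c
    refine emb_step L c (sub_step n none (some c) hnn0 hcb (wmap some L) ?_)
    refine hnn none (some c) hcb.symm (subL n none (wmap some L)) ?_ ?_
      (subL_mem_c n none (some c) hcb _ hcL') ?_
    · rw [wsum_subL, h0]
    · obtain ⟨y, hy, hyc⟩ := hcL'
      exact subL_mem_b n none _ ⟨y, hy, by rw [hyc]; exact hnc⟩
    · rw [mag_subL]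
      intro y hy hyc
      refine main_step IH (wt n none (wmap some L)) ?_ (wt_cyc n none hnn0 _ hcyc h0) y.1
        ⟨y, hy, rfl⟩ (Or.inr ⟨(some b, h₁), (some b, h₂), ?_, ?_, ?_, ⟨z₁, hz₁, hz₁'⟩,
          ⟨z₂, hz₂, hz₂'⟩⟩)
      · refine (wt_length_le n none _).trans ?_
        rw [← hm]
        unfold wmap
        rw [List.length_map]
      · exact fun h => h12 (Prod.ext_iff.1 h).2
      · intro h
        rw [← h] at hyc
        exact hne (Option.some.inj hyc)
      · intro h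
        rw [← h] at hyc
        exact hne (Option.some.inj hyc)

end ORel
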