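import Pool.Agent.Lib_MP_051624_all.ASolv

/-!
# Elementary facts about models

* `CSol.pull`, `Cert.pull`, `win_pull`: solvability, certificates and separation from windows pass
  to covers `p : Ω → Z` (`Triv p`, equivariant for the letters of `S`): for `CSol` compose the
  projections (`Triv.comp`); for `Cert` use `h ∘ p`, `bad ∘ p` (`Small.comp_triv`,
  `equivariant_wd`; the elements `bpt (c, b) T` are in `Wd S`); for the windows note that
  `θ' d ω = θ' e ω` implies `θ d (p ω) = θ e (p ω)`.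
* `Mod.prod`: take the models `Z₁`, `Z₂` for `ε / 2` and the diagonal action on `Z₁ × Z₂`
  (`fun w => Equiv.prodCongr (θ₁ w) (θ₂ w)`); the projections are `Triv` and equivariant for all
  letters, and all properties pass to the product; the relators move at most
  `ε / 2 + ε / 2` of the points.
* `Mod.addSol`: `cert_csol` in the same model.
-/

open Equiv

namespace ORel

theorem CSol.mono {X Z : Type} {S : Set X} {θ : FreeGroup X →* Perm Z}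
    {R : Set (List (X × Bool))} {U : Set X} {ε δ : ℝ} (h : CSol S θ R U ε) (hε : ε ≤ δ) :
    CSol S θ R U δ := by
  intro Ω hΩ θ' p hp he Γ hΓ g₀
  obtain ⟨g, h1, h2⟩ := h Ω θ' p hp he Γ g₀
  exact ⟨g, h1, fun L hL => (h2 L hL).mono (fun _ hz => hz) hε⟩

theorem Cert.mono {X Z : Type} {θ : FreeGroup X →* Perm Z} {L : List (X × Bool)} {c : X}
    {R₀ : FreeGroup X} {ε δ : ℝ} [Finite Z] (h : Cert θ L c R₀ ε) (hε : ε ≤ δ) :
    Cert θ L c R₀ δ := by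
  obtain ⟨r, bad, h1, h2⟩ := h
  exact ⟨r, bad, h1.mono (fun _ hz => hz) hε, h2⟩

theorem CSol.pull {X Z Ω : Type} {S : Set X} {θ : FreeGroup X →* Perm Z}
    {θ' : FreeGroup X →* Perm Ω} {p : Ω → Z} (hp : Triv p)
    (he : ∀ x ∈ S, ∀ ω, p (θ' (FreeGroup.of x) ω) = θ (FreeGroup.of x) (p ω))
    {R : Set (List (X × Bool))} {U : Set X} {ε : ℝ} (h : CSol S θ R U ε) :
    CSol S θ' R U ε := by
  intro Ω₂ hΩ₂ θ₂ p₂ hp₂ he₂ Γ hΓ g₀
  refine h Ω₂ θ₂ (p ∘ p₂) (hp.comp hp₂) ?_ Γ g₀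
  intro x hx ω
  rw [Function.comp_apply, Function.comp_apply, he₂ x hx ω, he x hx]

private theorem aMod_bpt {X : Type} {S : Set X} {L T : List (X × Bool)} {y : X × Bool}
    (hL : ∀ y ∈ L, y.1 ∈ S) (h : (y :: T) <:+ L) : bpt y T ∈ Wd S := by
  have h1 : ∀ z ∈ y :: T, z.1 ∈ S := fun z hz => hL z (h.mem hz)
  unfold bpt
  split_ifs
  · exact mk_mem_wd T fun z hz => h1 z (List.mem_cons_of_mem _ hz)
  · exact mk_mem_wd (y :: T) h1

private theorem aMod_fin {Ω Z : Type} [Finite Ω] {p : Ω → Z} (hp : Triv p) : Finite Z := by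
  obtain ⟨K, hK, hK', e, he⟩ := hp
  have h1 : Finite (Z × K) := Finite.of_equiv Ω e
  exact Finite.prod_left K

theorem Cert.pull {X Z Ω : Type} [Finite Ω] {S : Set X} {θ : FreeGroup X →* Perm Z}
    {θ' : FreeGroup X →* Perm Ω} {p : Ω → Z} (hp : Triv p)
    (he : ∀ x ∈ S, ∀ ω, p (θ' (FreeGroup.of x) ω) = θ (FreeGroup.of x) (p ω))
    {L : List (X × Bool)} (hL : ∀ y ∈ L, y.1 ∈ S) {c : X} {R₀ : FreeGroup X} {ε : ℝ}
    (h : Cert θ L c R₀ ε) : Cert θ' L c R₀ ε := by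
  have hZ : Finite Z := aMod_fin hp
  obtain ⟨r, bad, h1, h2⟩ := h
  refine ⟨fun ω => r (p ω), fun ω => bad (p ω), h1.comp_triv hp, ?_⟩
  intro ω hω
  obtain ⟨b, T, h3, h4, h5⟩ := h2 (p ω) hω
  refine ⟨b, T, h3, h4, fun b' T' h6 h7 => ?_⟩
  have h8 := h5 b' T' h6 h7
  rw [← equivariant_wd he (aMod_bpt hL h6) ω, ← equivariant_wd he (aMod_bpt hL h3) ω] at h8
  exact h8

theorem win_pull {X Z Ω : Type} [Finite Ω] {S V : Set X} (hV : V ⊆ S)
    {θ : FreeGroup X →* Perm Z} {θ' : FreeGroup X →* Perm Ω} {p : Ω → Z} (hp : Triv p)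
    (he : ∀ x ∈ S, ∀ ω, p (θ' (FreeGroup.of x) ω) = θ (FreeGroup.of x) (p ω))
    {e : FreeGroup X} (heS : e ∈ Wd S) {ε : ℝ}
    (h : Small (fun z => ∃ d ∈ Wd V, θ d z = θ e z) ε) :
    Small (fun ω => ∃ d ∈ Wd V, θ' d ω = θ' e ω) ε := by
  have hZ : Finite Z := aMod_fin hp
  refine (h.comp_triv hp).mono ?_ le_rfl
  rintro ω ⟨d, hd, h1⟩
  refine ⟨d, hd, ?_⟩
  rw [← equivariant_wd he (wd_mono hV hd) ω, ← equivariant_wd he heS ω, h1]

theorem Mod.mono {X : Type} {S : Set X} {R : Set (List (X × Bool))} {Vs Us Vs' Us' : Set (Set X)}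
    {Cs Cs' : Set (List (X × Bool) × X × FreeGroup X)} (h : Mod S R Vs Us Cs) (hV : Vs' ⊆ Vs)
    (hU : Us' ⊆ Us) (hC : Cs' ⊆ Cs) : Mod S R Vs' Us' Cs' := by
  intro E ε hε
  obtain ⟨Z, h1, h2, θ, h3, h4, h5, h6⟩ := h E ε hε
  exact ⟨Z, h1, h2, θ, h3, fun V hV' => h4 V (hV hV'), fun U hU' => h5 U (hU hU'),
    fun C hC' => h6 C (hC hC')⟩

private def aMod_dia {X Z₁ Z₂ : Type} (θ₁ : FreeGroup X →* Perm Z₁) (θ₂ : FreeGroup X →* Perm Z₂) :
    FreeGroup X →* Perm (Z₁ × Z₂) where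
  toFun w := Equiv.prodCongr (θ₁ w) (θ₂ w)
  map_one' := by
    ext a <;> simp
  map_mul' u v := by
    ext a <;> simp

private theorem aMod_dia_apply {X Z₁ Z₂ : Type} (θ₁ : FreeGroup X →* Perm Z₁)
    (θ₂ : FreeGroup X →* Perm Z₂) (w : FreeGroup X) (a : Z₁ × Z₂) :
    aMod_dia θ₁ θ₂ w a = (θ₁ w a.1, θ₂ w a.2) := rfl

private theorem aMod_fst (Z₁ Z₂ : Type) [Finite Z₂] [Nonempty Z₂] : Triv (Prod.fst : Z₁ × Z₂ → Z₁) :=
  ⟨Z₂, inferInstance, inferInstance, Equiv.refl _, fun _ => rfl⟩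

private theorem aMod_snd (Z₁ Z₂ : Type) [Finite Z₁] [Nonempty Z₁] : Triv (Prod.snd : Z₁ × Z₂ → Z₂) :=
  ⟨Z₁, inferInstance, inferInstance, Equiv.prodComm Z₁ Z₂, fun _ => rfl⟩

theorem Mod.prod {X : Type} {S : Set X} {R : Set (List (X × Bool))} {Vs Us Vs' Us' : Set (Set X)}
    {Cs Cs' : Set (List (X × Bool) × X × FreeGroup X)} (h : Mod S R Vs Us Cs)
    (h' : Mod S R Vs' Us' Cs') : Mod S R (Vs ∪ Vs') (Us ∪ Us') (Cs ∪ Cs') := by
  intro E ε hε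
  obtain ⟨Z₁, f1, n1, θ₁, a1, a2, a3, a4⟩ := h E (ε / 2) (by linarith)
  obtain ⟨Z₂, f2, n2, θ₂, b1, b2, b3, b4⟩ := h' E (ε / 2) (by linarith)
  have t1 : Triv (Prod.fst : Z₁ × Z₂ → Z₁) := aMod_fst Z₁ Z₂
  have t2 : Triv (Prod.snd : Z₁ × Z₂ → Z₂) := aMod_snd Z₁ Z₂
  have hle : ε / 2 ≤ ε := by linarith
  refine ⟨Z₁ × Z₂, inferInstance, inferInstance, aMod_dia θ₁ θ₂, ?_, ?_, ?_, ?_⟩
  · intro L hL
    have h1 := ((a1 L hL).comp_triv t1).or ((b1 L hL).comp_triv t2)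
    refine h1.mono ?_ (by linarith)
    intro z hz
    by_contra h2
    push Not at h2
    apply hz
    rw [aMod_dia_apply, h2.1, h2.2]
  · rintro V (hV | hV) e he heS hne
    · refine ((a2 V hV e he heS hne).comp_triv t1).mono ?_ hle
      rintro z ⟨d, hd, h1⟩
      exact ⟨d, hd, congrArg Prod.fst h1⟩
    · refine ((b2 V hV e he heS hne).comp_triv t2).mono ?_ hle
      rintro z ⟨d, hd, h1⟩
      exact ⟨d, hd, congrArg Prod.snd h1⟩
  · rintro U (hU | hU)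
    · exact ((a3 U hU).pull t1 fun x _ ω => rfl).mono hle
    · exact ((b3 U hU).pull t2 fun x _ ω => rfl).mono hle
  · rintro C (hC | hC)
    · exact ((a4 C hC).pull (S := Set.univ) t1 (fun x _ ω => rfl) fun y _ => Set.mem_univ _).mono hle
    · exact ((b4 C hC).pull (S := Set.univ) t2 (fun x _ ω => rfl) fun y _ => Set.mem_univ _).mono hle

theorem Mod.addSol {X : Type} {S : Set X} {L : List (X × Bool)} (hL : ∀ y ∈ L, y.1 ∈ S)
    {Vs Us : Set (Set X)} {Cs : Set (List (X × Bool) × X × FreeGroup X)} {c : X}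
    {R₀ : FreeGroup X} (h : Mod S {L} Vs Us Cs) (hc : (L, c, R₀) ∈ Cs) :
    Mod S {L} Vs (insert {c} Us) Cs := by
  intro E ε hε
  obtain ⟨Z, h1, h2, θ, h3, h4, h5, h6⟩ := h E ε hε
  refine ⟨Z, h1, h2, θ, h3, h4, ?_, h6⟩
  rintro U (rfl | hU)
  · exact cert_csol S θ L hL c R₀ ε (h6 _ hc)
  · exact h5 U hU

end ORel
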