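import Pool.Agent.Lib_MP_051624_all.AMod
import Pool.Agent.Lib_MP_051624_or.OHall

/-!
# Smaller windows

Proof of `Mod.shrink`. Let `E`, `ε` be given. Write `NC` for the normal closure of `mk '' R`. For
every `e ∈ E` with `e ∈ Wd V' ⊔ NC` choose `e' ∈ Wd V'` with `e⁻¹ * e' ∈ NC`
(`Subgroup.mem_sup_of_normal_right` or similar), and let `C` be a common constant of
`nc_bound` for the elements `e⁻¹ * e'`. For every such `e'` with `e' ∉ Wd V` there is, by `mhall`
(`Wd V` is generated by the finite set `of '' V`), a finite quotient with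
`q e' ∉ (Wd V).map q`; by `fin_sep` (with `K = ∅`) there is one finite quotient
`q : FreeGroup X →* Q` for all of them. Let `δ > 0` with `2 * δ ≤ ε`, `C * (2 * δ) ≤ ε`, and let
`Z, θ` be the model for `E` and `δ`. Apply `CSol` for `U` to the cover `Ω = Z`, `p = id`
(`triv_id`), the group `Q` and the constant cocycle `fun x _ => q (of x)`: there is
`g : X → Z → Q` with `g x z = q (of x)` for `x ∉ U`, in particular for `x ∈ V'`. The new model is
`Z × Q` with `skew θ g`. The projection to `Z` is `Triv` and equivariant for all letters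
(`skew_apply`), so the old windows, `CSol` and the certificates pass to the new model
(`CSol.pull`, `Cert.pull` with `S = univ` or `S`, `CSol.mono`, ...; for the windows argue directly
as in `win_pull`, all letters are equivariant).
* Relators: `skew θ g (mk L) (z, a) = (θ (mk L) z, val θ g L z * a)` (`skew_mk`) is `(z, a)` unless
  `θ (mk L) z ≠ z` or (`θ (mk L) z = z` and `val θ g L z ≠ 1`): proportion at most `2 * δ`.
* The window `V`: let `e ∈ E`, `e ∈ Wd S`, `e ∉ Wd V ⊔ NC`. If `e ∉ Wd V' ⊔ NC` then the set for `V`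
  is contained in the set for `V'`. Otherwise `e' ∈ Wd V'`, `e' ∉ Wd V` (since
  `e⁻¹ * e' ∈ NC`), and if `skew θ g d ω = skew θ g e ω` with `d ∈ Wd V ≤ Wd V'`, `ω = (z, a)`,
  then either `skew θ g (e⁻¹ * e') ω ≠ ω` (proportion at most `C * (2 * δ)`), or
  `skew θ g d ω = skew θ g e' ω`, and then, by `cval_const`, `q d * a = q e' * a`, so
  `q e' = q d ∈ (Wd V).map q`, a contradiction.
-/

open Equiv

namespace ORel

theorem Mod.shrink {X : Type} {S V' V U : Set X} {R : Set (List (X × Bool))}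
    {Vs Us : Set (Set X)} {Cs : Set (List (X × Bool) × X × FreeGroup X)}
    (h : Mod S R Vs Us Cs) (hV' : V' ∈ Vs) (hU : U ∈ Us) (hd : Disjoint U V') (hVV : V ⊆ V')
    (hfin : V.Finite) : Mod S R (insert V Vs) Us Cs := by
  classical
  intro E ε hε
  -- the elements `e'` and the constants
  have hdata : ∀ e : FreeGroup X, ∃ (e' : FreeGroup X) (C : ℕ),
      e ∈ Wd V' ⊔ Subgroup.normalClosure (FreeGroup.mk '' R) →
      e' ∈ Wd V' ∧ e⁻¹ * e' ∈ Subgroup.normalClosure (FreeGroup.mk '' R) ∧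
      ∀ (Z : Type) [Finite Z] (θ : FreeGroup X →* Perm Z) (δ : ℝ), 0 ≤ δ →
      (∀ L ∈ R, Small (fun z => θ (FreeGroup.mk L) z ≠ z) δ) →
        Small (fun z => θ (e⁻¹ * e') z ≠ z) (C * δ) := by
    intro e
    by_cases he : e ∈ Wd V' ⊔ Subgroup.normalClosure (FreeGroup.mk '' R)
    · obtain ⟨y, hy, z, hz, hyz⟩ := Subgroup.mem_sup_of_normal_right.1 he
      have h1 : e⁻¹ * y = z⁻¹ := by
        rw [← hyz]
        group
      have h2 : e⁻¹ * y ∈ Subgroup.normalClosure (FreeGroup.mk '' R) := by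
        rw [h1]
        exact Subgroup.inv_mem _ hz
      obtain ⟨C, hC⟩ := nc_bound R _ h2
      exact ⟨y, C, fun _ => ⟨hy, h2, hC⟩⟩
    · exact ⟨1, 0, fun h => absurd h he⟩
  choose e' C hdata using hdata
  -- the finite quotient
  obtain ⟨Q, hQ, hQf, q, -, hq⟩ := fin_sep (∅ : Set (FreeGroup X))
    ((fun e => (e' e, Wd V)) ''
      {e | e ∈ E ∧ e ∈ Wd V' ⊔ Subgroup.normalClosure (FreeGroup.mk '' R) ∧
        e ∉ Wd V ⊔ Subgroup.normalClosure (FreeGroup.mk '' R)})
    ((E.finite_toSet.subset fun e he => he.1).image _) (by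
      rintro _ ⟨e, ⟨_, he2, he3⟩, rfl⟩
      obtain ⟨h1, h2, -⟩ := hdata e he2
      have h4 : e' e ∉ Wd V := by
        intro h5
        apply he3
        have h6 : e = e' e * (e⁻¹ * e' e)⁻¹ := by group
        rw [h6]
        exact Subgroup.mul_mem _ (Subgroup.mem_sup_left h5)
          (Subgroup.mem_sup_right (Subgroup.inv_mem _ h2))
      have h6 : Subgroup.closure
          (((hfin.image FreeGroup.of).toFinset : Finset (FreeGroup X)) : Set (FreeGroup X)) =
          Wd V := by
        rw [Set.Finite.coe_toFinset]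
        rfl
      obtain ⟨Q, hQ1, hQ2, q, hq⟩ := mhall (hfin.image FreeGroup.of).toFinset (e' e) (by
        rw [h6]
        exact h4)
      rw [h6] at hq
      exact ⟨Q, hQ1, hQ2, q, fun k hk => absurd hk (by simp), hq⟩)
  -- the model
  set K : ℕ := ∑ e ∈ E, C e with hK
  have hK0 : (0 : ℝ) ≤ K := Nat.cast_nonneg K
  set δ : ℝ := ε / (2 * (K + 1)) with hδ
  have hδ0 : 0 < δ := by positivity
  have hδe : δ * (2 * (K + 1)) = ε := by
    rw [hδ]
    field_simp
  have hδ1 : 2 * δ ≤ ε := by nlinarith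
  have hδ2 : ∀ e ∈ E, (C e : ℝ) * (2 * δ) ≤ ε := by
    intro e he
    have h1 : C e ≤ K := Finset.single_le_sum (f := C) (fun _ _ => Nat.zero_le _) he
    have h2 : (C e : ℝ) ≤ K := by exact_mod_cast h1
    nlinarith
  obtain ⟨Z, hZ, hZn, θ, h3, h4, h5, h6⟩ := h E δ hδ0
  obtain ⟨g, hg1, hg2⟩ := h5 U hU Z θ id (triv_id Z) (fun _ _ _ => rfl) Q
    (fun x _ => q (FreeGroup.of x))
  have hgV : ∀ x ∈ V', ∀ z, g x z = q (FreeGroup.of x) := by
    intro x hx z
    rw [hg1 x fun hxU => Set.disjoint_left.1 hd hxU hx]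
  have htriv : Triv (Prod.fst : Z × Q → Z) := ⟨Q, hQf, ⟨1⟩, Equiv.refl _, fun _ => rfl⟩
  have heq : ∀ (x : X) (ω : Z × Q),
      Prod.fst (skew θ g (FreeGroup.of x) ω) = θ (FreeGroup.of x) (Prod.fst ω) := by
    rintro x ⟨z, a⟩
    rw [skew_of]
  have hrel : ∀ L ∈ R, Small (fun ω : Z × Q => skew θ g (FreeGroup.mk L) ω ≠ ω) (2 * δ) := by
    intro L hL
    have h7 := ((h3 L hL).or (hg2 L hL)).comp_triv htriv
    refine h7.mono ?_ (by linarith)
    rintro ⟨z, a⟩ hz
    by_contra hcon
    push Not at hcon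
    apply hz
    have h8 : θ (FreeGroup.mk L) z = z := hcon.1
    have h9 : val θ g L z = 1 := hcon.2 h8
    rw [skew_mk, h8, h9, one_mul]
  refine ⟨Z × Q, inferInstance, inferInstance, skew θ g, ?_, ?_, ?_, ?_⟩
  · intro L hL
    exact (hrel L hL).mono (fun _ h => h) hδ1
  · intro W hW e he heS heW
    rcases Set.mem_insert_iff.1 hW with hWV | hW
    · rw [hWV] at heW ⊢
      by_cases he2 : e ∈ Wd V' ⊔ Subgroup.normalClosure (FreeGroup.mk '' R)
      · obtain ⟨k1, _, k3⟩ := hdata e he2
        have k4 := k3 (Z × Q) (skew θ g) (2 * δ) (by positivity) hrel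
        refine k4.mono ?_ (hδ2 e he)
        rintro ⟨z, a⟩ ⟨d, hdV, hdz⟩ hfix
        have k5 : skew θ g (e' e) (z, a) = skew θ g e (z, a) := by
          have h7 : skew θ g (e * (e⁻¹ * e' e)) (z, a) = skew θ g e (z, a) := by
            rw [map_mul, Perm.mul_apply, hfix]
          rw [mul_inv_cancel_left] at h7
          exact h7
        rw [← k5, skew_apply, skew_apply] at hdz
        have k6 : cval θ g d z * a = cval θ g (e' e) z * a := congrArg Prod.snd hdz
        have k7 := mul_right_cancel k6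
        rw [cval_const θ g V' q hgV d (wd_mono hVV hdV) z,
          cval_const θ g V' q hgV (e' e) k1 z] at k7
        exact hq _ ⟨e, ⟨he, he2, heW⟩, rfl⟩ ⟨d, hdV, k7⟩
      · refine (win_pull (S := Set.univ) (V := V') (Set.subset_univ _) htriv
          (fun x _ ω => heq x ω) (wd_mono (Set.subset_univ S) heS) (h4 V' hV' e he heS he2)).mono
          ?_ (by linarith)
        rintro ω ⟨d, hd1, hd2⟩
        exact ⟨d, wd_mono hVV hd1, hd2⟩
    · exact (win_pull (S := Set.univ) (V := W) (Set.subset_univ _) htriv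
        (fun x _ ω => heq x ω) (wd_mono (Set.subset_univ S) heS) (h4 W hW e he heS heW)).mono
        (fun _ h => h) (by linarith)
  · intro U' hU'
    exact (CSol.pull htriv (fun x _ ω => heq x ω) (h5 U' hU')).mono (by linarith)
  · intro C' hC'
    exact (Cert.pull (S := Set.univ) htriv (fun x _ ω => heq x ω) (fun _ _ => Set.mem_univ _)
      (h6 C' hC')).mono (by linarith)

end ORel
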