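import Pool.Agent.Lib_MP_051624_all.ADefs

/-!
# A certificate gives solvability

Proof of `cert_csol`. Let `h`, `bad` be the certificate. Let `Ω, θ', p` be a cover, `g₀` a cocycle
with values in `Γ`. For a suffix `T'` of `L` (in particular for the tails) `p (θ' (mk T') ω) =
θ (mk T') (p ω)` (`equivariant_wd`, `mk_mem_wd`), so also for the elements `bpt (c, b) T`.
Call `ω` relevant if `¬ bad (p ω)` and `θ' (mk L) ω = ω`. For a relevant `ω` let `b, T` be as in the
certificate at `p ω`, and put `lead ω = θ' (bpt (c, b) T) ω`.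

By induction on `k : ℕ` there is `g : X → Ω → Γ` with `g x = g₀ x` for `x ≠ c` and
`val θ' g L ω = 1` for all relevant `ω` with `h (p (lead ω)) < k`. Step: for every point `ω* : Ω`
with `h (p ω*) = k` for which there is a relevant `ω` with `lead ω = ω*` choose such an `ω`
(with its `b, T`), and change `g c ω*` such that `val θ' g L ω = 1`. This is possible: write
`L = L₁ ++ (c, b) :: T`; by `val_append` and the definition of `val`,
`val θ' g L ω = A * (g c ω*)^{±1} * B` with `A = val θ' g L₁ _`, `B = val θ' g T ω`, and the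
values of `g c` which occur in `A` and `B` are those at the points `θ' (bpt (c, b') T') ω`,
`(c, b') :: T' <:+ L`, `T' ≠ T`, where `h ∘ p` is smaller than `k`; these values are not changed
(`val_congr_suf`). For the relevant `ω` with `h (p (lead ω)) < k` nothing changes, as all the
`c`-edges of the loop at `ω` are at points with `h ∘ p < k`. For a relevant `ω'` with
`lead ω' = ω* = lead ω`, where `ω` is the chosen point (with `b', T'` and `b, T`), both
`bpt (c, b) T * mk L * (bpt (c, b) T)⁻¹` and `bpt (c, b') T' * mk L * (bpt (c, b') T')⁻¹` are equal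
to `R₀`. For a relevant `ω` one has, with `u = bpt (c, b) T` and `cval` (`cval_mul`, `cval_inv`),
`cval θ' g R₀ (θ' u ω) = cval θ' g u ω * cval θ' g (mk L) ω * (cval θ' g u ω)⁻¹`
(since `θ' (mk L) ω = ω`). So `val θ' g L ω = cval θ' g (mk L) ω = 1` implies
`cval θ' g R₀ ω* = 1`, which implies `val θ' g L ω' = 1`.

For `k` larger than all values of `h` (`Z` is finite) all relevant `ω` are done, and the
proportion of the `ω` with `bad (p ω)` is at most `ε` (`Small.comp_triv`).
-/

open Equiv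

namespace ORel

private theorem val_cons_bpt {X Z Γ : Type} [Group Γ] (θ : FreeGroup X →* Perm Z)
    (g : X → Z → Γ) (y : X × Bool) (L : List (X × Bool)) (z : Z) :
    val θ g (y :: L) z = (if y.2 then g y.1 (θ (bpt y L) z)
      else (g y.1 (θ (bpt y L) z))⁻¹) * val θ g L z := by
  rcases y with ⟨x, b⟩
  cases b
  · simp [val, bpt]
  · simp [val, bpt]

theorem val_congr_suf {X Z Γ : Type} [Group Γ] (θ : FreeGroup X →* Perm Z) (g g' : X → Z → Γ)
    (L : List (X × Bool)) (z : Z)
    (h : ∀ (y : X × Bool) (T : List (X × Bool)), (y :: T) <:+ L →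
      g y.1 (θ (bpt y T) z) = g' y.1 (θ (bpt y T) z)) :
    val θ g L z = val θ g' L z := by
  induction L with
  | nil => rfl
  | cons y L ih =>
    have h0 := h y L (List.suffix_refl _)
    have h1 : val θ g L z = val θ g' L z :=
      ih fun y' T hT => h y' T (hT.trans (List.suffix_cons y L))
    rw [val_cons_bpt, val_cons_bpt, h0, h1]

private theorem bpt_append {X : Type} (y : X × Bool) (T T' : List (X × Bool)) :
    bpt y (T ++ T') = bpt y T * FreeGroup.mk T' := by
  unfold bpt
  cases y.2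
  · rw [if_neg (by simp), if_neg (by simp), FreeGroup.mul_mk]; rfl
  · rw [if_pos rfl, if_pos rfl, FreeGroup.mul_mk]

private theorem val_factor_suf {X Z Γ : Type} [Group Γ] (θ : FreeGroup X →* Perm Z)
    (g : X → Z → Γ) (L : List (X × Bool)) (y : X × Bool) (T : List (X × Bool))
    (hT : (y :: T) <:+ L) (z : Z) :
    ∃ P Q : Γ, ∀ g' : X → Z → Γ,
      (∀ (y' : X × Bool) (T' : List (X × Bool)), (y' :: T') <:+ L → T' ≠ T →
        g' y'.1 (θ (bpt y' T') z) = g y'.1 (θ (bpt y' T') z)) →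
      val θ g' L z = P * (if y.2 then g' y.1 (θ (bpt y T) z)
        else (g' y.1 (θ (bpt y T) z))⁻¹) * Q := by
  obtain ⟨L₁, rfl⟩ := hT
  refine ⟨val θ g L₁ (θ (FreeGroup.mk (y :: T)) z), val θ g T z, fun g' hg' => ?_⟩
  have h1 : val θ g' T z = val θ g T z := by
    refine val_congr_suf θ g' g T z fun y' T' hT' => ?_
    refine hg' y' T' (hT'.trans ((List.suffix_cons y T).trans (List.suffix_append _ _))) ?_
    rintro rfl
    have h2 := hT'.length_le
    simp at h2
  have h2 : val θ g' L₁ (θ (FreeGroup.mk (y :: T)) z) =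
      val θ g L₁ (θ (FreeGroup.mk (y :: T)) z) := by
    refine val_congr_suf θ g' g L₁ _ fun y' T' hT' => ?_
    have h3 : θ (bpt y' T') (θ (FreeGroup.mk (y :: T)) z) = θ (bpt y' (T' ++ y :: T)) z := by
      rw [bpt_append, map_mul, Perm.mul_apply]
    rw [h3]
    refine hg' y' (T' ++ y :: T) ?_ ?_
    · obtain ⟨L₂, rfl⟩ := hT'
      exact ⟨L₂, by simp⟩
    · intro h4
      have h5 := congrArg List.length h4
      simp at h5
      omega
  rw [val_append, val_cons_bpt, h1, h2]
  simp only [mul_assoc]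

private theorem val_solve_suf {X Z Γ : Type} [Group Γ] (θ : FreeGroup X →* Perm Z)
    (g : X → Z → Γ) (L : List (X × Bool)) (y : X × Bool) (T : List (X × Bool))
    (hT : (y :: T) <:+ L) (z : Z) :
    ∃ a : Γ, ∀ g' : X → Z → Γ, g' y.1 (θ (bpt y T) z) = a →
      (∀ (y' : X × Bool) (T' : List (X × Bool)), (y' :: T') <:+ L → T' ≠ T →
        g' y'.1 (θ (bpt y' T') z) = g y'.1 (θ (bpt y' T') z)) →
      val θ g' L z = 1 := by
  obtain ⟨P, Q, hPQ⟩ := val_factor_suf θ g L y T hT z
  cases hb : y.2 with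
  | false =>
    refine ⟨Q * P, fun g' ha hg' => ?_⟩
    rw [hPQ g' hg', hb, ha]
    simp
  | true =>
    refine ⟨P⁻¹ * Q⁻¹, fun g' ha hg' => ?_⟩
    rw [hPQ g' hg', hb, ha]
    simp

private theorem cval_conj_loop {X Z Γ : Type} [Group Γ] (θ : FreeGroup X →* Perm Z)
    (g : X → Z → Γ) (L : List (X × Bool)) (u : FreeGroup X) (z : Z)
    (hz : θ (FreeGroup.mk L) z = z) :
    cval θ g (u * FreeGroup.mk L * u⁻¹) (θ u z) = cval θ g u z * val θ g L z * (cval θ g u z)⁻¹ := by
  have h1 : θ u⁻¹ (θ u z) = z := by simp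
  rw [cval_mul, cval_mul, cval_inv, h1, hz, cval_mk]

private theorem val_transfer {X Z Γ : Type} [Group Γ] (θ : FreeGroup X →* Perm Z)
    (g : X → Z → Γ) (L : List (X × Bool)) (u u' : FreeGroup X) (z z' : Z)
    (hz : θ (FreeGroup.mk L) z = z) (hz' : θ (FreeGroup.mk L) z' = z')
    (hu : u * FreeGroup.mk L * u⁻¹ = u' * FreeGroup.mk L * u'⁻¹) (hzz : θ u z = θ u' z')
    (h1 : val θ g L z = 1) : val θ g L z' = 1 := by
  have h2 := cval_conj_loop θ g L u z hz
  have h3 := cval_conj_loop θ g L u' z' hz'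
  rw [hu, hzz, h3, h1] at h2
  have h4 : cval θ g u z * 1 * (cval θ g u z)⁻¹ = 1 := by simp
  rw [h4] at h2
  have h5 : val θ g L z' = (cval θ g u' z')⁻¹ * (cval θ g u' z' * val θ g L z' *
      (cval θ g u' z')⁻¹) * cval θ g u' z' := by group
  rw [h5, h2]
  simp

private theorem suffix_head_unique {X : Type} {L T : List (X × Bool)} {y y' : X × Bool}
    (h : (y :: T) <:+ L) (h' : (y' :: T) <:+ L) : y = y' := by
  have h1 : (y :: T) <:+ (y' :: T) := List.suffix_of_suffix_length_le h h' (by simp)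
  have h2 : (y :: T) = (y' :: T) := h1.eq_of_length (by simp)
  exact (List.cons.inj h2).1

theorem cert_csol {X Z : Type} [Finite Z] (S : Set X) (θ : FreeGroup X →* Perm Z)
    (L : List (X × Bool)) (hL : ∀ y ∈ L, y.1 ∈ S) (c : X) (R₀ : FreeGroup X) (ε : ℝ)
    (h : Cert θ L c R₀ ε) : CSol S θ {L} {c} ε := by
  classical
  obtain ⟨hh, bad, hbad, hcert⟩ := h
  intro Ω _ θ' p hp heq Γ _ g₀
  choose! b T hT hR hlt using hcert
  have hbp : ∀ (y : X × Bool) (T' : List (X × Bool)), (y :: T') <:+ L → ∀ ω,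
      p (θ' (bpt y T') ω) = θ (bpt y T') (p ω) := by
    intro y T' hT' ω
    refine equivariant_wd heq ?_ ω
    unfold bpt
    cases y.2
    · rw [if_neg (by simp)]
      exact mk_mem_wd _ fun y' hy' => hL y' (hT'.subset hy')
    · rw [if_pos rfl]
      exact mk_mem_wd _ fun y' hy' => hL y' (hT'.subset (List.mem_cons_of_mem _ hy'))
  let u : Ω → FreeGroup X := fun ω => bpt (c, b (p ω)) (T (p ω))
  let rel : Ω → Prop := fun ω => ¬ bad (p ω) ∧ θ' (FreeGroup.mk L) ω = ω
  let lead : Ω → Ω := fun ω => θ' (u ω) ω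
  have hlt' : ∀ ω, rel ω → ∀ (y : X × Bool) (T' : List (X × Bool)), (y :: T') <:+ L →
      y.1 = c → T' ≠ T (p ω) → hh (p (θ' (bpt y T') ω)) < hh (p (lead ω)) := by
    intro ω hω y T' hT' hy hne
    rcases y with ⟨x, b'⟩
    have hy' : x = c := hy
    subst hy'
    have h1 : p (lead ω) = θ (bpt (x, b (p ω)) (T (p ω))) (p ω) := hbp _ _ (hT _ hω.1) ω
    rw [hbp _ _ hT', h1]
    exact hlt (p ω) hω.1 b' T' hT' hne
  have hle' : ∀ ω, rel ω → ∀ (y : X × Bool) (T' : List (X × Bool)), (y :: T') <:+ L →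
      y.1 = c → hh (p (θ' (bpt y T') ω)) ≤ hh (p (lead ω)) := by
    intro ω hω y T' hT' hy
    by_cases hne : T' = T (p ω)
    · have h1 : y = (c, b (p ω)) := by
        refine suffix_head_unique (T := T (p ω)) ?_ (hT _ hω.1)
        rw [← hne]
        exact hT'
      rw [hne, h1]
    · exact (hlt' ω hω y T' hT' hy hne).le
  have key : ∀ k : ℕ, ∃ g : X → Ω → Γ, (∀ x, x ≠ c → g x = g₀ x) ∧
      ∀ ω, rel ω → hh (p (lead ω)) < k → val θ' g L ω = 1 := by
    intro k
    induction k with
    | zero => exact ⟨g₀, fun _ _ => rfl, fun ω _ hω => absurd hω (Nat.not_lt_zero _)⟩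
    | succ k ih =>
      obtain ⟨g, hg1, hg2⟩ := ih
      have hex : ∀ ω, ∃ a : Γ, rel ω → ∀ g' : X → Ω → Γ, g' c (lead ω) = a →
          (∀ (y' : X × Bool) (T' : List (X × Bool)), (y' :: T') <:+ L → T' ≠ T (p ω) →
            g' y'.1 (θ' (bpt y' T') ω) = g y'.1 (θ' (bpt y' T') ω)) →
          val θ' g' L ω = 1 := by
        intro ω
        by_cases hω : rel ω
        · obtain ⟨a, ha⟩ := val_solve_suf θ' g L (c, b (p ω)) (T (p ω)) (hT _ hω.1) ω
          exact ⟨a, fun _ => ha⟩
        · exact ⟨1, fun h1 => absurd h1 hω⟩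
      choose a ha using hex
      have hch : ∀ ω' : Ω, ∃ ω : Ω, (∃ ω₀, rel ω₀ ∧ lead ω₀ = ω') → rel ω ∧ lead ω = ω' := by
        intro ω'
        by_cases h1 : ∃ ω₀, rel ω₀ ∧ lead ω₀ = ω'
        · obtain ⟨ω₀, h2⟩ := h1
          exact ⟨ω₀, fun _ => h2⟩
        · exact ⟨ω', fun h2 => absurd h2 h1⟩
      choose ch hch using hch
      let g' : X → Ω → Γ := fun x ω' =>
        if x = c ∧ (∃ ω₀, rel ω₀ ∧ lead ω₀ = ω') ∧ hh (p ω') = k then a (ch ω') else g x ω'
      have hne : ∀ x ω', hh (p ω') ≠ k → g' x ω' = g x ω' := by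
        intro x ω' h1
        exact if_neg fun h2 => h1 h2.2.2
      have hne' : ∀ x ω', x ≠ c → g' x ω' = g x ω' := by
        intro x ω' h1
        exact if_neg fun h2 => h1 h2.1
      refine ⟨g', fun x hx => ?_, fun ω hω hlt2 => ?_⟩
      · rw [← hg1 x hx]
        funext ω'
        exact hne' x ω' hx
      · rcases Nat.lt_succ_iff_lt_or_eq.1 hlt2 with h1 | h1
        · rw [← hg2 ω hω h1]
          refine val_congr_suf θ' g' g L ω fun y T' hT' => ?_
          by_cases hy : y.1 = c
          · exact hne _ _ (ne_of_lt ((hle' ω hω y T' hT' hy).trans_lt h1))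
          · exact hne' _ _ hy
        · obtain ⟨h2, h3⟩ := hch (lead ω) ⟨ω, hω, rfl⟩
          have h4 : val θ' g' L (ch (lead ω)) = 1 := by
            refine ha _ h2 g' ?_ ?_
            · rw [h3]
              exact if_pos ⟨rfl, ⟨ω, hω, rfl⟩, h1⟩
            · intro y' T' hT' hneT
              by_cases hy : y'.1 = c
              · refine hne _ _ ?_
                have h5 := hlt' _ h2 y' T' hT' hy hneT
                rw [h3, h1] at h5
                exact ne_of_lt h5
              · exact hne' _ _ hy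
          refine val_transfer θ' g' L (u (ch (lead ω))) (u ω) (ch (lead ω)) ω h2.2 hω.2 ?_ ?_ h4
          · exact (hR _ h2.1).trans (hR _ hω.1).symm
          · exact h3
  obtain ⟨M, hM⟩ := (Set.finite_range hh).bddAbove
  obtain ⟨g, hg1, hg2⟩ := key (M + 1)
  refine ⟨g, fun x hx => hg1 x fun h1 => hx h1, fun L' hL' => ?_⟩
  have hLL : L' = L := hL'
  subst hLL
  refine (hbad.comp_triv hp).mono ?_ le_rfl
  intro ω hω
  by_contra h1
  exact hω.2 (hg2 ω ⟨h1, hω.1⟩ (Nat.lt_succ_of_le (hM ⟨_, rfl⟩)))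

end ORel
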