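import Pool.Agent.Lib_MP_051624_all.ADefs

/-!
# The substitution: algebra

Proof of `sub_nonmem`. Let `H = Wd W ⊔ normalClosure {R}`, `S = FreeGroup X ⧸ H` with the left
action and the base point `o`. The normal closure acts trivially on `S` (it is normal and
contained in `H`), and the letters of `W` fix `o`. Let `m = (n b).natAbs > 0`,
`s = sign (n b) = ±1`. Define an action of the free group on `S × ZMod m` (or `S × Fin m`) by
letters: first the permutation `τ` (the root of `b ^ s`): `τ (y, i) = (y, i)` if `b • y = y`; if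
`b • y ≠ y` then `τ (y, i) = (y, i + 1)` for `i ≠ m - 1` and `τ (y, m - 1) = (b ^ s • y, 0)`
(the set of the `y` with `b • y ≠ y` is invariant under `b`). Then
`τ ^ m (y, i) = (b ^ s • y, i)`, so `τ ^ (n b) (y, i) = (b • y, i)`. Let `b` act as `τ`, and the
letters `x ≠ b` as `(x × id) ∘ τ ^ (- n x)`. Then the image of `subH n b g` acts as `g × id`, for
all `g` (check on the letters: `x * b ^ n x ↦ (x × id) τ ^ (-n x) τ ^ (n x)`,
`b ^ n b ↦ τ ^ (n b) = b × id`). So `subH n b R`, and its normal closure, act trivially. The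
letters of `W` fix `(o, 0)`: `b` fixes `o`, so `τ (o, i) = (o, i)`. So all elements of
`Wd W ⊔ normalClosure {subH n b R}` fix `(o, 0)`. As `e ∉ H`, `subH n b e (o, 0) = (e • o, 0) ≠
(o, 0)`.

(For the construction of `τ` as a permutation: it may be convenient to define it as a product of
simpler permutations, or by `Equiv.ofBijective` on the fibres, or to take `S × ZMod m` and
`τ (y, i) = (y, i + 1)` or `(b ^ s • y, i + 1)` if `i = -1`, for the `y` not fixed by `b`.)

Proof of `subH_inj`: let `subH n b e = 1`. By `sub_nonmem` with `W = {b}`, `R = 1` we get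
`e ∈ Wd {b}`, so `e = b ^ k` and `b ^ (k * n b) = 1`, hence `k = 0` (map to `ℤ`).
-/

open Equiv

namespace ORel

/-! ### The root of a permutation -/

section root

variable {S : Type} (β γ : Perm S) (m : ℕ)

open scoped Classical in
/-- the function of the root -/
private noncomputable def ASubA_f (a : S × ZMod m) : S × ZMod m :=
  if β a.1 = a.1 then a else (if a.2 = -1 then γ a.1 else a.1, a.2 + 1)

open scoped Classical in
/-- the inverse of the root -/
private noncomputable def ASubA_g (a : S × ZMod m) : S × ZMod m :=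
  if β a.1 = a.1 then a else (if a.2 = 0 then γ⁻¹ a.1 else a.1, a.2 - 1)

private theorem ASubA_fix (hc : Commute β γ) (y : S) : β (γ y) = γ y ↔ β y = y := by
  have h : β (γ y) = γ (β y) := by
    rw [← Perm.mul_apply, ← Perm.mul_apply, hc.eq]
  rw [h]
  exact γ.injective.eq_iff

private theorem ASubA_fix_inv (hc : Commute β γ) (y : S) : β (γ⁻¹ y) = γ⁻¹ y ↔ β y = y :=
  ASubA_fix β γ⁻¹ hc.inv_right y

private theorem ASubA_gf (hc : Commute β γ) (a : S × ZMod m) :
    ASubA_g β γ m (ASubA_f β γ m a) = a := by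
  obtain ⟨y, i⟩ := a
  by_cases h : β y = y
  · have h1 : ASubA_f β γ m (y, i) = (y, i) := if_pos h
    rw [h1]
    exact if_pos h
  · have h1 : ASubA_f β γ m (y, i) = (if i = -1 then γ y else y, i + 1) := if_neg h
    rw [h1]
    by_cases hi : i = -1
    · rw [if_pos hi]
      have h2 : ¬ β (γ y) = γ y := fun h3 => h ((ASubA_fix β γ hc y).1 h3)
      have h3 : ASubA_g β γ m (γ y, i + 1) =
          (if i + 1 = 0 then γ⁻¹ (γ y) else γ y, i + 1 - 1) := if_neg h2
      have h4 : γ⁻¹ (γ y) = y := γ.symm_apply_apply y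
      rw [h3, if_pos (by rw [hi, neg_add_cancel]), add_sub_cancel_right, h4]
    · rw [if_neg hi]
      have h3 : ASubA_g β γ m (y, i + 1) = (if i + 1 = 0 then γ⁻¹ y else y, i + 1 - 1) := if_neg h
      rw [h3, if_neg (fun h4 => hi (eq_neg_of_add_eq_zero_left h4)), add_sub_cancel_right]

private theorem ASubA_fg (hc : Commute β γ) (a : S × ZMod m) :
    ASubA_f β γ m (ASubA_g β γ m a) = a := by
  obtain ⟨y, i⟩ := a
  by_cases h : β y = y
  · have h1 : ASubA_g β γ m (y, i) = (y, i) := if_pos h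
    rw [h1]
    exact if_pos h
  · have h1 : ASubA_g β γ m (y, i) = (if i = 0 then γ⁻¹ y else y, i - 1) := if_neg h
    rw [h1]
    by_cases hi : i = 0
    · rw [if_pos hi]
      have h2 : ¬ β (γ⁻¹ y) = γ⁻¹ y := fun h3 => h ((ASubA_fix_inv β γ hc y).1 h3)
      have h3 : ASubA_f β γ m (γ⁻¹ y, i - 1) =
          (if i - 1 = -1 then γ (γ⁻¹ y) else γ⁻¹ y, i - 1 + 1) := if_neg h2
      have h4 : γ (γ⁻¹ y) = y := γ.apply_symm_apply y
      rw [h3, if_pos (by rw [hi, zero_sub]), sub_add_cancel, h4]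
    · rw [if_neg hi]
      have h3 : ASubA_f β γ m (y, i - 1) = (if i - 1 = -1 then γ y else y, i - 1 + 1) := if_neg h
      have h4 : ¬ i - 1 = -1 := by
        intro h5
        apply hi
        have h6 : i = i - 1 + 1 := (sub_add_cancel i 1).symm
        rw [h6, h5, neg_add_cancel]
      rw [h3, if_neg h4, sub_add_cancel]

/-- the root -/
private noncomputable def ASubA_tau (hc : Commute β γ) : Perm (S × ZMod m) where
  toFun := ASubA_f β γ m
  invFun := ASubA_g β γ m
  left_inv := ASubA_gf β γ m hc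
  right_inv := ASubA_fg β γ m hc

private theorem ASubA_tau_fix (hc : Commute β γ) {y : S} (h : β y = y) (i : ZMod m) :
    ASubA_tau β γ m hc (y, i) = (y, i) := if_pos h

private theorem ASubA_tau_pow_zero (hc : Commute β γ) {y : S} (h : β y ≠ y) (j : ℕ) (hj : j < m) :
    (ASubA_tau β γ m hc ^ j) (y, 0) = (y, (j : ZMod m)) := by
  induction j with
  | zero => simp
  | succ j ih =>
    rw [pow_succ', Perm.mul_apply, ih (by omega)]
    have h1 : ASubA_tau β γ m hc (y, (j : ZMod m)) =
      (if (j : ZMod m) = -1 then γ y else y, (j : ZMod m) + 1) := if_neg h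
    have h2 : ¬ (j : ZMod m) = -1 := by
      intro h3
      have h4 : ((j + 1 : ℕ) : ZMod m) = 0 := by
        push_cast
        rw [h3, neg_add_cancel]
      rw [ZMod.natCast_eq_zero_iff] at h4
      have := Nat.le_of_dvd (by omega) h4
      omega
    rw [h1, if_neg h2]
    push_cast
    rfl

private theorem ASubA_tau_pow_m_zero (hc : Commute β γ) (hm : 0 < m) {y : S} (h : β y ≠ y) :
    (ASubA_tau β γ m hc ^ m) (y, 0) = (γ y, 0) := by
  obtain ⟨k, rfl⟩ : ∃ k, m = k + 1 := ⟨m - 1, by omega⟩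
  rw [pow_succ', Perm.mul_apply, ASubA_tau_pow_zero β γ (k + 1) hc h k (by omega)]
  have h1 : ASubA_tau β γ (k + 1) hc (y, (k : ZMod (k + 1))) =
    (if (k : ZMod (k + 1)) = -1 then γ y else y, (k : ZMod (k + 1)) + 1) := if_neg h
  have h2 : (k : ZMod (k + 1)) + 1 = 0 := by
    have := ZMod.natCast_self (k + 1)
    push_cast at this
    exact this
  rw [h1, if_pos (eq_neg_of_add_eq_zero_left h2), h2]

private theorem ASubA_tau_pow (hc : Commute β γ) (hm : 0 < m) (hγ : ∀ y, β y = y → γ y = y)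
    (a : S × ZMod m) : (ASubA_tau β γ m hc ^ m) a = (γ a.1, a.2) := by
  obtain ⟨y, i⟩ := a
  by_cases h : β y = y
  · have h1 : ∀ j : ℕ, (ASubA_tau β γ m hc ^ j) (y, i) = (y, i) := by
      intro j
      induction j with
      | zero => rfl
      | succ j ih => rw [pow_succ', Perm.mul_apply, ih, ASubA_tau_fix β γ m hc h]
    rw [h1, hγ y h]
  · have hm0 : NeZero m := ⟨hm.ne'⟩
    have h1 := ASubA_tau_pow_zero β γ m hc h i.val (ZMod.val_lt i)
    rw [ZMod.natCast_zmod_val] at h1
    have h2 : ¬ β (γ y) = γ y := fun h3 => h ((ASubA_fix β γ hc y).1 h3)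
    have h3 := ASubA_tau_pow_zero β γ m hc h2 i.val (ZMod.val_lt i)
    rw [ZMod.natCast_zmod_val] at h3
    calc (ASubA_tau β γ m hc ^ m) (y, i)
        = (ASubA_tau β γ m hc ^ m) ((ASubA_tau β γ m hc ^ i.val) (y, 0)) := by rw [h1]
      _ = (ASubA_tau β γ m hc ^ i.val) ((ASubA_tau β γ m hc ^ m) (y, 0)) := by
          rw [← Perm.mul_apply, ← pow_add, add_comm, pow_add, Perm.mul_apply]
      _ = (γ y, i) := by rw [ASubA_tau_pow_m_zero β γ m hc hm h, h3]

/-- the product with the identity -/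
private def ASubA_P (K : Type) : Perm S →* Perm (S × K) where
  toFun σ := Equiv.prodCongr σ (Equiv.refl K)
  map_one' := by
    ext a <;> rfl
  map_mul' σ ρ := by
    ext a <;> rfl

private theorem ASubA_P_apply (K : Type) (σ : Perm S) (a : S × K) :
    ASubA_P K σ a = (σ a.1, a.2) := rfl

end root

/-- the root of a permutation, which fixes the fibres of the fixed points -/
private theorem ASubA_root {S : Type} (β : Perm S) (k : ℤ) (hk : k ≠ 0) :
    ∃ (K : Type) (i₀ : K) (τ : Perm (S × K)), τ ^ k = ASubA_P K β ∧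
      ∀ y, β y = y → ∀ i, τ (y, i) = (y, i) := by
  have hm : 0 < k.natAbs := Int.natAbs_pos.2 hk
  rcases lt_or_gt_of_ne hk with h | h
  · -- negative
    have hc : Commute β β⁻¹ := (Commute.refl β).inv_right
    refine ⟨ZMod k.natAbs, 0, ASubA_tau β β⁻¹ k.natAbs hc, ?_, fun y hy i =>
      ASubA_tau_fix β β⁻¹ k.natAbs hc hy i⟩
    have h1 : ASubA_tau β β⁻¹ k.natAbs hc ^ k.natAbs = ASubA_P (ZMod k.natAbs) β⁻¹ := by
      ext1 a
      rw [ASubA_tau_pow β β⁻¹ k.natAbs hc hm (fun y hy => by rw [Perm.inv_eq_iff_eq, hy]) a,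
        ASubA_P_apply]
    have h2 : k = -((k.natAbs : ℕ) : ℤ) := by omega
    calc ASubA_tau β β⁻¹ k.natAbs hc ^ k
        = ASubA_tau β β⁻¹ k.natAbs hc ^ (-((k.natAbs : ℕ) : ℤ)) := congrArg _ h2
      _ = (ASubA_tau β β⁻¹ k.natAbs hc ^ k.natAbs)⁻¹ := by rw [zpow_neg, zpow_natCast]
      _ = ASubA_P (ZMod k.natAbs) β := by rw [h1, ← map_inv, inv_inv]
  · have hc : Commute β β := Commute.refl β
    refine ⟨ZMod k.natAbs, 0, ASubA_tau β β k.natAbs hc, ?_, fun y hy i =>
      ASubA_tau_fix β β k.natAbs hc hy i⟩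
    have h1 : ASubA_tau β β k.natAbs hc ^ k.natAbs = ASubA_P (ZMod k.natAbs) β := by
      ext1 a
      rw [ASubA_tau_pow β β k.natAbs hc hm (fun y hy => hy) a, ASubA_P_apply]
    have h2 : k = ((k.natAbs : ℕ) : ℤ) := by omega
    calc ASubA_tau β β k.natAbs hc ^ k
        = ASubA_tau β β k.natAbs hc ^ ((k.natAbs : ℕ) : ℤ) := congrArg _ h2
      _ = ASubA_P (ZMod k.natAbs) β := by rw [zpow_natCast, h1]

private theorem ASubA_zpow_fix {T : Type} (τ : Perm T) (a : T) (h : τ a = a) (k : ℤ) :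
    (τ ^ k) a = a := by
  have h1 : τ ∈ MulAction.stabilizer (Perm T) a := h
  exact (MulAction.stabilizer (Perm T) a).zpow_mem h1 k

theorem sub_nonmem {X : Type} (n : X → ℤ) (b : X) (hb : n b ≠ 0) (W : Set X) (hbW : b ∈ W)
    (R : FreeGroup X) (e : FreeGroup X) (he : e ∉ Wd W ⊔ Subgroup.normalClosure {R}) :
    subH n b e ∉ Wd W ⊔ Subgroup.normalClosure {subH n b R} := by
  classical
  intro hmem
  apply he
  set H : Subgroup (FreeGroup X) := Wd W ⊔ Subgroup.normalClosure {R} with hH
  -- the action on the cosets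
  let ρ : FreeGroup X →* Perm (FreeGroup X ⧸ H) := MulAction.toPermHom (FreeGroup X) (FreeGroup X ⧸ H)
  have hρ : ∀ (g x : FreeGroup X), ρ g (x : FreeGroup X ⧸ H) = ((g * x : FreeGroup X) : FreeGroup X ⧸ H) :=
    fun g x => rfl
  have ho : ∀ g : FreeGroup X, ρ g ((1 : FreeGroup X) : FreeGroup X ⧸ H) =
      ((1 : FreeGroup X) : FreeGroup X ⧸ H) ↔ g ∈ H := by
    intro g
    rw [hρ, mul_one, eq_comm, QuotientGroup.eq, inv_one, one_mul]
  have hWH : ∀ x ∈ W, ρ (FreeGroup.of x) ((1 : FreeGroup X) : FreeGroup X ⧸ H) =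
      ((1 : FreeGroup X) : FreeGroup X ⧸ H) := fun x hx =>
    (ho _).2 (Subgroup.mem_sup_left (of_mem_wd hx))
  have hR : ρ R = 1 := by
    ext1 y
    induction y using QuotientGroup.induction_on with
    | H x =>
      rw [hρ, Perm.one_apply, eq_comm, QuotientGroup.eq]
      refine Subgroup.mem_sup_right ?_
      have h1 := (Subgroup.normalClosure_normal (s := {R})).conj_mem R
        (Subgroup.subset_normalClosure (Set.mem_singleton R)) x⁻¹
      rw [inv_inv] at h1
      rw [← mul_assoc]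
      exact h1
  -- the root
  obtain ⟨K, i₀, τ, hτ, hτf⟩ := ASubA_root (ρ (FreeGroup.of b)) (n b) hb
  let Φ : FreeGroup X →* Perm ((FreeGroup X ⧸ H) × K) := FreeGroup.lift fun x =>
    if x = b then τ else ASubA_P K (ρ (FreeGroup.of x)) * τ ^ (-n x)
  have hΦb : Φ (FreeGroup.of b) = τ := by
    simp [Φ]
  have hΦx : ∀ x, x ≠ b → Φ (FreeGroup.of x) = ASubA_P K (ρ (FreeGroup.of x)) * τ ^ (-n x) := by
    intro x hx
    simp [Φ, hx]
  have hcomp : Φ.comp (subH n b) = (ASubA_P K).comp ρ := by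
    refine FreeGroup.ext_hom _ _ fun x => ?_
    rw [MonoidHom.comp_apply, MonoidHom.comp_apply]
    by_cases hx : x = b
    · subst hx
      have h1 : subH n x (FreeGroup.of x) = FreeGroup.of x ^ n x := by
        simp [subH]
      rw [h1, map_zpow, hΦb, hτ]
    · have h1 : subH n b (FreeGroup.of x) = FreeGroup.of x * FreeGroup.of b ^ n x := by
        simp [subH, hx]
      rw [h1, map_mul, map_zpow, hΦb, hΦx x hx, mul_assoc, ← zpow_add, neg_add_cancel, zpow_zero,
        mul_one]
  have hcomp' : ∀ g, Φ (subH n b g) = ASubA_P K (ρ g) := fun g => DFunLike.congr_fun hcomp g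
  -- the stabiliser of the base point
  set o : (FreeGroup X ⧸ H) × K := (((1 : FreeGroup X) : FreeGroup X ⧸ H), i₀) with hodef
  have hτo : τ o = o := hτf _ (hWH b hbW) i₀
  have hle : Wd W ⊔ Subgroup.normalClosure {subH n b R} ≤
      (MulAction.stabilizer (Perm ((FreeGroup X ⧸ H) × K)) o).comap Φ := by
    refine sup_le ?_ ?_
    · rw [Wd, Subgroup.closure_le]
      rintro _ ⟨x, hx, rfl⟩
      change Φ (FreeGroup.of x) o = o
      by_cases hxb : x = b
      · rw [hxb, hΦb, hτo]
      · rw [hΦx x hxb, Perm.mul_apply, ASubA_zpow_fix τ o hτo, ASubA_P_apply]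
        exact Prod.ext (hWH x hx) rfl
    · have h1 : Subgroup.normalClosure {subH n b R} ≤ Φ.ker := by
        refine Subgroup.normalClosure_le_normal ?_
        rintro _ rfl
        change subH n b R ∈ Φ.ker
        rw [MonoidHom.mem_ker, hcomp', hR, map_one]
      intro g hg
      have h2 : Φ g = 1 := MonoidHom.mem_ker.1 (h1 hg)
      change Φ g o = o
      rw [h2]
      rfl
  have h1 : Φ (subH n b e) o = o := hle hmem
  rw [hcomp', ASubA_P_apply] at h1
  exact (ho e).1 (congrArg Prod.fst h1)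

theorem subH_inj {X : Type} (n : X → ℤ) (b : X) (hb : n b ≠ 0) :
    Function.Injective (subH n b) := by
  classical
  rw [injective_iff_map_eq_one]
  intro e he
  by_cases h : e ∈ Wd ({b} : Set X) ⊔ Subgroup.normalClosure {(1 : FreeGroup X)}
  · have h1 : Subgroup.normalClosure {(1 : FreeGroup X)} = ⊥ := by
      rw [eq_bot_iff]
      refine Subgroup.normalClosure_le_normal ?_
      rintro _ rfl
      exact Subgroup.mem_bot.2 rfl
    rw [h1, sup_bot_eq, Wd, Set.image_singleton, Subgroup.mem_closure_singleton] at h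
    obtain ⟨k, rfl⟩ := h
    have h2 : subH n b (FreeGroup.of b) = FreeGroup.of b ^ n b := by
      simp [subH]
    rw [map_zpow, h2] at he
    let ψ : FreeGroup X →* Multiplicative ℤ := FreeGroup.lift fun _ => Multiplicative.ofAdd (1 : ℤ)
    have hψ : ψ (FreeGroup.of b) = Multiplicative.ofAdd (1 : ℤ) := FreeGroup.lift_apply_of
    have h3 : ψ ((FreeGroup.of b ^ n b) ^ k) = ψ 1 := congrArg ψ he
    rw [map_zpow ψ, map_zpow ψ, map_one ψ, hψ] at h3
    have h5 := congrArg Multiplicative.toAdd h3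
    rw [toAdd_zpow, toAdd_zpow, toAdd_ofAdd, toAdd_one, smul_eq_mul, smul_eq_mul, mul_one] at h5
    have h6 : k = 0 := by
      rcases mul_eq_zero.1 h5 with h7 | h7
      · exact h7
      · exact absurd h7 hb
    rw [h6, zpow_zero]
  · exfalso
    refine sub_nonmem n b hb {b} (Set.mem_singleton b) 1 e h ?_
    rw [he]
    exact one_mem _

end ORel
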